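import Pool.Agent.NorK.Struct

set_option autoImplicit false

/-!
# MP_615643_co: the functional only sees the faces with alternating fixed coordinates
-/

namespace Pool.Agent.NorK

open Finset Pool.Agent.TwoCh Pool.Agent.Nor Pool.Agent.AntiPath

/-- the number of the fixed coordinates before `l` -/
def fx {n : ℕ} (F : Face n) (l : Fin n) : ℕ :=
  (univ.filter fun l' => l' < l ∧ F l' ≠ none).card

/-- the fixed coordinates have alternating values, beginning with `false` -/
def AltF {n : ℕ} (F : Face n) : Prop := ∀ l b, F l = some b → b = decide (Odd (fx F l))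

theorem fx_succ {n : ℕ} (G : Face (n + 1)) (l : Fin n) :
    fx G l.succ = (if G 0 ≠ none then 1 else 0) + fx (fun m => G m.succ) l := by
  unfold fx
  rw [Finset.card_filter, Finset.card_filter, Fin.sum_univ_succ]
  congr 1
  · have h : (0 : Fin (n + 1)) < l.succ := Fin.succ_pos l
    simp only [h, true_and]
  · refine Finset.sum_congr rfl fun m _ => ?_
    simp only [Fin.succ_lt_succ_iff]

theorem AltF_some {n : ℕ} (F : Face n) (h : AltF F) :
    AltF (Fin.cons (some false) (tw F) : Face (n + 1)) := by
  intro l b
  refine Fin.cases ?_ (fun l => ?_) l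
  · intro hb
    simp only [Fin.cons_zero, Option.some.injEq] at hb
    have h0 : fx (Fin.cons (some false) (tw F) : Face (n + 1)) 0 = 0 := by
      unfold fx
      rw [Finset.card_eq_zero, Finset.filter_eq_empty_iff]
      intro m _ hm
      exact absurd hm.1 (Fin.not_lt_zero m)
    rw [h0, ← hb]
    decide
  · intro hb
    simp only [Fin.cons_succ, tw] at hb
    rw [fx_succ]
    simp only [Fin.cons_zero, Fin.cons_succ, ne_eq, reduceCtorEq, not_false_eq_true, if_true]
    have h1 : fx (fun m => tw F m) l = fx F l := by
      unfold fx
      congr 1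
      ext m
      simp [tw]
    rw [h1]
    rcases hF : F l with _ | b'
    · rw [hF] at hb; simp at hb
    · rw [hF] at hb
      simp only [Option.map_some, Option.some.injEq] at hb
      have h2 := h l b' hF
      rw [← hb, h2]
      have h3 : Odd (1 + fx F l) ↔ ¬ Odd (fx F l) := by
        rw [add_comm, Nat.odd_add_one]
      simp only [h3]
      by_cases h4 : Odd (fx F l) <;> simp [h4]

theorem AltF_none {n : ℕ} (F : Face n) (h : AltF F) : AltF (Fin.cons none F : Face (n + 1)) := by
  intro l b
  refine Fin.cases ?_ (fun l => ?_) l
  · intro hb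
    simp at hb
  · intro hb
    simp only [Fin.cons_succ] at hb
    rw [fx_succ]
    simp only [Fin.cons_zero, Fin.cons_succ, ne_eq, not_true_eq_false, if_false, zero_add]
    exact h l b hb

theorem phi_zero_alt {n : ℕ} (k : ℕ) (M : Face n → ZMod 2) (h : ∀ F, AltF F → M F = 0) :
    phi n k M = 0 := by
  induction n generalizing k with
  | zero =>
    cases k with
    | zero =>
      simp only [phi]
      exact h _ fun l => l.elim0
    | succ k => rfl
  | succ n ih =>
    cases k with
    | zero =>
      simp only [phi]
      exact ih _ _ fun F hF => h _ (AltF_some F hF)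
    | succ k =>
      simp only [phi]
      rw [ih _ _ fun F hF => h _ (AltF_some F hF), ih _ _ fun F hF => h _ (AltF_none F hF),
        add_zero]

theorem Phi_zero_alt {n : ℕ} (k : ℕ) (M : Mx n) (h : ∀ F, AltF F → M (lo F) (hi F) = 0) :
    Phi n k M = 0 := by
  rw [Phi_apply]
  exact phi_zero_alt k _ h

end Pool.Agent.NorK
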