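import Pool.Agent.NorK.Cells
import Pool.Agent.Nor.Labels

set_option autoImplicit false

/-!
# MP_615643_co: the words of a cell and the vanishing lemma

`e`, `f` are the idempotents of the two kinds of labels and `e'`, `f'` those of the antipodal
labels.  The word of a cell with the parts `σ, ρ, ρ', σ'` is the product of the words of these
parts.  It vanishes when an element `c` lies in `σ` and `σ'` and an element `d` lies in `ρ` and
`ρ'`, unless the pair `(c, d)` lies in a complete bipartite graph with 3 + 2 vertices and in a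
complete bipartite graph with 2 + 3 vertices.
-/

namespace Pool.Agent.NorK

open Finset Pool.Agent.TwoCh Pool.Agent.Nor

section

variable {N M : ℕ}

/-- `(c, d)` lies in a complete bipartite subgraph of `H` with at least `p` vertices on the first
side and at least `q` vertices on the second side -/
def Kpq (H : Fin N → Fin M → Prop) (p q : ℕ) (c : Fin N) (d : Fin M) : Prop :=
  ∃ (σ : Finset (Fin N)) (ρ : Finset (Fin M)), c ∈ σ ∧ d ∈ ρ ∧ p ≤ σ.card ∧ q ≤ ρ.card ∧
    ∀ a ∈ σ, ∀ b ∈ ρ, H a b

variable {R : Type*} [Ring R] {D : R} {e e' : Fin N → R} {f f' : Fin M → R}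

/-- relations between labels and antipodal labels of one kind -/
structure Anti (D : R) (e e' : Fin N → R) : Prop where
  comm : ∀ a b, e a * e' b = e' b * e a
  a0 : ∀ c, e c * e' c = 0
  a1 : ∀ c, e c * D * e' c = 0
  a2 : ∀ c p q, e c * D * (e p * e' q) * D * e' c = 0

theorem om_pair (D : R) (e : Fin N → R) {c p : Fin N} (h : c ≠ p) :
    om D e {c, p} = e c * D * e p + e p * D * e c := by
  have h1 : ({c, p} : Finset (Fin N)).erase c = {p} := by
    rw [Finset.erase_insert]; simpa using h
  have h3 : ({c, p} : Finset (Fin N)).erase p = {c} := by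
    rw [Finset.pair_comm, Finset.erase_insert]; simpa using Ne.symm h
  rw [om_eq, Finset.sum_pair h, h1, h3]
  unfold gg
  rw [if_neg (Finset.singleton_ne_empty _), if_neg (Finset.singleton_ne_empty _), om_singleton,
    om_singleton, zero_add, zero_add, mul_assoc, mul_assoc]

theorem two_of_card {σ : Finset (Fin N)} (h : σ.card = 2) {c : Fin N} (hc : c ∈ σ) :
    ∃ p, c ≠ p ∧ σ = {c, p} := by
  obtain ⟨x, y, hxy, rfl⟩ := Finset.card_eq_two.1 h
  rw [Finset.mem_insert, Finset.mem_singleton] at hc
  rcases hc with rfl | rfl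
  · exact ⟨y, hxy, rfl⟩
  · exact ⟨x, Ne.symm hxy, Finset.pair_comm _ _⟩

theorem anti_two (A : Anti D e e') {σ σ' : Finset (Fin N)} (h : σ.card = 2) (h' : σ'.card = 2)
    {c : Fin N} (hc : c ∈ σ) (hc' : c ∈ σ') : om D e σ * om D e' σ' = 0 := by
  obtain ⟨p, hp, rfl⟩ := two_of_card h hc
  obtain ⟨q, hq, rfl⟩ := two_of_card h' hc'
  rw [om_pair D e hp, om_pair D e' hq, add_mul, mul_add, mul_add]
  have e1 : e c * D * e p * (e' c * D * e' q) = 0 := by
    have : e c * D * e p * (e' c * D * e' q) = e c * D * e' c * (e p * D * e' q) := by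
      simp only [mul_assoc]
      rw [← mul_assoc (e p) (e' c), A.comm p c]
      simp only [mul_assoc]
    rw [this, A.a1, zero_mul]
  have e2 : e c * D * e p * (e' q * D * e' c) = 0 := by
    have : e c * D * e p * (e' q * D * e' c) = e c * D * (e p * e' q) * D * e' c := by
      simp only [mul_assoc]
    rw [this, A.a2]
  have e3 : e p * D * e c * (e' c * D * e' q) = 0 := by
    have : e p * D * e c * (e' c * D * e' q) = e p * D * (e c * e' c) * (D * e' q) := by
      simp only [mul_assoc]
    rw [this, A.a0, mul_zero, zero_mul]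
  have e4 : e p * D * e c * (e' q * D * e' c) = 0 := by
    have : e p * D * e c * (e' q * D * e' c) = e p * D * e' q * (e c * D * e' c) := by
      simp only [mul_assoc]
      rw [← mul_assoc (e c) (e' q), A.comm c q]
      simp only [mul_assoc]
    rw [this, A.a1, mul_zero]
  rw [e1, e2, e3, e4, add_zero, add_zero]

/-- all relations -/
structure Quad (D : R) (e e' : Fin N → R) (f f' : Fin M → R) (H : Fin N → Fin M → Prop) :
    Prop where
  S : Sys D e f
  S' : Sys D e' f'
  AA : Anti D e e'
  AB : Anti D f f'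
  nH : ∀ a d, ¬ H a d → e a * f d = 0
  nH' : ∀ a d, ¬ H a d → e' a * f' d = 0
  c1 : ∀ a d, H a d → e a * f' d = 0
  c2 : ∀ a d, H a d → f d * e' a = 0

/-- the word of a cell -/
noncomputable def wd (D : R) (e e' : Fin N → R) (f f' : Fin M → R) (C : Finset (Lb N M)) : R :=
  om D e (pA C false) * om D f (pB C false) * (om D f' (pB C true) * om D e' (pA C true))

theorem left_letter {K : ℕ} {x : Fin K → R} (X : R) (ρ : Finset (Fin K))
    (h : ∀ d ∈ ρ, X * x d = 0) : X * om D x ρ = 0 := by
  rw [om_eq, Finset.mul_sum]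
  refine Finset.sum_eq_zero fun d hd => ?_
  rw [← mul_assoc, h d hd, zero_mul]

theorem right_letter {K : ℕ} {x : Fin K → R} (X : R) (ρ : Finset (Fin K))
    (h : ∀ d ∈ ρ, x d * X = 0) : om D x ρ * X = 0 := by
  rw [om_right, Finset.sum_mul]
  refine Finset.sum_eq_zero fun d hd => ?_
  rw [mul_assoc, h d hd, mul_zero]

variable {H : Fin N → Fin M → Prop}

theorem bicl_H (Q : Quad D e e' f f' H) (σ : Finset (Fin N)) (ρ : Finset (Fin M))
    (h : om D e σ * om D f ρ ≠ 0) : ∀ a ∈ σ, ∀ b ∈ ρ, H a b := by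
  intro a ha b hb
  by_contra hn
  exact h (bicl Q.S a b (Q.nH a b hn) σ ρ ha hb)

theorem bicl_H' (Q : Quad D e e' f f' H) (σ : Finset (Fin N)) (ρ : Finset (Fin M))
    (h : om D f' ρ * om D e' σ ≠ 0) : ∀ a ∈ σ, ∀ b ∈ ρ, H a b := by
  intro a ha b hb
  by_contra hn
  apply h
  rw [← om_comm Q.S']
  exact bicl Q.S' a b (Q.nH' a b hn) σ ρ ha hb

/-- the vanishing lemma: what a nonzero word of a cell with repeated labels needs -/
theorem bad_sizes (Q : Quad D e e' f f' H) (C : Finset (Lb N M)) (c : Fin N) (d : Fin M)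
    (hc : ∀ s, c ∈ pA C s) (hd : ∀ s, d ∈ pB C s) (h : wd D e e' f f' C ≠ 0) :
    (∀ s, 2 ≤ (pA C s).card) ∧ (∀ s, 2 ≤ (pB C s).card) ∧ (∃ s, 3 ≤ (pA C s).card) ∧
      (∃ s, 3 ≤ (pB C s).card) ∧ ∀ s, ∀ a ∈ pA C s, ∀ b ∈ pB C s, H a b := by
  unfold wd at h
  have h1 := bicl_H Q _ _ (left_ne_zero_of_mul h)
  have h3 := bicl_H' Q _ _ (right_ne_zero_of_mul h)
  have hS := om_comm Q.S (pA C false) (pB C false)
  have hS' := om_comm Q.S' (pA C true) (pB C true)
  -- singletons
  have hone : ∀ {K : ℕ} {σ : Finset (Fin K)} {x : Fin K}, x ∈ σ → ¬ 2 ≤ σ.card → σ = {x} := by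
    intro K σ x hx hcard
    have h4 : σ.card = 1 := by
      have := Finset.card_pos.2 ⟨x, hx⟩
      omega
    obtain ⟨y, rfl⟩ := Finset.card_eq_one.1 h4
    rw [Finset.mem_singleton] at hx
    rw [hx]
  have s1 : 2 ≤ (pA C false).card := by
    by_contra hn
    apply h
    rw [hS, hone (hc false) hn, om_singleton, mul_assoc (om D f (pB C false)), ← mul_assoc (e c),
      left_letter (e c) _ fun b hb => Q.c1 c b (h3 c (hc true) b hb), zero_mul, mul_zero]
  have s2 : 2 ≤ (pA C true).card := by
    by_contra hn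
    apply h
    rw [← hS', hone (hc true) hn, om_singleton, mul_assoc (om D e (pA C false)),
      ← mul_assoc (om D f (pB C false)),
      right_letter (e' c) _ fun b hb => Q.c2 c b (h1 c (hc false) b hb), zero_mul, mul_zero]
  have s3 : 2 ≤ (pB C false).card := by
    by_contra hn
    apply h
    rw [← hS', hone (hd false) hn, om_singleton, mul_assoc (om D e (pA C false)),
      ← mul_assoc (f d),
      left_letter (f d) _ fun a ha => Q.c2 a d (h3 a ha d (hd true)), zero_mul, mul_zero]
  have s4 : 2 ≤ (pB C true).card := by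
    by_contra hn
    apply h
    rw [hS, hone (hd true) hn, om_singleton, mul_assoc (om D f (pB C false)),
      ← mul_assoc (om D e (pA C false)),
      right_letter (f' d) _ fun a ha => Q.c1 a d (h1 a ha d (hd false)), zero_mul, mul_zero]
  refine ⟨?_, ?_, ?_, ?_, ?_⟩
  · intro s; cases s
    · exact s1
    · exact s2
  · intro s; cases s
    · exact s3
    · exact s4
  · by_contra hn
    push Not at hn
    have t1 := hn false
    have t2 := hn true
    apply h
    rw [hS, ← hS', mul_assoc (om D f (pB C false)), ← mul_assoc (om D e (pA C false)),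
      anti_two Q.AA (by omega) (by omega) (hc false) (hc true), zero_mul, mul_zero]
  · by_contra hn
    push Not at hn
    have t1 := hn false
    have t2 := hn true
    apply h
    rw [mul_assoc (om D e (pA C false)), ← mul_assoc (om D f (pB C false)),
      anti_two Q.AB (by omega) (by omega) (hd false) (hd true), zero_mul, mul_zero]
  · intro s a ha b hb
    cases s
    · exact h1 a ha b hb
    · exact h3 a ha b hb

/-- a nonzero word of a cell with repeated labels gives two complete bipartite graphs -/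
theorem bad_K (Q : Quad D e e' f f' H) (C : Finset (Lb N M)) (c : Fin N) (d : Fin M)
    (hc : ∀ s, c ∈ pA C s) (hd : ∀ s, d ∈ pB C s) (h : wd D e e' f f' C ≠ 0) :
    Kpq H 3 2 c d ∧ Kpq H 2 3 c d := by
  obtain ⟨h1, h2, ⟨s, h3⟩, ⟨t, h4⟩, h5⟩ := bad_sizes Q C c d hc hd h
  exact ⟨⟨pA C s, pB C s, hc s, hd s, h3, h2 s, h5 s⟩,
    ⟨pA C t, pB C t, hc t, hd t, h1 t, h4, h5 t⟩⟩

/-- the boundary of a word -/
theorem wd_bd (Q : Quad D e e' f f' H) (C : Finset (Lb N M)) (hC : P C) :
    ∑ l ∈ Cᶜ, wd D e e' f f' (insert l C) =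
      D * wd D e e' f f' C + wd D e e' f f' C * D := by
  have hA : ∀ s, pA C s ≠ ∅ := fun s => Finset.nonempty_iff_ne_empty.1 (hC.1 s)
  have hB : ∀ s, pB C s ≠ ∅ := fun s => Finset.nonempty_iff_ne_empty.1 (hC.2 s)
  rw [sum_parts, Fintype.sum_bool]
  simp only [pA_compl, pB_compl]
  unfold wd
  simp only [pA_insert, pA_insert', pB_insert, pB_insert', if_true, Bool.false_eq_true,
    if_false, reduceCtorEq]
  have i1 := om_ins Q.S.h2 D Q.S.hD e Q.S.he (pA C false)
  have i2 := om_ins Q.S.h2 D Q.S.hD f Q.S.hf (pB C false)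
  have i3 := om_ins Q.S.h2 D Q.S.hD f' Q.S'.hf (pB C true)
  have i4 := om_ins Q.S.h2 D Q.S.hD e' Q.S'.he (pA C true)
  rw [if_neg (hA _), zero_add] at i1 i4
  rw [if_neg (hB _), zero_add] at i2 i3
  rw [← Finset.mul_sum, ← Finset.mul_sum, ← Finset.mul_sum, ← Finset.sum_mul, ← Finset.sum_mul,
    ← Finset.sum_mul, ← Finset.sum_mul, ← Finset.mul_sum, i1, i2, i3, i4]
  have h2 := Q.S.h2
  have k1 := h2 (om D e (pA C false) * D * om D f (pB C false) *
    (om D f' (pB C true) * om D e' (pA C true)))
  have k2 := h2 (om D e (pA C false) * om D f (pB C false) * D *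
    (om D f' (pB C true) * om D e' (pA C true)))
  have k3 := h2 (om D e (pA C false) * om D f (pB C false) *
    (om D f' (pB C true) * D * om D e' (pA C true)))
  generalize om D e (pA C false) = W1 at *
  generalize om D f (pB C false) = W2 at *
  generalize om D f' (pB C true) = W3 at *
  generalize om D e' (pA C true) = W4 at *
  calc _ = (W1 * D * W2 * (W3 * W4) + W1 * D * W2 * (W3 * W4)) +
        (W1 * W2 * D * (W3 * W4) + W1 * W2 * D * (W3 * W4)) +
        (W1 * W2 * (W3 * D * W4) + W1 * W2 * (W3 * D * W4)) +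
        (D * (W1 * W2 * (W3 * W4)) + W1 * W2 * (W3 * W4) * D) := by
        noncomm_ring
    _ = _ := by rw [k1, k2, k3]; simp

end

end Pool.Agent.NorK
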