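import Pool.Agent.NorK.Free

set_option autoImplicit false

/-!
# MP_615643_co: cells with four sets of labels

A label is a pair consisting of an element of one of two sets and a side.  The four parts of a
set `C` of labels are `pA C s` and `pB C s` for the two sides `s`.  The involution exchanges
the sides.
-/

namespace Pool.Agent.NorK

open Finset

variable {N M : ℕ}

/-- labels -/
abbrev Lb (N M : ℕ) := (Fin N ⊕ Fin M) × Bool

/-- the labels of the first kind on the side `s` -/
def pA (C : Finset (Lb N M)) (s : Bool) : Finset (Fin N) :=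
  univ.filter fun a => (Sum.inl a, s) ∈ C

/-- the labels of the second kind on the side `s` -/
def pB (C : Finset (Lb N M)) (s : Bool) : Finset (Fin M) :=
  univ.filter fun a => (Sum.inr a, s) ∈ C

theorem mem_pA {C : Finset (Lb N M)} {s : Bool} {a : Fin N} :
    a ∈ pA C s ↔ (Sum.inl a, s) ∈ C := by simp [pA]

theorem mem_pB {C : Finset (Lb N M)} {s : Bool} {a : Fin M} :
    a ∈ pB C s ↔ (Sum.inr a, s) ∈ C := by simp [pB]

/-- a set of labels is given by its parts -/
theorem parts_ext {C C' : Finset (Lb N M)} (hA : ∀ s, pA C s = pA C' s)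
    (hB : ∀ s, pB C s = pB C' s) : C = C' := by
  ext ⟨x, s⟩
  rcases x with a | d
  · rw [← mem_pA, ← mem_pA, hA]
  · rw [← mem_pB, ← mem_pB, hB]

theorem sum_parts {R : Type*} [AddCommMonoid R] (C : Finset (Lb N M)) (g : Lb N M → R) :
    ∑ l ∈ C, g l = ∑ s : Bool, (∑ a ∈ pA C s, g (Sum.inl a, s) +
      ∑ d ∈ pB C s, g (Sum.inr d, s)) := by
  have h1 : ∑ l ∈ C, g l = ∑ l : Lb N M, if l ∈ C then g l else 0 := by
    rw [← Finset.sum_filter]
    refine Finset.sum_congr ?_ fun _ _ => rfl
    ext l; simp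
  rw [h1, Fintype.sum_prod_type_right]
  refine Finset.sum_congr rfl fun s _ => ?_
  rw [Fintype.sum_sum_type]
  unfold pA pB
  rw [Finset.sum_filter, Finset.sum_filter]

theorem pA_compl (C : Finset (Lb N M)) (s : Bool) : pA Cᶜ s = (pA C s)ᶜ := by
  ext a; simp [mem_pA]

theorem pB_compl (C : Finset (Lb N M)) (s : Bool) : pB Cᶜ s = (pB C s)ᶜ := by
  ext a; simp [mem_pB]

theorem pA_erase (C : Finset (Lb N M)) (a : Fin N) (s s' : Bool) :
    pA (C.erase (Sum.inl a, s)) s' = if s' = s then (pA C s').erase a else pA C s' := by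
  ext b
  rw [mem_pA, mem_erase]
  split_ifs with h
  · subst h
    simp [mem_pA]
  · simp [mem_pA, h]

theorem pA_erase' (C : Finset (Lb N M)) (d : Fin M) (s s' : Bool) :
    pA (C.erase (Sum.inr d, s)) s' = pA C s' := by
  ext b
  simp [mem_pA]

theorem pB_erase (C : Finset (Lb N M)) (d : Fin M) (s s' : Bool) :
    pB (C.erase (Sum.inr d, s)) s' = if s' = s then (pB C s').erase d else pB C s' := by
  ext b
  rw [mem_pB, mem_erase]
  split_ifs with h
  · subst h
    simp [mem_pB]
  · simp [mem_pB, h]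

theorem pB_erase' (C : Finset (Lb N M)) (a : Fin N) (s s' : Bool) :
    pB (C.erase (Sum.inl a, s)) s' = pB C s' := by
  ext b
  simp [mem_pB]

theorem pA_insert (C : Finset (Lb N M)) (a : Fin N) (s s' : Bool) :
    pA (insert (Sum.inl a, s) C) s' = if s' = s then insert a (pA C s') else pA C s' := by
  ext b
  rw [mem_pA, mem_insert]
  split_ifs with h
  · subst h
    simp [mem_pA]
  · simp [mem_pA, h]

theorem pA_insert' (C : Finset (Lb N M)) (d : Fin M) (s s' : Bool) :
    pA (insert (Sum.inr d, s) C) s' = pA C s' := by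
  ext b
  simp [mem_pA]

theorem pB_insert (C : Finset (Lb N M)) (d : Fin M) (s s' : Bool) :
    pB (insert (Sum.inr d, s) C) s' = if s' = s then insert d (pB C s') else pB C s' := by
  ext b
  rw [mem_pB, mem_insert]
  split_ifs with h
  · subst h
    simp [mem_pB]
  · simp [mem_pB, h]

theorem pB_insert' (C : Finset (Lb N M)) (a : Fin N) (s s' : Bool) :
    pB (insert (Sum.inl a, s) C) s' = pB C s' := by
  ext b
  simp [mem_pB]

/-- exchange of the sides -/
def fl : Lb N M ≃ Lb N M where
  toFun l := (l.1, !l.2)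
  invFun l := (l.1, !l.2)
  left_inv l := by simp
  right_inv l := by simp

/-- exchange of the sides -/
def T (C : Finset (Lb N M)) : Finset (Lb N M) := C.map fl.toEmbedding

theorem pA_T (C : Finset (Lb N M)) (s : Bool) : pA (T C) s = pA C (!s) := by
  ext a
  rw [mem_pA, mem_pA, T, Finset.mem_map_equiv]
  rfl

theorem pB_T (C : Finset (Lb N M)) (s : Bool) : pB (T C) s = pB C (!s) := by
  ext a
  rw [mem_pB, mem_pB, T, Finset.mem_map_equiv]
  rfl

theorem T_T (C : Finset (Lb N M)) : T (T C) = C := by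
  refine parts_ext (fun s => ?_) fun s => ?_
  · rw [pA_T, pA_T, Bool.not_not]
  · rw [pB_T, pB_T, Bool.not_not]

/-- all four parts are nonempty -/
def P (C : Finset (Lb N M)) : Prop := (∀ s, (pA C s).Nonempty) ∧ ∀ s, (pB C s).Nonempty

/-- all four parts have one element -/
def Si (C : Finset (Lb N M)) : Prop := ∀ s, (pA C s).card = 1 ∧ (pB C s).card = 1

open Classical in
/-- the sum of the cells whose parts have one element -/
noncomputable def eps (C : Finset (Lb N M)) : ZMod 2 := if Si C then 1 else 0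

theorem Si_P {C : Finset (Lb N M)} (h : Si C) : P C :=
  ⟨fun s => Finset.card_pos.1 (by rw [(h s).1]; exact one_pos),
    fun s => Finset.card_pos.1 (by rw [(h s).2]; exact one_pos)⟩

theorem eps_T (C : Finset (Lb N M)) : eps (T C) = eps C := by
  unfold eps
  congr 1
  apply propext
  unfold Si
  simp only [pA_T, pB_T]
  constructor
  · intro h s
    have := h (!s)
    rwa [Bool.not_not] at this
  · intro h s
    exact h (!s)

theorem eps_P (C : Finset (Lb N M)) (h : ¬ P C) : eps C = 0 := if_neg fun h' => h (Si_P h')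

/-- the part with two elements -/
theorem Si_erase_A (C : Finset (Lb N M)) (a : Fin N) (s : Bool) (ha : a ∈ pA C s) :
    Si (C.erase (Sum.inl a, s)) ↔ (pA C s).card = 2 ∧ (pA C (!s)).card = 1 ∧
      ∀ t, (pB C t).card = 1 := by
  have h0 := Finset.card_pos.2 ⟨a, ha⟩
  unfold Si
  simp only [pA_erase, pB_erase']
  constructor
  · intro h
    have h1 := (h s).1
    have h3 := (h (!s)).1
    rw [if_pos rfl, Finset.card_erase_of_mem ha] at h1
    rw [if_neg (by simp)] at h3
    exact ⟨by omega, h3, fun t => (h t).2⟩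
  · rintro ⟨h1, h3, h4⟩ t
    refine ⟨?_, h4 t⟩
    split_ifs with h
    · rw [h, Finset.card_erase_of_mem ha]; omega
    · have h5 : t = !s := by
        revert h; cases t <;> cases s <;> simp
      rw [h5, h3]

theorem Si_erase_B (C : Finset (Lb N M)) (d : Fin M) (s : Bool) (hd : d ∈ pB C s) :
    Si (C.erase (Sum.inr d, s)) ↔ (pB C s).card = 2 ∧ (pB C (!s)).card = 1 ∧
      ∀ t, (pA C t).card = 1 := by
  have h0 := Finset.card_pos.2 ⟨d, hd⟩
  unfold Si
  simp only [pB_erase, pA_erase']
  constructor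
  · intro h
    have h1 := (h s).2
    have h3 := (h (!s)).2
    rw [if_pos rfl, Finset.card_erase_of_mem hd] at h1
    rw [if_neg (by simp)] at h3
    exact ⟨by omega, h3, fun t => (h t).1⟩
  · rintro ⟨h1, h3, h4⟩ t
    refine ⟨h4 t, ?_⟩
    split_ifs with h
    · rw [h, Finset.card_erase_of_mem hd]; omega
    · have h5 : t = !s := by
        revert h; cases t <;> cases s <;> simp
      rw [h5, h3]

theorem eps_dl (C : Finset (Lb N M)) : dl eps C = 0 := by
  classical
  have h3 : (2 : ℕ) • (1 : ZMod 2) = 0 := by decide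
  unfold dl
  rw [sum_parts]
  refine Finset.sum_eq_zero fun s _ => ?_
  have h1 : ∀ a ∈ pA C s, eps (C.erase (Sum.inl a, s)) =
      if (pA C s).card = 2 ∧ (pA C (!s)).card = 1 ∧ ∀ t, (pB C t).card = 1 then 1 else 0 := by
    intro a ha
    unfold eps
    congr 1
    exact propext (Si_erase_A C a s ha)
  have h2 : ∀ d ∈ pB C s, eps (C.erase (Sum.inr d, s)) =
      if (pB C s).card = 2 ∧ (pB C (!s)).card = 1 ∧ ∀ t, (pA C t).card = 1 then 1 else 0 := by
    intro a ha
    unfold eps
    congr 1
    exact propext (Si_erase_B C a s ha)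
  rw [Finset.sum_congr rfl h1, Finset.sum_congr rfl h2, Finset.sum_const, Finset.sum_const]
  have h4 : (pA C s).card • (if (pA C s).card = 2 ∧ (pA C (!s)).card = 1 ∧
      ∀ t, (pB C t).card = 1 then (1 : ZMod 2) else 0) = 0 := by
    split_ifs with h
    · rw [h.1, h3]
    · exact smul_zero _
  have h5 : (pB C s).card • (if (pB C s).card = 2 ∧ (pB C (!s)).card = 1 ∧
      ∀ t, (pA C t).card = 1 then (1 : ZMod 2) else 0) = 0 := by
    split_ifs with h
    · rw [h.1, h3]
    · exact smul_zero _
  rw [h4, h5, add_zero]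

theorem dl_T (θ : Finset (Lb N M) → ZMod 2) (C : Finset (Lb N M)) :
    dl θ (T C) = dl (fun C => θ (T C)) C := by
  unfold dl
  rw [T, Finset.sum_map]
  refine Finset.sum_congr rfl fun a _ => ?_
  congr 1
  rw [T, Finset.map_erase]

theorem P_mono {C C' : Finset (Lb N M)} (h : C ⊆ C') (hC : P C) : P C' := by
  refine ⟨fun s => ?_, fun s => ?_⟩
  · obtain ⟨a, ha⟩ := hC.1 s
    exact ⟨a, mem_pA.2 (h (mem_pA.1 ha))⟩
  · obtain ⟨a, ha⟩ := hC.2 s
    exact ⟨a, mem_pB.2 (h (mem_pB.1 ha))⟩

/-- the same element occurs on both sides, for both kinds -/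
def Bad (C : Finset (Lb N M)) : Prop :=
  (∃ a, ∀ s, a ∈ pA C s) ∧ ∃ d, ∀ s, d ∈ pB C s

theorem Bad_mono {C C' : Finset (Lb N M)} (h : C ⊆ C') (hC : Bad C) : Bad C' := by
  obtain ⟨⟨a, ha⟩, d, hd⟩ := hC
  exact ⟨⟨a, fun s => mem_pA.2 (h (mem_pA.1 (ha s)))⟩, d, fun s => mem_pB.2 (h (mem_pB.1 (hd s)))⟩

theorem cx : Cx (T : Finset (Lb N M) → Finset (Lb N M)) P (fun C => P C ∧ ¬ Bad C) eps where
  hT := T_T
  hTdl := dl_T
  hε := eps_T
  hεP := eps_P
  hεd := eps_dl
  hP C hC a _ h := hC (P_mono (Finset.erase_subset _ _) h)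
  hTL C hC := by
    refine ⟨⟨fun s => ?_, fun s => ?_⟩, fun h => hC.2 ?_⟩
    · rw [pA_T]; exact hC.1.1 _
    · rw [pB_T]; exact hC.1.2 _
    · obtain ⟨⟨a, ha⟩, d, hd⟩ := h
      refine ⟨⟨a, fun s => ?_⟩, d, fun s => ?_⟩
      · have := ha (!s)
        rwa [pA_T, Bool.not_not] at this
      · have := hd (!s)
        rwa [pB_T, Bool.not_not] at this
  hLP C hC := hC.1
  hL C hC a _ h := ⟨h, fun h' => hC.2 (Bad_mono (Finset.erase_subset _ _) h')⟩
  hfree C hC h := by
    apply hC.2
    obtain ⟨a, ha⟩ := hC.1.1 false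
    obtain ⟨d, hd⟩ := hC.1.2 false
    have h1 : pA C false = pA C true := by
      conv_lhs => rw [← h]
      rw [pA_T]; rfl
    have h2 : pB C false = pB C true := by
      conv_lhs => rw [← h]
      rw [pB_T]; rfl
    refine ⟨⟨a, fun s => ?_⟩, d, fun s => ?_⟩
    · cases s
      · exact ha
      · rw [← h1]; exact ha
    · cases s
      · exact hd
      · rw [← h2]; exact hd

open Classical in
/-- the set of labels with given parts -/
noncomputable def mk (A : Bool → Finset (Fin N)) (B : Bool → Finset (Fin M)) :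
    Finset (Lb N M) :=
  univ.filter fun l => Sum.elim (fun a => a ∈ A l.2) (fun d => d ∈ B l.2) l.1

theorem pA_mk (A : Bool → Finset (Fin N)) (B : Bool → Finset (Fin M)) (s : Bool) :
    pA (mk A B) s = A s := by
  ext a
  simp [mem_pA, mk]

theorem pB_mk (A : Bool → Finset (Fin N)) (B : Bool → Finset (Fin M)) (s : Bool) :
    pB (mk A B) s = B s := by
  ext a
  simp [mem_pB, mk]

theorem sum_Si {R : Type*} [Ring R] [Algebra (ZMod 2) R] (w : Finset (Lb N M) → R) :
    ∑ C, eps C • w C = ∑ p : (Bool → Fin N) × (Bool → Fin M),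
      w (mk (fun s => {p.1 s}) fun s => {p.2 s}) := by
  classical
  have h1 : ∑ C, eps C • w C = ∑ C ∈ univ.filter (fun C : Finset (Lb N M) => Si C), w C := by
    rw [Finset.sum_filter]
    refine Finset.sum_congr rfl fun C _ => ?_
    unfold eps
    split_ifs <;> simp
  rw [h1]
  symm
  refine Finset.sum_nbij (fun p => mk (fun s => {p.1 s}) fun s => {p.2 s}) ?_ ?_ ?_ ?_
  · intro p _
    simp only [mem_filter, mem_univ, true_and]
    intro s
    rw [pA_mk, pB_mk]
    simp
  · intro p _ q _ h
    simp only at h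
    have h3 : ∀ s, p.1 s = q.1 s := by
      intro s
      have := congrArg (fun C => pA C s) h
      simpa only [pA_mk, Finset.singleton_inj] using this
    have h4 : ∀ s, p.2 s = q.2 s := by
      intro s
      have := congrArg (fun C => pB C s) h
      simpa only [pB_mk, Finset.singleton_inj] using this
    exact Prod.ext (funext h3) (funext h4)
  · intro C hC
    have hC' : Si C := by simpa using hC
    choose a ha using fun s => Finset.card_eq_one.1 (hC' s).1
    choose d hd using fun s => Finset.card_eq_one.1 (hC' s).2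
    refine ⟨(a, d), by simp, parts_ext (fun s => ?_) fun s => ?_⟩
    · rw [pA_mk, ha]
    · rw [pB_mk, hd]
  · intro p _
    rfl

end Pool.Agent.NorK
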