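import Pool.Agent.NorK.Deg

set_option autoImplicit false

/-!
# MP_615643_co: critical pairs and the components of the two colours

The critical pairs of `Pool.Agent.NorK.Main` have a vertex `p` whose components meet both
subcubes.  Here we add what is known about the components of `p`: each of the two meets at least
five components of the other colour, and they are among three components of each colour which meet
each other.
-/

namespace Pool.Agent.NorK

open Finset Pool.Agent.AntiPath Pool.Agent.TwoCh Pool.Agent.Nor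

variable {n N M : ℕ}

/-- the subcubes at `z` and at its antipode with the sets `X` and `Y` of directions are
critical for the vertex `p` -/
def CritP {A B : Type*} (r : V n → A) (b : V n → B) (e : V n) (π : Equiv.Perm (Fin n)) (z : V n)
    (X Y : Finset (Fin n)) (p : V n) : Prop :=
  PosL e π z X Y ∧ 6 ≤ X.card + Y.card ∧ DirL r b z X ∧ DirL r b (an z) Y ∧
    (LinkL r b p z X (an z) Y ∨ LinkL r b p (an z) Y z X) ∧
      (LinkL b r p z X (an z) Y ∨ LinkL b r p (an z) Y z X) ∧ DegL r b p ∧ DegL b r p ∧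
        KL r b p

section

variable {r : V n → Fin N} {b : V n → Fin M}

theorem con_swap (hcon : ∀ x y, r x = r y → b y ≠ b (an x)) :
    ∀ x y, b x = b y → r y ≠ r (an x) := by
  intro x y h1 h2
  refine hcon (an x) y h2.symm ?_
  rw [an_an]
  exact h1.symm

/-- the labelling theorem for the vertex `bot` and the natural order -/
theorem bot_comp (h : Edg r b)
    (hK : ∀ z X Y p, ¬ CritP r b bot (Equiv.refl _) z X Y p) :
    ∃ x y, r x = r y ∧ b y = b (an x) := by
  by_contra hcon
  push Not at hcon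
  have Q := quad h.upd hcon
  refine label_core h.upd hcon fun k C c d hc hd => Phi_zero_alt k _ fun F hA => ?_
  by_contra huw
  have hn : wd (dd n) (ed r) (ed fun x => r (an x)) (ed b) (ed fun x => b (an x)) C ≠ 0 := by
    intro h0
    rw [h0] at huw
    exact huw rfl
  obtain ⟨h1, h2, h3, h4, h5⟩ := bad_sizes Q C c d hc hd hn
  have hdeg := Dg_mul (Dg_mul (Dg_om r (pA C false)) (Dg_om b (pB C false)))
    (Dg_mul (Dg_om (fun x => b (an x)) (pB C true)) (Dg_om (fun x => r (an x)) (pA C true)))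
    (lo F) (hi F) huw
  unfold wd at huw
  rw [Matrix.mul_apply] at huw
  obtain ⟨z, -, hz⟩ := Finset.exists_ne_zero_of_sum_ne_zero huw
  have g1 : WW r b (pA C false) (pB C false) (lo F) z ≠ 0 := left_ne_zero_of_mul hz
  have g2 : WW (fun x => r (an x)) (fun x => b (an x)) (pA C true) (pB C true) z (hi F) ≠ 0 := by
    rw [WW_comm h.an]
    exact right_ne_zero_of_mul hz
  have luz : Le (lo F) z := WW_inc _ _ _ z g1
  have lzw : Le z (hi F) := WW_inc _ _ z _ g2
  have h3' : 3 ≤ (pA C false).card ∨ 3 ≤ (pA C true).card := by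
    obtain ⟨s, h3⟩ := h3
    cases s
    · exact Or.inl h3
    · exact Or.inr h3
  have h4' : 3 ≤ (pB C false).card ∨ 3 ≤ (pB C true).card := by
    obtain ⟨t, h4⟩ := h4
    cases t
    · exact Or.inl h4
    · exact Or.inr h4
  obtain ⟨p, hp, hp'⟩ := h5 false c (hc _) d (hd _)
  have w1 : om (dd n) (ed b) (pB C false) * (om (dd n) (ed r) (pA C false) *
      om (dd n) (ed fun x => r (an x)) (pA C true)) *
        om (dd n) (ed fun x => b (an x)) (pB C true) ≠ 0 := by
    intro h0
    apply hn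
    unfold wd
    rw [Nor.om_comm Q.S, ← Nor.om_comm Q.S']
    simpa only [mul_assoc] using h0
  have w2 : om (dd n) (ed r) (pA C false) * (om (dd n) (ed b) (pB C false) *
      om (dd n) (ed fun x => b (an x)) (pB C true)) *
        om (dd n) (ed fun x => r (an x)) (pA C true) ≠ 0 := by
    intro h0
    apply hn
    unfold wd
    simpa only [mul_assoc] using h0
  have d1 : DegL r b p := by
    apply DegL_of
    rw [hp']
    exact five_of h.upd hcon (hc false) (hc true) (hd false) (hd true)
      (fun a ha => h5 false a ha d (hd _)) (fun a ha => h5 true a ha d (hd _)) w1 h3'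
  have d2 : DegL b r p := by
    apply DegL_of
    rw [hp]
    refine five_of h.swap.upd (con_swap hcon) (hd false) (hd true) (hc false) (hc true)
      (fun a ha => ?_) (fun a ha => ?_) w2 h4'
    · obtain ⟨x, hx, hx'⟩ := h5 false c (hc _) a ha
      exact ⟨x, hx', hx⟩
    · obtain ⟨x, hx, hx'⟩ := h5 true c (hc _) a ha
      exact ⟨x, hx', hx⟩
  have d3 : KL r b p := by
    rcases h4' with h6 | h6
    · exact KL_of h.upd hcon (hp ▸ hc _) (hp ▸ hc _) (hp' ▸ hd _) (h5 false) (word_swap w1) h6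
    · exact KL_of h.upd hcon (hp ▸ hc _) (hp ▸ hc _) (hp' ▸ hd _) (h5 true) w1 h6
  refine hK z (sp z \ sp (lo F)) (sp (hi F) \ sp z) p ⟨pos_of hA luz lzw, ?_, ?_, ?_, ?_, ?_,
    d1, d2, d3⟩
  · have e1 : sp (lo F) ⊆ sp z := by
      intro l hl
      rw [mem_sp] at hl ⊢
      exact luz l hl
    have e2 : sp z ⊆ sp (hi F) := by
      intro l hl
      rw [mem_sp] at hl ⊢
      exact lzw l hl
    rw [Finset.card_sdiff_of_subset e1, Finset.card_sdiff_of_subset e2]
    have e3 := Finset.card_le_card e1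
    have e4 := Finset.card_le_card e2
    have a1 := h1 false
    have a2 := h1 true
    have a3 := h2 false
    have a4 := h2 true
    have e5 : cnt (hi F) = (sp (hi F)).card := rfl
    have e6 : cnt (lo F) = (sp (lo F)).card := rfl
    omega
  · intro m hm
    rw [mem_sdiff, mem_sp, mem_sp] at hm
    obtain ⟨x', k, hF, hI⟩ := side_dir h _ _ _ z g1 (h1 _) (h2 _) m (not_true' hm.2) hm.1
    exact ⟨x', k, hF, sub_of_In hI⟩
  · intro m hm
    rw [mem_sdiff, mem_sp, mem_sp] at hm
    obtain ⟨x', k, hF, hI⟩ := side_dir h.an _ _ z _ g2 (h1 _) (h2 _) m (not_true' hm.2) hm.1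
    exact ⟨an x', k, hF.imp FaceL.an FaceL.an, sub_of_In' lzw hI⟩
  · exact ob_of h _ _ _ _ _ z _ lzw g1 g2 c (hc _) (hc _) d (hd _) (hd _) (h1 _) (h1 _) (h2 _)
      (h2 _) h3' p hp hp'
  · rw [WW_comm h] at g1
    rw [WW_comm h.an] at g2
    exact ob_of h.swap _ _ _ _ _ z _ lzw g1 g2 d (hd _) (hd _) c (hc _) (hc _) (h2 _) (h2 _)
      (h1 _) (h1 _) h4' p hp' hp

/-- The labelling theorem with the conditions on the labels of `p`. -/
theorem label_comp (h : Edg r b)
    (hK : ∃ e π, ∀ z X Y p, ¬ CritP r b e π z X Y p) :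
    ∃ x y, r x = r y ∧ b y = b (an x) := by
  obtain ⟨e, π, hK⟩ := hK
  obtain ⟨x, y, hx, hy⟩ := bot_comp (r := fun x => r (ph e π x)) (b := fun x => b (ph e π x))
    (fun x i => by
      simp only [ph_flip]
      exact h _ _)
    fun z X Y p hZ => by
      obtain ⟨h1, h2, h3, h4, h5, h6, h7, h8, h9⟩ := hZ
      refine hK (ph e π z) (mp π X) (mp π Y) (ph e π p) ⟨h1.ph, ?_, h3.ph, ?_, ?_, ?_, h7.ph,
        h8.ph, h9.ph⟩
      · rw [card_mp, card_mp]; exact h2
      · rw [← ph_an]; exact h4.ph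
      · rw [← ph_an]; exact h5.imp LinkL.ph LinkL.ph
      · rw [← ph_an]; exact h6.imp LinkL.ph LinkL.ph
  refine ⟨ph e π x, ph e π y, hx, ?_⟩
  rw [← ph_an]
  exact hy

end

variable (c : (Fin n → Bool) → (Fin n → Bool) → Bool)

/-- the component of `x` for the colour `a` and the component of `y` for the other colour have a
common vertex -/
def Meet (a : Bool) (x y : Fin n → Bool) : Prop := ∃ z, Joined c a x z ∧ Joined c (!a) z y

/-- the component of `v` for the colour other than `a` meets at least five components of the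
colour `a` -/
def Five (a : Bool) (v : Fin n → Bool) : Prop :=
  ∃ u : Fin 5 → (Fin n → Bool), (∀ i j, i ≠ j → ¬ Joined c a (u i) (u j)) ∧
    ∀ i, Joined c (!a) (u i) v

/-- there are three components of each colour, among them those of `v`, so that each of the three
components of one colour meets each of the three components of the other colour -/
def Nine (v : Fin n → Bool) : Prop :=
  ∃ u w : Fin 3 → (Fin n → Bool), Joined c true (u 0) v ∧ Joined c false (w 0) v ∧
    (∀ i j, i ≠ j → ¬ Joined c true (u i) (u j)) ∧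
    (∀ i j, i ≠ j → ¬ Joined c false (w i) (w j)) ∧ ∀ i j, Meet c true (u i) (w j)

/-- For both colours `a` the component of `v` for the other colour meets at least five components
of the colour `a`, but not that of the antipode of `v`.  There are three components of each
colour, among them those of `v`, so that each of the three components of one colour meets each of
the three components of the other colour. -/
def Branch (v : Fin n → Bool) : Prop :=
  (∀ a, Five c a v ∧ ¬ Meet c a (antipode v) v) ∧ Nine c v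

theorem meet_iff (hc : ∀ u v, c u v = c v u) (a : Bool) (x y : V n) :
    Meet c a x y ↔ ∃ z, lab c hc a z = lab c hc a x ∧ lab c hc (!a) z = lab c hc (!a) y := by
  unfold Meet
  simp only [joined_iff c hc]
  exact exists_congr fun z => and_congr eq_comm Iff.rfl

theorem five_iff (hc : ∀ u v, c u v = c v u) (a : Bool) (v : V n) :
    Five c a v ↔ DegL (lab c hc a) (lab c hc (!a)) v := by
  unfold Five DegL
  simp only [joined_iff c hc, ne_eq]

theorem nine_iff (hc : ∀ u v, c u v = c v u) (v : V n) :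
    Nine c v ↔ KL (lab c hc true) (lab c hc false) v := by
  unfold Nine KL
  simp only [meet_iff c hc, joined_iff c hc]
  exact Iff.rfl

/-- a critical pair with the conditions on the components -/
def CriticalB (e : Fin n → Bool) (π : Equiv.Perm (Fin n)) (z : Fin n → Bool)
    (X Y : Finset (Fin n)) : Prop :=
  Position e π z X Y ∧ 6 ≤ X.card + Y.card ∧ Dirs c z X ∧ Dirs c (antipode z) Y ∧
    ∃ p, (∀ a, Five c a p) ∧ Nine c p ∧
      ∀ a, Link c a p z X (antipode z) Y ∨ Link c a p (antipode z) Y z X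

theorem ends (hc : ∀ u v, c u v = c v u)
    (h : ∃ x y, lab c hc true x = lab c hc true y ∧
      lab c hc false y = lab c hc false (antipode x)) : OneChange c := by
  obtain ⟨x, y, hx, hy⟩ := h
  intro b
  have hb : ∃ x y, lab c hc b x = lab c hc b y ∧ lab c hc (!b) y = lab c hc (!b) (antipode x) := by
    cases b
    · refine ⟨antipode x, y, hy.symm, ?_⟩
      have hxx : antipode (antipode x) = x := by
        funext i; simp [antipode]
      rw [hxx]
      exact hx.symm
    · exact ⟨x, y, hx, hy⟩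
  obtain ⟨x, y, hx, hy⟩ := hb
  obtain ⟨w1⟩ := (lab_eq c hc b).1 hx
  obtain ⟨w2⟩ := (lab_eq c hc (!b)).1 hy
  obtain ⟨w1', k1, h1⟩ := mono_walk c hc w1
  obtain ⟨w2', k2, h2⟩ := mono_walk c hc w2
  obtain ⟨k, p, j, hp, hk, hj, -, hcol⟩ := path_two c (w1'.append w2') b (!b) k1 k2 (by
    rw [colors_append, h1, h2])
  exact ⟨k, p, j, hp, hk, changes_two c hcol, hj, hcol⟩

/-- the general criterion with the conditions on components -/
theorem main_comp (hc : ∀ u v, c u v = c v u)
    (h : ∃ e π, ∀ z X Y, ¬ CriticalB c e π z X Y) : OneChange c := by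
  obtain ⟨e, π, h⟩ := h
  refine ends c hc (label_comp (r := lab c hc true) (b := lab c hc false) (edg c hc true)
    ⟨e, π, fun z X Y p hZ => ?_⟩)
  obtain ⟨h0, h1, h2, h3, h4, h5, h6, h7, h8⟩ := hZ
  refine h z X Y ⟨h0, h1, dirs_of c hc _ _ h2, dirs_of c hc _ _ h3, p, fun a => ?_,
    (nine_iff c hc p).2 h8, fun a => ?_⟩
  · rw [five_iff c hc]
    cases a
    · exact h7
    · exact h6
  · rw [link_iff c hc, link_iff c hc]
    cases a
    · exact h5
    · exact h4

/-- in a critical triple for a suitable vertex and a suitable order, `z` agrees with `v` outside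
the set `D` of directions, and `X` and `Y` are subsets of `D` -/
theorem parallelB (D : Finset (Fin n)) (hD : ∀ a x i k, Face c a x i k → i ∈ D) (v : V n) :
    ∃ e π, (∀ t ∈ D, e t = v t) ∧ ∀ z X Y, CriticalB c e π z X Y → X ⊆ D ∧ Y ⊆ D ∧
      ∀ t, t ∉ D → z t = v t := by
  obtain ⟨π, hπ⟩ := exists_order D
  refine ⟨fun l => if l ∈ D then v l else xor (v l) (decide (Odd (π l : ℕ))), π,
    fun t ht => by simp [ht], fun z X Y hZ => ?_⟩
  obtain ⟨⟨-, -, -, h1⟩, -, h2, h3, -⟩ := hZ
  have hX : X ⊆ D := by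
    intro i hi
    obtain ⟨a, x, k, h4, -⟩ := h2 i hi
    exact hD _ _ _ _ h4
  have hY : Y ⊆ D := by
    intro i hi
    obtain ⟨a, x, k, h4, -⟩ := h3 i hi
    exact hD _ _ _ _ h4
  refine ⟨hX, hY, fun t ht => ?_⟩
  have h4 := h1 t (fun h => ht (hX h)) (fun h => ht (hY h))
  have h5 : (Finset.univ.filter fun l' => π l' < π t ∧ l' ∉ X ∧ l' ∉ Y).card = (π t : ℕ) := by
    have h6 : (Finset.univ.filter fun l' => π l' < π t ∧ l' ∉ X ∧ l' ∉ Y) =
        (Finset.Iio (π t)).map π.symm.toEmbedding := by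
      ext m
      rw [Finset.mem_map_equiv, Equiv.symm_symm, Finset.mem_Iio, Finset.mem_filter]
      constructor
      · exact fun h => h.2.1
      · exact fun h => ⟨mem_univ _, h, fun h' => hπ t m ht h (hX h'), fun h' => hπ t m ht h (hY h')⟩
    rw [h6, Finset.card_map, Fin.card_Iio]
  rw [h5] at h4
  simp only [if_neg ht] at h4
  by_cases h6 : Odd (π t : ℕ)
  · rw [decide_eq_true h6] at h4
    have h7 := h4.2 h6
    revert h7
    cases z t <;> cases v t <;> simp
  · rw [decide_eq_false h6] at h4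
    have h7 : ¬ (z t ≠ xor (v t) false) := fun h8 => h6 (h4.1 h8)
    revert h7
    cases z t <;> cases v t <;> simp

/-- both subcubes of a critical pair contain proper alternating faces -/
theorem critical_face {e : V n} {π : Equiv.Perm (Fin n)} {z : V n} {X Y : Finset (Fin n)}
    (h : CriticalB c e π z X Y) :
    (∃ a x i k, Face c a x i k ∧ Inside z X x {i, k}) ∧
      ∃ a x i k, Face c a x i k ∧ Inside (antipode z) Y x {i, k} := by
  obtain ⟨-, -, -, -, p, -, -, h1⟩ := h
  have key : ∀ z X z' Y, Link c true p z X z' Y →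
      (∃ a x i k, Face c a x i k ∧ Inside z X x {i, k}) ∧
      ∃ a x i k, Face c a x i k ∧ Inside z' Y x {i, k} := by
    rintro z X z' Y ⟨⟨x, i, j, k, ⟨-, -, -, h2, -⟩, h3, -⟩, y, l, m, h4, h5, -⟩
    refine ⟨⟨true, x, i, k, h2, fun l hl => ?_⟩, true, y, l, m, h4, h5⟩
    obtain ⟨h6, h7⟩ := h3 l hl
    refine ⟨fun h8 => h6 ?_, h7⟩
    simp only [mem_insert, mem_singleton] at h8 ⊢
    tauto
  rcases h1 true with h1 | h1
  · exact key _ _ _ _ h1
  · exact (key _ _ _ _ h1).symm

/-- both subcubes of a linked pair have vertices in the components of `p` -/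
theorem link_meets {a : Bool} {p z z' : V n} {Z Z' : Finset (Fin n)}
    (h : Link c a p z Z z' Z') :
    (∃ v, (∀ l, l ∉ Z → v l = z l) ∧ ∀ a, Joined c a v p) ∧
      ∃ v, (∀ l, l ∉ Z' → v l = z' l) ∧ ∀ a, Joined c a v p := by
  obtain ⟨⟨x, i, j, k, -, h1, v, h2, h3⟩, y, l, m, -, h4, v', h5, h6⟩ := h
  refine ⟨⟨v, fun t ht => ?_, h3⟩, v', fun t ht => ?_, h6⟩
  · rw [h2 t (h1 t ht).1, (h1 t ht).2]
  · rw [h5 t (h4 t ht).1, (h4 t ht).2]

theorem Joined.refl' (a : Bool) (x : V n) : Joined c a x x :=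
  ⟨0, fun _ => x, rfl, rfl, fun t ht => absurd ht (by omega)⟩

theorem Joined.symm' (hc : ∀ u v, c u v = c v u) {a : Bool} {x y : V n} (h : Joined c a x y) :
    Joined c a y x := by
  rw [joined_iff c hc] at h ⊢
  exact h.symm

theorem Joined.trans' (hc : ∀ u v, c u v = c v u) {a : Bool} {x y z : V n}
    (h : Joined c a x y) (h' : Joined c a y z) : Joined c a x z := by
  rw [joined_iff c hc] at h h' ⊢
  exact h.trans h'

theorem Five.move (hc : ∀ u v, c u v = c v u) {a : Bool} {p v : V n} (h : Five c a p)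
    (hv : ∀ a, Joined c a v p) : Five c a v := by
  rw [five_iff c hc] at h ⊢
  unfold DegL at h ⊢
  rw [(joined_iff c hc _ _ _).1 (hv (!a))]
  exact h

theorem Nine.move (hc : ∀ u v, c u v = c v u) {p v : V n} (h : Nine c p)
    (hv : ∀ a, Joined c a v p) : Nine c v := by
  rw [nine_iff c hc] at h ⊢
  unfold KL at h ⊢
  rw [(joined_iff c hc _ _ _).1 (hv true), (joined_iff c hc _ _ _).1 (hv false)]
  exact h

/-- **The criterion.**  `D` contains all directions of proper alternating faces, and `e'` agrees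
with `e` exactly in the directions in `D`.  For every subset `Z` of `D` one of five conditions
holds for the subcube at `e` with the set `Z` of directions and the subcube at `e'` with the set
`D \ Z` of directions. -/
theorem critB (hc : ∀ u v, c u v = c v u) (D : Finset (Fin n))
    (hD : ∀ a x i k, Face c a x i k → i ∈ D) (e e' : V n) (he : ∀ l, e' l = e l ↔ l ∈ D)
    (h : ∀ Z : Finset (Fin n), Z ⊆ D →
      (∀ a x i k, Face c a x i k → ¬ Inside e Z x {i, k}) ∨
      (∀ a x i k, Face c a x i k → ¬ Inside e' (D \ Z) x {i, k}) ∨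
      (∃ S : Finset (Fin n), S.card ≤ 5 ∧ ∀ a x i k, Face c a x i k →
        Inside e Z x {i, k} ∨ Inside e' (D \ Z) x {i, k} → i ∈ S) ∨
      (∃ a, ∀ x i j k, Three c a x i j k →
        ¬ Inside e Z x {i, j, k} ∧ ¬ Inside e' (D \ Z) x {i, j, k}) ∨
      ∀ v v', (∀ l, l ∉ Z → v l = e l) → (∀ l, l ∉ D \ Z → v' l = e' l) →
        (∀ a, Joined c a v v') → ¬ ((∀ a, Five c a v) ∧ Nine c v)) :
    OneChange c := by
  obtain ⟨e0, π, he0, hp⟩ := parallelB c D hD e
  refine main_comp c hc ⟨e0, π, fun z X Y hZ => ?_⟩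
  obtain ⟨hX, hY, hz⟩ := hp z X Y hZ
  have hA := critical_face c hZ
  obtain ⟨⟨hXY, q1, q2, -⟩, h1, h2, h3, p, hpB, hpN, h4⟩ := hZ
  have j1 : ∀ x : V n, (∀ l, l ∉ X → x l = z l) →
      ∀ l, l ∉ D.filter (fun l => z l ≠ e l) → x l = e l := by
    intro x hx l hl
    have h5 : l ∉ X := fun h5 => hl (mem_filter.2 ⟨hX h5, by
      rw [← he0 l (hX h5)]; exact q1 l h5⟩)
    refine (hx l h5).trans ?_
    by_cases h8 : l ∈ D
    · by_contra h9
      exact hl (mem_filter.2 ⟨h8, h9⟩)
    · exact hz l h8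
  have j2 : ∀ x : V n, (∀ l, l ∉ Y → x l = antipode z l) →
      ∀ l, l ∉ D \ D.filter (fun l => z l ≠ e l) → x l = e' l := by
    intro x hx l hl
    have h5 : l ∉ Y := fun h5 => hl (mem_sdiff.2 ⟨hY h5, fun h6 => (mem_filter.1 h6).2 (by
      rw [← he0 l (hY h5)]; exact q2 l h5)⟩)
    refine (hx l h5).trans ?_
    by_cases h8 : l ∈ D
    · have h9 : z l ≠ e l := by
        by_contra h9
        exact hl (mem_sdiff.2 ⟨h8, fun h10 => (mem_filter.1 h10).2 h9⟩)
      rw [(he l).2 h8]
      unfold antipode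
      revert h9
      cases z l <;> cases e l <;> simp
    · have h9 : e' l ≠ e l := fun h9 => h8 ((he l).1 h9)
      unfold antipode
      rw [hz l h8]
      revert h9
      cases e' l <;> cases e l <;> simp
  have k1 : ∀ I : Finset (Fin n), ∀ l, l ∉ D.filter (fun l => z l ≠ e l) → l ∉ X := by
    intro _ l hl h5
    exact hl (mem_filter.2 ⟨hX h5, by rw [← he0 l (hX h5)]; exact q1 l h5⟩)
  have k2 : ∀ I : Finset (Fin n), ∀ l, l ∉ D \ D.filter (fun l => z l ≠ e l) → l ∉ Y := by
    intro _ l hl h5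
    exact hl (mem_sdiff.2 ⟨hY h5, fun h6 => (mem_filter.1 h6).2 (by
      rw [← he0 l (hY h5)]; exact q2 l h5)⟩)
  have i1 : ∀ x I, Inside z X x I → Inside e (D.filter fun l => z l ≠ e l) x I :=
    fun x I hI l hl => ⟨(hI l (k1 I l hl)).1, j1 x (fun l hl => (hI l hl).2) l hl⟩
  have i2 : ∀ x I, Inside (antipode z) Y x I →
      Inside e' (D \ D.filter fun l => z l ≠ e l) x I :=
    fun x I hI l hl => ⟨(hI l (k2 I l hl)).1, j2 x (fun l hl => (hI l hl).2) l hl⟩
  rcases h (D.filter fun l => z l ≠ e l) (Finset.filter_subset _ _) with h5 | h5 | h5 | h5 | h5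
  · obtain ⟨⟨a, x, i, k, h6, h7⟩, -⟩ := hA
    exact h5 a x i k h6 (i1 _ _ h7)
  · obtain ⟨-, a, x, i, k, h6, h7⟩ := hA
    exact h5 a x i k h6 (i2 _ _ h7)
  · obtain ⟨S, hS, h5⟩ := h5
    have hXS : X ⊆ S := by
      intro i hi
      obtain ⟨a, x, k, h6, h7⟩ := h2 i hi
      exact h5 a x i k h6 (Or.inl (i1 _ _ h7))
    have hYS : Y ⊆ S := by
      intro i hi
      obtain ⟨a, x, k, h6, h7⟩ := h3 i hi
      exact h5 a x i k h6 (Or.inr (i2 _ _ h7))
    have h6 := Finset.card_le_card (Finset.union_subset hXS hYS)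
    rw [Finset.card_union_of_disjoint hXY] at h6
    omega
  · obtain ⟨a, h5⟩ := h5
    rcases h4 a with h4 | h4
    · obtain ⟨⟨x, i, j, k, h6, h9, -⟩, -⟩ := h4
      exact (h5 x i j k h6).1 (i1 _ _ h9)
    · obtain ⟨⟨x, i, j, k, h6, h9, -⟩, -⟩ := h4
      exact (h5 x i j k h6).2 (i2 _ _ h9)
  · have h6 : (∃ v, (∀ l, l ∉ X → v l = z l) ∧ ∀ a, Joined c a v p) ∧
        ∃ v, (∀ l, l ∉ Y → v l = antipode z l) ∧ ∀ a, Joined c a v p := by
      rcases h4 true with h4 | h4
      · exact link_meets c h4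
      · exact (link_meets c h4).symm
    obtain ⟨⟨v, hv, hv'⟩, v', hw, hw'⟩ := h6
    exact h5 v v' (j1 v hv) (j2 v' hw) (fun a => (hv' a).trans' c hc ((hw' a).symm' c hc))
      ⟨fun a => (hpB a).move c hc hv', hpN.move c hc hv'⟩

theorem meet_ends (hc : ∀ u v, c u v = c v u) (a : Bool) (v : V n)
    (h : Meet c a (antipode v) v) : OneChange c := by
  obtain ⟨w, h1, h2⟩ := h
  rw [joined_iff c hc] at h1 h2
  have hvv : antipode (antipode v) = v := by
    funext i; simp [antipode]
  cases a
  · exact ends c hc ⟨v, w, h2.symm, h1.symm⟩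
  · exact ends c hc ⟨antipode v, w, h1, by rw [hvv]; exact h2⟩

/-- the criterion, with `Branch` -/
theorem critC (hc : ∀ u v, c u v = c v u) (D : Finset (Fin n))
    (hD : ∀ a x i k, Face c a x i k → i ∈ D) (e e' : V n) (he : ∀ l, e' l = e l ↔ l ∈ D)
    (h : ∀ Z : Finset (Fin n), Z ⊆ D →
      (∀ a x i k, Face c a x i k → ¬ Inside e Z x {i, k}) ∨
      (∀ a x i k, Face c a x i k → ¬ Inside e' (D \ Z) x {i, k}) ∨
      (∃ S : Finset (Fin n), S.card ≤ 5 ∧ ∀ a x i k, Face c a x i k →
        Inside e Z x {i, k} ∨ Inside e' (D \ Z) x {i, k} → i ∈ S) ∨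
      (∃ a, ∀ x i j k, Three c a x i j k →
        ¬ Inside e Z x {i, j, k} ∧ ¬ Inside e' (D \ Z) x {i, j, k}) ∨
      ∀ v v', (∀ l, l ∉ Z → v l = e l) → (∀ l, l ∉ D \ Z → v' l = e' l) →
        (∀ a, Joined c a v v') → ¬ Branch c v) :
    OneChange c := by
  by_cases hM : ∃ a v, Meet c a (antipode v) v
  · obtain ⟨a, v, hv⟩ := hM
    exact meet_ends c hc a v hv
  · push Not at hM
    refine critB c hc D hD e e' he fun Z hZ => ?_
    rcases h Z hZ with h1 | h1 | h1 | h1 | h1
    · exact Or.inl h1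
    · exact Or.inr (Or.inl h1)
    · exact Or.inr (Or.inr (Or.inl h1))
    · exact Or.inr (Or.inr (Or.inr (Or.inl h1)))
    · exact Or.inr (Or.inr (Or.inr (Or.inr fun v v' h2 h3 h4 hB =>
        h1 v v' h2 h3 h4 ⟨fun a => ⟨hB.1 a, hM a v⟩, hB.2⟩)))

/-- no branching vertex -/
theorem comp (hc : ∀ u v, c u v = c v u) (h : ∀ v, ¬ Branch c v) : OneChange c :=
  critC c hc univ (fun _ _ i _ _ => mem_univ i) (fun _ => false) (fun _ => false)
    (fun l => by simp) fun _ _ => Or.inr (Or.inr (Or.inr (Or.inr fun v _ _ _ _ => h v)))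

/-- at most five components of one colour -/
theorem five_comp (hc : ∀ u v, c u v = c v u) (a : Bool)
    (h : ¬ ∃ u : Fin 6 → V n, ∀ i j, i ≠ j → ¬ Joined c a (u i) (u j)) : OneChange c := by
  refine comp c hc fun v hB => h ?_
  obtain ⟨⟨u, h1, h2⟩, h3⟩ := hB.1 a
  have h4 : ∀ i : Fin 5, ¬ Joined c a (antipode v) (u i) := fun i h5 => h3 ⟨u i, h5, h2 i⟩
  refine ⟨Fin.cons (antipode v) u, fun i j => ?_⟩
  refine Fin.cases ?_ (fun i => ?_) i
  · refine Fin.cases (fun h5 => absurd rfl h5) (fun j _ => ?_) j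
    simpa using h4 j
  · refine Fin.cases (fun _ h5 => ?_) (fun j h5 => ?_) j
    · simp only [Fin.cons_succ, Fin.cons_zero] at h5
      exact h4 i (Joined.symm' c hc h5)
    · simp only [Fin.cons_succ]
      exact h1 i j fun h6 => h5 (by rw [h6])

/-- components which meet at most four components of the other colour -/
theorem four_comp (hc : ∀ u v, c u v = c v u) (h : ∀ v, ∃ a, ¬ Five c a v) : OneChange c := by
  refine comp c hc fun v hB => ?_
  obtain ⟨a, ha⟩ := h v
  exact ha (hB.1 a).1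

/-- no three components of each colour which meet each other -/
theorem nine_comp (hc : ∀ u v, c u v = c v u) (h : ¬ ∃ u w : Fin 3 → V n,
      (∀ i j, i ≠ j → ¬ Joined c true (u i) (u j)) ∧
      (∀ i j, i ≠ j → ¬ Joined c false (w i) (w j)) ∧ ∀ i j, Meet c true (u i) (w j)) :
    OneChange c := by
  refine comp c hc fun v hB => h ?_
  obtain ⟨u, w, -, -, h1⟩ := hB.2
  exact ⟨u, w, h1⟩

end Pool.Agent.NorK
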