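import Pool.Agent.NorK.Main

set_option autoImplicit false

/-!
# MP_615643_co: consequences of the criterion
-/

namespace Pool.Agent.NorK

open Finset Pool.Agent.AntiPath Pool.Agent.TwoCh Pool.Agent.Nor

variable {n : ℕ} (c : (Fin n → Bool) → (Fin n → Bool) → Bool)

/-- at most five directions occur in alternating 4-cycles in two antipodal parallel subcubes -/
theorem five (hc : ∀ u v, c u v = c v u)
    (h : ∃ (D : Finset (Fin n)) (v : V n) (S : Finset (Fin n)), S.card ≤ 5 ∧
      (∀ a x i k, Alt c a x i k → i ∈ D) ∧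
      ∀ a x i k, Alt c a x i k → ((∀ t, t ∉ D → x t = v t) ∨ ∀ t, t ∉ D → x t ≠ v t) → i ∈ S) :
    OneChange c := by
  obtain ⟨D, v, S, hS, hD, h⟩ := h
  obtain ⟨e, π, -, hp⟩ := parallel c D hD v
  refine main c hc ⟨e, π, fun z X Y hZ => ?_⟩
  obtain ⟨hX, hY, hz⟩ := hp z X Y hZ
  obtain ⟨⟨hXY, -⟩, h1, h2, h3, -⟩ := hZ
  have hXS : X ⊆ S := by
    intro i hi
    obtain ⟨a, x, k, h4, h5⟩ := h2 i hi
    exact h a x i k h4.alt (Or.inl fun t ht => (h5 t fun h => ht (hX h)).2.trans (hz t ht))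
  have hYS : Y ⊆ S := by
    intro i hi
    obtain ⟨a, x, k, h4, h5⟩ := h3 i hi
    refine h a x i k h4.alt (Or.inr fun t ht => ?_)
    rw [(h5 t fun h => ht (hY h)).2, ← hz t ht]
    unfold antipode
    cases z t <;> simp
  have h6 := Finset.card_le_card (Finset.union_subset hXS hYS)
  rw [Finset.card_union_of_disjoint hXY] at h6
  omega

/-- no three-dimensional subcube of two antipodal parallel subcubes has three alternating faces -/
theorem three (hc : ∀ u v, c u v = c v u)
    (h : ∃ (D : Finset (Fin n)) (v : V n) (a : Bool), (∀ a x i k, Alt c a x i k → i ∈ D) ∧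
      ∀ x i j k, i ≠ j → ((∀ t, t ∉ D → x t = v t) ∨ ∀ t, t ∉ D → x t ≠ v t) →
        ¬ (Alt c a x i k ∧ Alt c a x j k ∧ Alt c a (AntiPath.flip x i) j k)) :
    OneChange c := by
  obtain ⟨D, v, a, hD, h⟩ := h
  obtain ⟨e, π, -, hp⟩ := parallel c D hD v
  refine main c hc ⟨e, π, fun z X Y hZ => ?_⟩
  obtain ⟨hX, hY, hz⟩ := hp z X Y hZ
  obtain ⟨-, -, -, -, p, h1⟩ := hZ
  rcases h1 a with h1 | h1
  · obtain ⟨⟨x, i, j, k, ⟨hij, -, -, h1, h2, h3, -⟩, h4, -⟩, -⟩ := h1
    exact h x i j k hij (Or.inl fun t ht => (h4 t fun h => ht (hX h)).2.trans (hz t ht))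
      ⟨h1.alt, h2.alt, h3.alt⟩
  · obtain ⟨⟨x, i, j, k, ⟨hij, -, -, h1, h2, h3, -⟩, h4, -⟩, -⟩ := h1
    refine h x i j k hij (Or.inr fun t ht => ?_) ⟨h1.alt, h2.alt, h3.alt⟩
    rw [(h4 t fun h => ht (hY h)).2, ← hz t ht]
    unfold antipode
    cases z t <;> simp

/-- the alternating 4-cycles in one of two antipodal parallel subcubes meet those in the other
one, seen from a vertex -/
theorem meet (hc : ∀ u v, c u v = c v u)
    (h : ∃ (D : Finset (Fin n)) (v : V n), (∀ a x i k, Alt c a x i k → i ∈ D) ∧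
      ∀ a x i k b y l m, Alt c a x i k → Alt c b y l m → (∀ t, t ∉ D → x t = v t) →
        (∀ t, t ∉ D → y t ≠ v t) →
        ∃ t, (x t ≠ v t ∨ t = i ∨ t = k) ∧ (y t ≠ v t ∨ t = l ∨ t = m)) :
    OneChange c := by
  obtain ⟨D, v, hD, h⟩ := h
  obtain ⟨e, π, he, hp⟩ := parallel c D hD v
  refine main c hc ⟨e, π, fun z X Y hZ => ?_⟩
  obtain ⟨hX, hY, hz⟩ := hp z X Y hZ
  obtain ⟨⟨a, x, i, k, h1, h2⟩, b, y, l, m, h3, h4⟩ := critical_alt c hZ
  obtain ⟨⟨hXY, hp2, hp3, -⟩, -⟩ := hZ
  have hx : ∀ t, t ∉ D → x t = v t := fun t ht => (h2 t fun h => ht (hX h)).2.trans (hz t ht)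
  have hy : ∀ t, t ∉ D → y t ≠ v t := by
    intro t ht
    rw [(h4 t fun h => ht (hY h)).2, ← hz t ht]
    unfold antipode
    cases z t <;> simp
  obtain ⟨t, h5, h6⟩ := h a x i k b y l m h1 h3 hx hy
  have hX' : t ∉ X → x t = z t ∧ t ≠ i ∧ t ≠ k := by
    intro ht
    obtain ⟨h7, h8⟩ := h2 t ht
    simp only [mem_insert, mem_singleton, not_or] at h7
    exact ⟨h8, h7⟩
  have hY' : t ∉ Y → y t = !(z t) ∧ t ≠ l ∧ t ≠ m := by
    intro ht
    obtain ⟨h7, h8⟩ := h4 t ht
    simp only [mem_insert, mem_singleton, not_or] at h7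
    exact ⟨h8, h7⟩
  by_cases hDt : t ∈ D
  · have het := he t hDt
    by_cases hXt : t ∈ X
    · obtain ⟨h7, h8, h9⟩ := hY' fun hYt => Finset.disjoint_left.1 hXY hXt hYt
      have h10 := hp2 t hXt
      rw [het] at h10
      rcases h6 with h6 | h6 | h6
      · rw [h7] at h6
        revert h6 h10
        cases z t <;> cases v t <;> simp
      · exact h8 h6
      · exact h9 h6
    · obtain ⟨h7, h8, h9⟩ := hX' hXt
      rcases h5 with h5 | h5 | h5
      · rw [h7] at h5
        by_cases hYt : t ∈ Y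
        · exact h5 ((hp3 t hYt).trans het)
        · obtain ⟨h10, h11, h12⟩ := hY' hYt
          rcases h6 with h6 | h6 | h6
          · rw [h10] at h6
            revert h5 h6
            cases z t <;> cases v t <;> simp
          · exact h11 h6
          · exact h12 h6
      · exact h8 h5
      · exact h9 h5
  · obtain ⟨h7, h8, h9⟩ := hX' fun h => hDt (hX h)
    rcases h5 with h5 | h5 | h5
    · exact h5 (hx t hDt)
    · exact h8 h5
    · exact h9 h5

theorem alt_ne {a : Bool} {x : V n} {i k : Fin n} (h : Alt c a x i k) : i ≠ k := by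
  rintro rfl
  have h1 := h.1
  rw [h.2.2.1] at h1
  cases a <;> simp at h1

/-- few alternating 4-cycles -/
theorem few (hc : ∀ u v, c u v = c v u)
    (h : ∃ (D : Finset (Fin n)) (T : Finset ((V n) × Fin n × Fin n)),
      (∀ a x i k, Alt c a x i k → i ∈ D) ∧ T.card < 2 ^ (n - D.card) ∧
      ∀ a x i k, Alt c a x i k → ∃ y l m, (y, l, m) ∈ T ∧
        ({i, k} : Finset (Fin n)) = {l, m} ∧ ∀ t, t ≠ i → t ≠ k → x t = y t) :
    OneChange c := by
  obtain ⟨D, T, hD, hT, h⟩ := h
  have h1 : ∃ w : {t // t ∉ D} → Bool, ∀ q ∈ T, (fun t : {t // t ∉ D} => q.1 t.1) ≠ w := by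
    by_contra hn
    push Not at hn
    have h2 : (univ : Finset ({t // t ∉ D} → Bool)) ⊆
        T.image fun q => fun t : {t // t ∉ D} => q.1 t.1 := by
      intro w _
      obtain ⟨q, hq, hw⟩ := hn w
      exact Finset.mem_image.2 ⟨q, hq, hw⟩
    have h3 := (Finset.card_le_card h2).trans Finset.card_image_le
    rw [Finset.card_univ, Fintype.card_fun, Fintype.card_bool] at h3
    have h4 : Fintype.card {t // t ∉ D} = n - D.card := by
      rw [Fintype.card_subtype_compl, Fintype.card_fin, Fintype.card_coe]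
    rw [h4] at h3
    omega
  obtain ⟨w, hw⟩ := h1
  refine meet c hc ⟨D, fun t => if h : t ∉ D then w ⟨t, h⟩ else false, hD, ?_⟩
  intro a x i k b y l m hA hB hx _
  exfalso
  obtain ⟨y', l', m', h1, h2, h3⟩ := h a x i k hA
  refine hw _ h1 ?_
  funext t
  have hi := hD a x i k hA
  have hk : k ∈ D := by
    refine hD (!a) x k i ⟨?_, ?_, ?_, ?_⟩
    · exact hA.2.2.1
    · exact hA.2.2.2
    · rw [Bool.not_not]; exact hA.1
    · rw [Bool.not_not]; exact hA.2.1
  have h4 : x t.1 = w t := (hx t.1 t.2).trans (dif_pos t.2)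
  rw [← h4]
  refine (h3 t.1 ?_ ?_).symm
  · intro h5; exact t.2 (h5 ▸ hi)
  · intro h5; exact t.2 (h5 ▸ hk)

/-- some ball of radius `n / 2` contains no alternating 4-cycle -/
theorem ball (hc : ∀ u v, c u v = c v u)
    (h : ∃ e : V n, ∀ a x i k, Alt c a x i k →
      ¬ (2 * hammingDist x e ≤ n ∧ 2 * hammingDist (AntiPath.flip x i) e ≤ n ∧
        2 * hammingDist (AntiPath.flip x k) e ≤ n ∧
        2 * hammingDist (AntiPath.flip (AntiPath.flip x i) k) e ≤ n)) :
    OneChange c := by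
  obtain ⟨e, h⟩ := h
  have key : ∀ a x i k, Alt c a x i k →
      n < 2 * (univ.filter fun t => x t ≠ e t ∨ t = i ∨ t = k).card := by
    intro a x i k hA
    have h1 : ∀ y : V n, (∀ t, t ≠ i → t ≠ k → y t = x t) →
        hammingDist y e ≤ (univ.filter fun t => x t ≠ e t ∨ t = i ∨ t = k).card := by
      intro y hy
      unfold hammingDist
      refine Finset.card_le_card fun t ht => ?_
      rw [mem_filter] at ht ⊢
      refine ⟨mem_univ _, ?_⟩
      by_cases h2 : t = i
      · exact Or.inr (Or.inl h2)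
      · by_cases h3 : t = k
        · exact Or.inr (Or.inr h3)
        · left
          rw [← hy t h2 h3]
          exact ht.2
    by_contra hn
    refine h a x i k hA ⟨?_, ?_, ?_, ?_⟩
    · have := h1 x fun _ _ _ => rfl
      omega
    · have := h1 (AntiPath.flip x i) fun t h2 _ => AntiPath.flip_ne x h2
      omega
    · have := h1 (AntiPath.flip x k) fun t _ h2 => AntiPath.flip_ne x h2
      omega
    · have := h1 (AntiPath.flip (AntiPath.flip x i) k) fun t h2 h3 => by
        rw [AntiPath.flip_ne _ h3, AntiPath.flip_ne _ h2]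
      omega
  refine meet c hc ⟨univ, e, fun _ _ i _ _ => mem_univ i, ?_⟩
  intro a x i k b y l m hA hB _ _
  by_contra hn
  push Not at hn
  have h1 := key a x i k hA
  have h2 := key b y l m hB
  have h3 : Disjoint (univ.filter fun t => x t ≠ e t ∨ t = i ∨ t = k)
      (univ.filter fun t => y t ≠ e t ∨ t = l ∨ t = m) := by
    rw [Finset.disjoint_left]
    intro t h3 h4
    have h5 := (mem_filter.1 h3).2
    have h6 := (mem_filter.1 h4).2
    obtain ⟨h7, h8, h9⟩ := hn t h5
    rcases h6 with h6 | h6 | h6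
    · exact h6 h7
    · exact h8 h6
    · exact h9 h6
  have h4 := Finset.card_le_univ ((univ.filter fun t => x t ≠ e t ∨ t = i ∨ t = k) ∪
      (univ.filter fun t => y t ≠ e t ∨ t = l ∨ t = m))
  rw [Finset.card_union_of_disjoint h3, Fintype.card_fin] at h4
  omega

end Pool.Agent.NorK
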