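import Pool.Agent.AntiPath.Defs

set_option autoImplicit false

/-!
# MP_615643_co: components, alternating faces, and paths with one change

Vertices of the cube are functions `Fin n → Bool`, and `flip x i` is the neighbour of `x` in the
direction `i`.  A colouring is a symmetric function `c` of two vertices; only its values at
adjacent vertices matter.
-/

namespace Pool.Agent.NorK

open Pool.Agent.AntiPath

variable {n : ℕ} (c : (Fin n → Bool) → (Fin n → Bool) → Bool)

/-- `x` and `y` lie in the same component of the graph formed by the edges of the colour `a`
(there is a walk from `x` to `y` all of whose edges have the colour `a`) -/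
def Joined (a : Bool) (x y : Fin n → Bool) : Prop :=
  ∃ (k : ℕ) (p : ℕ → (Fin n → Bool)), p 0 = x ∧ p k = y ∧
    ∀ t, t < k → (∃ i, p (t + 1) = flip (p t) i) ∧ c (p t) (p (t + 1)) = a

/-- the 4-cycle `x, x + i, x + i + k, x + k` is alternating: its edges in the direction `k` have
the colour `a` and its edges in the direction `i` have the other colour -/
def Alt (a : Bool) (x : Fin n → Bool) (i k : Fin n) : Prop :=
  c x (flip x k) = a ∧ c (flip x i) (flip (flip x i) k) = a ∧
    c x (flip x i) = !a ∧ c (flip x k) (flip (flip x k) i) = !a

/-- the 4-cycle `x, x + i, x + i + k, x + k` is a proper alternating face: the ends of each of its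
two edges in the direction `i` lie in different components of the colour `a`, and the ends of each
of its two edges in the direction `k` lie in different components of the other colour -/
def Face (a : Bool) (x : Fin n → Bool) (i k : Fin n) : Prop :=
  i ≠ k ∧ ¬ Joined c a x (flip x i) ∧ ¬ Joined c a (flip x k) (flip (flip x k) i) ∧
    ¬ Joined c (!a) x (flip x k) ∧ ¬ Joined c (!a) (flip x i) (flip (flip x i) k)

/-- the three-dimensional subcube at `x` with the directions `i`, `j`, `k` has three proper
alternating faces, whose edges in the direction `k` have the colour `a`, and among the vertices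
`x`, `x + i`, `x + j`, `x + i + j` there are three in different components of the colour `a` -/
def Three (a : Bool) (x : Fin n → Bool) (i j k : Fin n) : Prop :=
  i ≠ j ∧ i ≠ k ∧ j ≠ k ∧ Face c a x i k ∧ Face c a x j k ∧ Face c a (flip x i) j k ∧
    (¬ Joined c a x (flip (flip x i) j) ∨ ¬ Joined c a (flip x i) (flip x j))

/-- the subcube at `x` with the set `I` of directions has a vertex which lies, for each of the two
colours, in the same component as `p` -/
def Meets (p x : Fin n → Bool) (I : Finset (Fin n)) : Prop :=
  ∃ v : Fin n → Bool, (∀ l, l ∉ I → v l = x l) ∧ ∀ a, Joined c a v p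

/-- the subcube at `x` with the set `I` of directions lies in the subcube at `z` with the set `Z`
of directions -/
def Inside (z : Fin n → Bool) (Z : Finset (Fin n)) (x : Fin n → Bool) (I : Finset (Fin n)) :
    Prop := ∀ l, l ∉ Z → l ∉ I ∧ x l = z l

/-- the subcube at `z` with the set `Z` of directions contains a three-dimensional subcube as in
`Three`, the subcube at `z'` with the set `Z'` of directions contains a proper alternating face,
and both have a vertex which lies, for each colour, in the same component as `p` -/
def Link (a : Bool) (p z : Fin n → Bool) (Z : Finset (Fin n)) (z' : Fin n → Bool)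
    (Z' : Finset (Fin n)) : Prop :=
  (∃ x i j k, Three c a x i j k ∧ Inside z Z x {i, j, k} ∧ Meets c p x {i, j, k}) ∧
    ∃ y l m, Face c a y l m ∧ Inside z' Z' y {l, m} ∧ Meets c p y {l, m}

/-- every direction in `Z` occurs in a proper alternating face inside the subcube at `z` with the
set `Z` of directions -/
def Dirs (z : Fin n → Bool) (Z : Finset (Fin n)) : Prop :=
  ∀ i ∈ Z, ∃ a x k, Face c a x i k ∧ Inside z Z x {i, k}

/-- `z` and `e` differ in the directions in `X`, agree in the directions in `Y`, and alternately
agree and differ in the other directions, when these are ordered by the values of `π` -/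
def Position (e : Fin n → Bool) (π : Equiv.Perm (Fin n)) (z : Fin n → Bool)
    (X Y : Finset (Fin n)) : Prop :=
  Disjoint X Y ∧ (∀ l ∈ X, z l ≠ e l) ∧ (∀ l ∈ Y, z l = e l) ∧
    ∀ l, l ∉ X → l ∉ Y → (z l ≠ e l ↔
      Odd (Finset.univ.filter fun l' => π l' < π l ∧ l' ∉ X ∧ l' ∉ Y).card)

/-- the subcube at `z` with the set `X` of directions and the subcube at the antipode of `z` with
the set `Y` of directions form a critical pair -/
def Critical (e : Fin n → Bool) (π : Equiv.Perm (Fin n)) (z : Fin n → Bool)
    (X Y : Finset (Fin n)) : Prop :=
  Position e π z X Y ∧ 6 ≤ X.card + Y.card ∧ Dirs c z X ∧ Dirs c (antipode z) Y ∧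
    ∃ p, ∀ a, Link c a p z X (antipode z) Y ∨ Link c a p (antipode z) Y z X

/-- for each colour `b` some vertex is joined to its antipode by a path whose first `j` edges have
the colour `b` and whose other edges have the other colour; so it has at most one change -/
def OneChange : Prop :=
  ∀ b : Bool, ∃ (k : ℕ) (p : ℕ → (Fin n → Bool)) (j : ℕ), IsPath p k ∧ p k = antipode (p 0) ∧
    changes c p k ≤ 1 ∧ j ≤ k ∧ ∀ t, t < k → c (p t) (p (t + 1)) = if t < j then b else !b

end Pool.Agent.NorK
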