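import Pool.Agent.NorK.Main

set_option autoImplicit false

/-!
# MP_615643_co: the labels which occur together with the common label

The word of a set of labels vanishes on an antipodal letter of this set.  Hence a nonzero word
with the repeated labels `c` and `d` needs two labels of the first kind which occur together with
`d` and do not lie in the first part, and the same for the last part.  So at least five labels of
the first kind occur together with `d`.
-/

namespace Pool.Agent.NorK

open Finset Pool.Agent.AntiPath Pool.Agent.TwoCh Pool.Agent.Nor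

variable {n N M : ℕ} {r : V n → Fin N} {b : V n → Fin M}

/-- a nonzero entry of a word: the first label lies in the set, the other label is constant -/
theorem om_same (h : ∀ x i, x i = false → r x = r (Function.update x i true) ∨
      b x = b (Function.update x i true)) (σ : Finset (Fin N)) (x y : V n)
    (hne : om (dd n) (ed r) σ x y ≠ 0) : r x ∈ σ ∧ b x = b y := by
  induction hc : σ.card using Nat.strong_induction_on generalizing σ x with
  | _ c ih =>
    rw [om_eq, Matrix.sum_apply] at hne
    obtain ⟨a, ha, h1⟩ := Finset.exists_ne_zero_of_sum_ne_zero hne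
    rw [ed_mul_apply] at h1
    split_ifs at h1 with hx
    · refine ⟨hx ▸ ha, ?_⟩
      unfold gg at h1
      by_cases h2 : σ.erase a = ∅
      · rw [if_pos h2, h2, om_empty, mul_zero, add_zero] at h1
        have hxy : x = y := by
          by_contra hxy
          exact h1 (Matrix.one_apply_ne hxy)
        rw [hxy]
      · rw [if_neg h2, zero_add, Matrix.mul_apply] at h1
        obtain ⟨x1, -, h3⟩ := Finset.exists_ne_zero_of_sum_ne_zero h1
        obtain ⟨h4, h5⟩ := ih (σ.erase a).card (by
          rw [← hc]; exact Finset.card_erase_lt_of_mem ha) (σ.erase a) x1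
          (right_ne_zero_of_mul h3) rfl
        obtain ⟨i, hi, hx1⟩ := dd_ne_zero (left_ne_zero_of_mul h3)
        rcases h x i hi with h6 | h6
        · rw [← hx1, hx] at h6
          exact absurd h6.symm (Finset.ne_of_mem_erase h4)
        · rw [← hx1] at h6
          exact h6.trans h5
    · exact absurd rfl h1

/-- the word of a set of labels vanishes on an antipodal letter of this set -/
theorem om_anti (h : ∀ x i, x i = false → r x = r (Function.update x i true) ∨
      b x = b (Function.update x i true)) (hcon : ∀ x y, r x = r y → b y ≠ b (an x))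
    (σ : Finset (Fin N)) (p : Fin N) (hp : p ∈ σ) :
    om (dd n) (ed r) σ * ed (fun x => r (an x)) p = 0 := by
  induction hc : σ.card using Nat.strong_induction_on generalizing σ with
  | _ c ih =>
    rw [om_eq, Finset.sum_mul]
    refine Finset.sum_eq_zero fun a ha => ?_
    by_cases hap : a = p
    · subst hap
      ext x y
      rw [mul_ed_apply, Matrix.zero_apply]
      split_ifs with hy
      · rw [ed_mul_apply]
        split_ifs with hx
        · by_contra h1
          have h0 : b x = b y := by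
            unfold gg at h1
            by_cases h2 : σ.erase a = ∅
            · rw [if_pos h2, h2, om_empty, mul_zero, add_zero] at h1
              have hxy : x = y := by
                by_contra hxy
                exact h1 (Matrix.one_apply_ne hxy)
              rw [hxy]
            · rw [if_neg h2, zero_add, Matrix.mul_apply] at h1
              obtain ⟨x1, -, h3⟩ := Finset.exists_ne_zero_of_sum_ne_zero h1
              obtain ⟨h4, h5⟩ := om_same h _ _ _ (right_ne_zero_of_mul h3)
              obtain ⟨i, hi, hx1⟩ := dd_ne_zero (left_ne_zero_of_mul h3)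
              rcases h x i hi with h6 | h6
              · rw [← hx1, hx] at h6
                exact absurd h6.symm (Finset.ne_of_mem_erase h4)
              · rw [← hx1] at h6
                exact h6.trans h5
          refine hcon (an y) x (hy.trans hx.symm) ?_
          rw [an_an]
          exact h0
        · rfl
      · rfl
    · have h1 : p ∈ σ.erase a := Finset.mem_erase.2 ⟨Ne.symm hap, hp⟩
      unfold gg
      rw [if_neg (Finset.ne_empty_of_mem h1), zero_add, mul_assoc, mul_assoc,
        ih (σ.erase a).card (by rw [← hc]; exact Finset.card_erase_lt_of_mem ha) _ h1 rfl,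
        mul_zero, mul_zero]

theorem M_zero (h : ∀ x i, x i = false → r x = r (Function.update x i true) ∨
      b x = b (Function.update x i true)) (hcon : ∀ x y, r x = r y → b y ≠ b (an x))
    {σ τ : Finset (Fin N)} (hτ : τ ⊆ σ) :
    om (dd n) (ed r) σ * om (dd n) (ed fun x => r (an x)) τ = 0 :=
  left_letter _ _ fun p hp => om_anti h hcon σ p (hτ hp)

/-- the boundary formula for a part of the first set -/
theorem M_sum (h : ∀ x i, x i = false → r x = r (Function.update x i true) ∨
      b x = b (Function.update x i true)) (hcon : ∀ x y, r x = r y → b y ≠ b (an x))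
    {σ τ : Finset (Fin N)} (hτ : τ ⊆ σ) (h0 : τ ≠ ∅) :
    ∑ l ∈ τᶜ, om (dd n) (ed r) σ * om (dd n) (ed fun x => r (an x)) (insert l τ) = 0 := by
  have Q := quad h hcon
  have hσ : σ ≠ ∅ := by
    rintro rfl
    exact h0 (Finset.subset_empty.1 hτ)
  have i1 := om_ins Q.S.h2 (dd n) Q.S.hD (ed r) Q.S.he σ
  have i2 := om_ins Q.S.h2 (dd n) Q.S.hD (ed fun x => r (an x)) Q.S'.he τ
  rw [if_neg hσ, zero_add] at i1
  rw [if_neg h0, zero_add] at i2
  have h1 : om (dd n) (ed r) σ * (dd n * om (dd n) (ed fun x => r (an x)) τ) = 0 := by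
    have h2 : (∑ l ∈ σᶜ, om (dd n) (ed r) (insert l σ)) *
        om (dd n) (ed fun x => r (an x)) τ = 0 := by
      rw [Finset.sum_mul]
      exact Finset.sum_eq_zero fun l _ =>
        M_zero h hcon (hτ.trans (Finset.subset_insert _ _))
    rw [i1, add_mul, mul_assoc, M_zero h hcon hτ, mul_zero, zero_add, mul_assoc] at h2
    exact h2
  rw [← Finset.mul_sum, i2, mul_add, h1, ← mul_assoc, M_zero h hcon hτ, zero_mul, zero_add]

/-- a nonzero word with the repeated label `c`: outside the first part there are at least two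
labels which occur together with all labels of the last part of the other kind -/
theorem far_two (h : ∀ x i, x i = false → r x = r (Function.update x i true) ∨
      b x = b (Function.update x i true)) (hcon : ∀ x y, r x = r y → b y ≠ b (an x))
    {σ σ' : Finset (Fin N)} {ρ ρ' : Finset (Fin M)} {c : Fin N} (hc : c ∈ σ) (hc' : c ∈ σ')
    (hne : om (dd n) (ed b) ρ * (om (dd n) (ed r) σ * om (dd n) (ed fun x => r (an x)) σ') *
      om (dd n) (ed fun x => b (an x)) ρ' ≠ 0) (g : Fin N) :
    ∃ l, l ∉ σ ∧ l ≠ g ∧ ∀ d ∈ ρ', HH r b l d := by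
  have Q := quad h hcon
  by_contra hn
  push Not at hn
  -- a label of `σ'` which does not occur together with a label of `ρ'` gives zero
  have hz : ∀ (τ : Finset (Fin N)) (l : Fin N) (d : Fin M), l ∈ τ → d ∈ ρ' → ¬ HH r b l d →
      om (dd n) (ed b) ρ * (om (dd n) (ed r) σ * om (dd n) (ed fun x => r (an x)) τ) *
        om (dd n) (ed fun x => b (an x)) ρ' = 0 := by
    intro τ l d hl hd' hH
    rw [mul_assoc, mul_assoc (om (dd n) (ed r) σ),
      bicl Q.S' l d (Q.nH' l d hH) τ ρ' hl hd', mul_zero, mul_zero]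
  have h1 : ∀ l ∈ σ', l ∉ σ → l = g := by
    intro l hl hl'
    by_contra hlg
    obtain ⟨d, hd, hH⟩ := hn l hl' hlg
    exact hne (hz σ' l d hl hd hH)
  have h2 : ¬ σ' ⊆ σ := by
    intro h3
    apply hne
    rw [M_zero h hcon h3, mul_zero, zero_mul]
  obtain ⟨l, hl, hl'⟩ := Finset.not_subset.1 h2
  have hlg := h1 l hl hl'
  subst hlg
  have h3 : σ'.erase l ⊆ σ := by
    intro m hm
    by_contra hm'
    exact (Finset.ne_of_mem_erase hm) (h1 m (Finset.mem_of_mem_erase hm) hm')
  have h4 : c ∈ σ'.erase l := Finset.mem_erase.2 ⟨fun h5 => hl' (h5 ▸ hc), hc'⟩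
  have h5 := M_sum h hcon h3 (Finset.ne_empty_of_mem h4)
  have h6 : ∑ m ∈ (σ'.erase l)ᶜ, om (dd n) (ed b) ρ * (om (dd n) (ed r) σ *
      om (dd n) (ed fun x => r (an x)) (insert m (σ'.erase l))) *
        om (dd n) (ed fun x => b (an x)) ρ' = 0 := by
    rw [← Finset.sum_mul, ← Finset.mul_sum, h5, mul_zero, zero_mul]
  rw [Finset.sum_eq_single l, Finset.insert_erase hl] at h6
  · exact hne h6
  · intro m hm hml
    by_cases hms : m ∈ σ
    · rw [M_zero h hcon (Finset.insert_subset hms h3), mul_zero, zero_mul]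
    · obtain ⟨d, hd, hH⟩ := hn m hms hml
      exact hz _ m d (Finset.mem_insert_self _ _) hd hH
  · intro h7
    exact absurd (Finset.mem_compl.2 (Finset.notMem_erase l σ')) h7

theorem tau_word (σ σ' : Finset (Fin N)) (ρ ρ' : Finset (Fin M)) :
    tau n (om (dd n) (ed b) ρ' * (om (dd n) (ed r) σ' * om (dd n) (ed fun x => r (an x)) σ) *
      om (dd n) (ed fun x => b (an x)) ρ) =
    om (dd n) (ed b) ρ * (om (dd n) (ed r) σ * om (dd n) (ed fun x => r (an x)) σ') *
      om (dd n) (ed fun x => b (an x)) ρ' := by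
  have e1 : ∀ {K : ℕ} (g : V n → Fin K) (σ : Finset (Fin K)),
      tau n (om (dd n) (ed g) σ) = om (dd n) (ed fun x => g (an x)) σ := by
    intro K g σ
    rw [tau_om (dd n) (ed g) (tau n) tau_mul (tau_one n) (tau_dd n)]
    congr 1
    funext a
    exact tau_ed g a
  rw [tau_mul, tau_mul, tau_mul, e1, e1, e1, e1]
  simp only [an_an, mul_assoc]

theorem word_swap {σ σ' : Finset (Fin N)} {ρ ρ' : Finset (Fin M)}
    (hne : om (dd n) (ed b) ρ * (om (dd n) (ed r) σ * om (dd n) (ed fun x => r (an x)) σ') *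
      om (dd n) (ed fun x => b (an x)) ρ' ≠ 0) :
    om (dd n) (ed b) ρ' * (om (dd n) (ed r) σ' * om (dd n) (ed fun x => r (an x)) σ) *
      om (dd n) (ed fun x => b (an x)) ρ ≠ 0 := by
  intro h4
  apply hne
  rw [← tau_word, h4, map_zero]

open Classical in
/-- at least five labels of the first kind occur together with `d` -/
theorem five_of (h : ∀ x i, x i = false → r x = r (Function.update x i true) ∨
      b x = b (Function.update x i true)) (hcon : ∀ x y, r x = r y → b y ≠ b (an x))
    {σ σ' : Finset (Fin N)} {ρ ρ' : Finset (Fin M)} {c : Fin N} {d : Fin M} (hc : c ∈ σ)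
    (hc' : c ∈ σ') (hd : d ∈ ρ) (hd' : d ∈ ρ')
    (hH : ∀ a ∈ σ, HH r b a d) (hH' : ∀ a ∈ σ', HH r b a d)
    (hne : om (dd n) (ed b) ρ * (om (dd n) (ed r) σ * om (dd n) (ed fun x => r (an x)) σ') *
      om (dd n) (ed fun x => b (an x)) ρ' ≠ 0) (h3 : 3 ≤ σ.card ∨ 3 ≤ σ'.card) :
    5 ≤ (univ.filter fun a => HH r b a d).card := by
  have key : ∀ τ : Finset (Fin N), (∀ a ∈ τ, HH r b a d) → 3 ≤ τ.card →
      (∀ g, ∃ l, l ∉ τ ∧ l ≠ g ∧ HH r b l d) → 5 ≤ (univ.filter fun a => HH r b a d).card := by
    intro τ h4 h5 h6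
    obtain ⟨l1, h7, -, h8⟩ := h6 c
    obtain ⟨l2, h9, h10, h11⟩ := h6 l1
    have h12 : insert l2 (insert l1 τ) ⊆ univ.filter fun a => HH r b a d := by
      intro m hm
      rw [Finset.mem_insert, Finset.mem_insert] at hm
      rw [Finset.mem_filter]
      refine ⟨mem_univ _, ?_⟩
      rcases hm with rfl | rfl | hm
      · exact h11
      · exact h8
      · exact h4 m hm
    have h13 := Finset.card_le_card h12
    rw [Finset.card_insert_of_notMem, Finset.card_insert_of_notMem h7] at h13
    · omega
    · rw [Finset.mem_insert, not_or]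
      exact ⟨h10, h9⟩
  rcases h3 with h3 | h3
  · refine key σ hH h3 fun g => ?_
    obtain ⟨l, h4, h5, h6⟩ := far_two h hcon hc hc' hne g
    exact ⟨l, h4, h5, h6 d hd'⟩
  · refine key σ' hH' h3 fun g => ?_
    obtain ⟨l, h4, h5, h6⟩ := far_two h hcon hc' hc (word_swap hne) g
    exact ⟨l, h4, h5, h6 d hd⟩

/-- five labels, as vertices -/
def DegL {A B : Type*} (r : V n → A) (b : V n → B) (v : V n) : Prop :=
  ∃ u : Fin 5 → V n, (∀ i j, i ≠ j → r (u i) ≠ r (u j)) ∧ ∀ i, b (u i) = b v

open Classical in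
theorem DegL_of {p : V n} (h : 5 ≤ (univ.filter fun a => HH r b a (b p)).card) :
    DegL r b p := by
  obtain ⟨t, ht, h5⟩ := Finset.exists_subset_card_eq h
  have hw : ∀ a : t, ∃ x, r x = a.1 ∧ b x = b p := fun a => (Finset.mem_filter.1 (ht a.2)).2
  choose w hw1 hw2 using hw
  refine ⟨fun i => w ((t.equivFinOfCardEq h5).symm i), fun i j hij => ?_, fun i => hw2 _⟩
  rw [hw1, hw1]
  intro h6
  exact hij ((t.equivFinOfCardEq h5).symm.injective (Subtype.ext h6))

theorem DegL.ph {A B : Type*} {r : V n → A} {b : V n → B} {e : V n} {π : Equiv.Perm (Fin n)}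
    {p : V n} (h : DegL (fun x => r (NorK.ph e π x)) (fun x => b (NorK.ph e π x)) p) :
    DegL r b (NorK.ph e π p) := by
  obtain ⟨u, h1, h2⟩ := h
  exact ⟨fun i => NorK.ph e π (u i), h1, h2⟩

/-- three labels of each kind, among them those of `p`, all nine pairs of which occur -/
def KL {A B : Type*} (r : V n → A) (b : V n → B) (p : V n) : Prop :=
  ∃ s t : Fin 3 → V n, r (s 0) = r p ∧ b (t 0) = b p ∧ (∀ i j, i ≠ j → r (s i) ≠ r (s j)) ∧
    (∀ i j, i ≠ j → b (t i) ≠ b (t j)) ∧ ∀ i j, ∃ x, r x = r (s i) ∧ b x = b (t j)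

theorem KL.ph {A B : Type*} {r : V n → A} {b : V n → B} {e : V n} {π : Equiv.Perm (Fin n)}
    {p : V n} (h : KL (fun x => r (NorK.ph e π x)) (fun x => b (NorK.ph e π x)) p) :
    KL r b (NorK.ph e π p) := by
  obtain ⟨s, t, h1, h2, h3, h4, h5⟩ := h
  refine ⟨fun i => NorK.ph e π (s i), fun i => NorK.ph e π (t i), h1, h2, h3, h4,
    fun i j => ?_⟩
  obtain ⟨x, hx⟩ := h5 i j
  exact ⟨_, hx⟩

/-- a nonzero word with repeated labels of both kinds, three labels in the last part -/
theorem KL_of (h : ∀ x i, x i = false → r x = r (Function.update x i true) ∨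
      b x = b (Function.update x i true)) (hcon : ∀ x y, r x = r y → b y ≠ b (an x))
    {σ σ' : Finset (Fin N)} {ρ ρ' : Finset (Fin M)} {p : V n} (hc : r p ∈ σ)
    (hc' : r p ∈ σ') (hd' : b p ∈ ρ') (hH' : ∀ a ∈ σ', ∀ d ∈ ρ', HH r b a d)
    (hne : om (dd n) (ed b) ρ * (om (dd n) (ed r) σ * om (dd n) (ed fun x => r (an x)) σ') *
      om (dd n) (ed fun x => b (an x)) ρ' ≠ 0) (h3 : 3 ≤ ρ'.card) : KL r b p := by
  obtain ⟨l1, h4, -, h5⟩ := far_two h hcon hc hc' hne (r p)
  obtain ⟨l2, h6, h7, h8⟩ := far_two h hcon hc hc' hne l1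
  have h9 : 1 < (ρ'.erase (b p)).card := by
    rw [Finset.card_erase_of_mem hd']
    omega
  obtain ⟨m1, hm1, m2, hm2, h10⟩ := Finset.one_lt_card.1 h9
  rw [Finset.mem_erase] at hm1 hm2
  obtain ⟨s1, hs1, -⟩ := h5 _ hd'
  obtain ⟨s2, hs2, -⟩ := h8 _ hd'
  obtain ⟨t1, -, ht1⟩ := hH' _ hc' _ hm1.2
  obtain ⟨t2, -, ht2⟩ := hH' _ hc' _ hm2.2
  have n1 : l1 ≠ r p := fun h' => h4 (h' ▸ hc)
  have n2 : l2 ≠ r p := fun h' => h6 (h' ▸ hc)
  have e1 : ∀ l, (l = r p ∨ l = l1 ∨ l = l2) → ∀ d ∈ ρ', HH r b l d := by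
    rintro l (rfl | rfl | rfl)
    · exact hH' _ hc'
    · exact h5
    · exact h8
  refine ⟨![p, s1, s2], ![p, t1, t2], rfl, rfl, ?_, ?_, ?_⟩
  · intro i j hij
    fin_cases i <;> fin_cases j <;> simp [hs1, hs2] at hij ⊢
    · exact Ne.symm n1
    · exact Ne.symm n2
    · exact n1
    · exact Ne.symm h7
    · exact n2
    · exact h7
  · intro i j hij
    fin_cases i <;> fin_cases j <;> simp [ht1, ht2] at hij ⊢
    · exact Ne.symm hm1.1
    · exact Ne.symm hm2.1
    · exact hm1.1
    · exact h10
    · exact hm2.1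
    · exact Ne.symm h10
  · intro i j
    have e2 : r (![p, s1, s2] i) = r p ∨ r (![p, s1, s2] i) = l1 ∨ r (![p, s1, s2] i) = l2 := by
      fin_cases i <;> simp [hs1, hs2]
    have e3 : b (![p, t1, t2] j) ∈ ρ' := by
      fin_cases j <;> simp [ht1, ht2, hd', hm1.2, hm2.2]
    exact e1 _ e2 _ e3

end Pool.Agent.NorK
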