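import Pool.Agent.NorK.Alter

set_option autoImplicit false

/-!
# MP_615643_co: the labelling theorem for labellings with few alternating faces
-/

namespace Pool.Agent.NorK

open Finset Pool.Agent.TwoCh Pool.Agent.Nor Pool.Agent.AntiPath

variable {n N M : ℕ}

/-- a three-dimensional subcube with three alternating faces and at least three labels of the
first kind -/
def ThreeL {A B : Type*} (r : V n → A) (b : V n → B) (x : V n) (i j k : Fin n) : Prop :=
  i ≠ j ∧ i ≠ k ∧ j ≠ k ∧ FaceL r b x i k ∧ FaceL r b x j k ∧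
    FaceL r b (AntiPath.flip x i) j k ∧
    (r x ≠ r (AntiPath.flip (AntiPath.flip x i) j) ∨
      r (AntiPath.flip x i) ≠ r (AntiPath.flip x j))

/-- the subcube at `x` with the set `I` of directions has a vertex with the labels of `p` -/
def MeetL {A B : Type*} (r : V n → A) (b : V n → B) (p x : V n) (I : Finset (Fin n)) : Prop :=
  ∃ v : V n, (∀ l, l ∉ I → v l = x l) ∧ r v = r p ∧ b v = b p

/-- the subcube at `x` with the set `I` of directions lies in the subcube at `e` with the set `Z`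
of directions -/
def Sub (e : V n) (Z : Finset (Fin n)) (x : V n) (I : Finset (Fin n)) : Prop :=
  ∀ l, l ∉ Z → l ∉ I ∧ x l = e l

/-- the subcube at `e` with the set `Z` of directions contains a three-dimensional subcube with
three alternating faces, and the subcube at `e'` with the set `Z'` of directions contains an
alternating face, both with a vertex which has the labels of `p` -/
def LinkL {A B : Type*} (r : V n → A) (b : V n → B) (p e : V n) (Z : Finset (Fin n)) (e' : V n)
    (Z' : Finset (Fin n)) : Prop :=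
  (∃ x i j k, ThreeL r b x i j k ∧ Sub e Z x {i, j, k} ∧ MeetL r b p x {i, j, k}) ∧
    ∃ y l m, FaceL r b y l m ∧ Sub e' Z' y {l, m} ∧ MeetL r b p y {l, m}

/-- all directions of the subcube at `e` with the set `Z` of directions occur in alternating faces
inside this subcube -/
def DirL {A B : Type*} (r : V n → A) (b : V n → B) (e : V n) (Z : Finset (Fin n)) : Prop :=
  ∀ i ∈ Z, ∃ x k, (FaceL r b x i k ∨ FaceL r b x k i) ∧ Sub e Z x {i, k}

/-- `z` and `e` differ in the directions in `X`, agree in the directions in `Y`, and alternately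
agree and differ in the other directions, in the order given by `π` -/
def PosL (e : V n) (π : Equiv.Perm (Fin n)) (z : V n) (X Y : Finset (Fin n)) : Prop :=
  Disjoint X Y ∧ (∀ l ∈ X, z l ≠ e l) ∧ (∀ l ∈ Y, z l = e l) ∧
    ∀ l, l ∉ X → l ∉ Y →
      (z l ≠ e l ↔ Odd (univ.filter fun l' => π l' < π l ∧ l' ∉ X ∧ l' ∉ Y).card)

/-- the subcubes at `z` and at its antipode with the sets `X` and `Y` of directions are
critical -/
def CritL {A B : Type*} (r : V n → A) (b : V n → B) (e : V n) (π : Equiv.Perm (Fin n)) (z : V n)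
    (X Y : Finset (Fin n)) : Prop :=
  PosL e π z X Y ∧ 6 ≤ X.card + Y.card ∧ DirL r b z X ∧ DirL r b (an z) Y ∧
    ∃ p, (LinkL r b p z X (an z) Y ∨ LinkL r b p (an z) Y z X) ∧
      (LinkL b r p z X (an z) Y ∨ LinkL b r p (an z) Y z X)

section

variable {A B : Type*} {r : V n → A} {b : V n → B}

theorem FaceL.an {x : V n} {i k : Fin n}
    (hF : FaceL (fun x => r (an x)) (fun x => b (an x)) x i k) : FaceL r b (an x) i k := by
  unfold FaceL at hF ⊢
  simp only [an_flip'] at hF
  exact hF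

theorem ThreeL.an {x : V n} {i j k : Fin n}
    (hF : ThreeL (fun x => r (an x)) (fun x => b (an x)) x i j k) :
    ThreeL r b (an x) i j k := by
  obtain ⟨h1, h2, h3, h4, h5, h6, h7⟩ := hF
  simp only [an_flip'] at h7
  refine ⟨h1, h2, h3, h4.an, h5.an, ?_, h7⟩
  rw [← an_flip']
  exact h6.an

theorem MeetL.an {p x : V n} {I : Finset (Fin n)}
    (h : MeetL (fun x => r (an x)) (fun x => b (an x)) (an p) x I) : MeetL r b p (an x) I := by
  obtain ⟨v, h1, h2, h3⟩ := h
  simp only [an_an] at h2 h3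
  refine ⟨TwoCh.an v, fun l hl => ?_, h2, h3⟩
  simp only [TwoCh.an]
  rw [h1 l hl]

theorem FaceL.base {x : V n} {i k : Fin n} (hF : FaceL r b x i k) :
    FaceL r b (AntiPath.flip x i) i k := by
  obtain ⟨h0, h1, h2, h3, h4⟩ := hF
  refine ⟨h0, ?_, ?_, h4, ?_⟩
  · rw [AntiPath.flip_flip]
    exact h1.symm
  · rw [← flip_comm' x (Ne.symm h0), AntiPath.flip_flip]
    exact h2.symm
  · rw [AntiPath.flip_flip]
    exact h3

/-- a ladder lies in a three-dimensional subcube with three alternating faces -/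
theorem three_of_lad (h : Edg r b) {x : V n} {i j k : Fin n} (hl : LadL r b x i j k) :
    ∃ x' i' j', ThreeL r b x' i' j' k ∧ (∀ l, l ∉ ({i, j, k} : Finset (Fin n)) → x' l = x l) ∧
      ({i', j', k} : Finset (Fin n)) = {i, j, k} := by
  obtain ⟨hij, hik, hjk, F1, F2, r3⟩ := hl
  obtain ⟨t1, s1, s2, t3⟩ := F1.keep h
  obtain ⟨t2, -, s3, t4⟩ := F2.keep h
  have b1 := F1.2.2.2.1
  have c2 : AntiPath.flip (AntiPath.flip x k) j = AntiPath.flip (AntiPath.flip x j) k :=
    flip_comm' x (Ne.symm hjk)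
  have c1 : AntiPath.flip (AntiPath.flip x k) i = AntiPath.flip (AntiPath.flip x i) k :=
    flip_comm' x (Ne.symm hik)
  have c3 : AntiPath.flip (AntiPath.flip x j) i = AntiPath.flip (AntiPath.flip x i) j :=
    flip_comm' x (Ne.symm hij)
  have c4 : AntiPath.flip (AntiPath.flip (AntiPath.flip x i) k) j =
      AntiPath.flip (AntiPath.flip (AntiPath.flip x i) j) k := flip_comm' _ (Ne.symm hjk)
  have c5 : AntiPath.flip (AntiPath.flip (AntiPath.flip x j) k) i =
      AntiPath.flip (AntiPath.flip (AntiPath.flip x i) j) k := by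
    rw [flip_comm' (AntiPath.flip x j) (Ne.symm hik), c3]
  -- the fourth corner keeps `b`
  have v1 : b (AntiPath.flip x j) = b x := by
    rcases h x j with h1 | h1
    · have h2 := h (AntiPath.flip x j) i
      rw [c3] at h2
      rcases h2 with h2 | h2
      · exact absurd (h1.trans h2) r3
      · rw [h2, t1, t2]
    · exact h1.symm
  have v2 : b (AntiPath.flip (AntiPath.flip x j) k) = b (AntiPath.flip x k) := by
    have h1 := h (AntiPath.flip x k) j
    rw [c2] at h1
    rcases h1 with h1 | h1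
    · have h2 := h (AntiPath.flip (AntiPath.flip x j) k) i
      rw [c5] at h2
      rcases h2 with h2 | h2
      · exact absurd (s1.trans (h1.trans (h2.trans s3.symm))) r3
      · rw [h2, t3, c1, t4, c4]
    · exact h1.symm
  have b4 : b (AntiPath.flip x j) ≠ b (AntiPath.flip (AntiPath.flip x j) k) := by
    rw [v1, v2]; exact b1
  by_cases h1 : r x = r (AntiPath.flip x j)
  · refine ⟨AntiPath.flip x i, j, i, ⟨hij.symm, hjk, hik, F2, F1.base, ?_, ?_⟩, ?_, ?_⟩
    · have h2 : AntiPath.flip (AntiPath.flip (AntiPath.flip x i) j) i = AntiPath.flip x j := by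
        rw [← c3, AntiPath.flip_flip]
      refine FaceL_of h hik ?_ ?_ F2.2.2.2.2
      · rw [h2, ← h1]
        exact r3.symm
      · rw [h2]
        exact b4
    · right
      rw [AntiPath.flip_flip]
      exact r3.symm
    · intro l hl
      simp only [mem_insert, mem_singleton, not_or] at hl
      exact AntiPath.flip_ne x hl.1
    · ext l
      simp only [mem_insert, mem_singleton]
      tauto
  · refine ⟨x, i, j, ⟨hij, hik, hjk, F1, ?_, F2, Or.inl r3⟩, fun _ _ => rfl, rfl⟩
    exact FaceL_of h hjk h1 b4 b1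

end

variable {r : V n → Fin N} {b : V n → Fin M}

/-- one side, three labels of the first kind -/
theorem side32 (h : Edg r b) (σ : Finset (Fin N)) (ρ : Finset (Fin M)) (x y : V n)
    (hne : WW r b σ ρ x y ≠ 0) (c : Fin N) (hc : c ∈ σ) (hσ : 3 ≤ σ.card) (d : Fin M)
    (hd : d ∈ ρ) (hρ : 2 ≤ ρ.card) :
    ∃ x' i j k, ThreeL r b x' i j k ∧ In x y x' {i, j, k} ∧
      ∀ p, r p = c → b p = d → MeetL r b p x' {i, j, k} := by
  obtain ⟨σ', ρ', h1, h2, h3, h4, x1, y1, hx, hy, h5⟩ :=
    red_two h 3 2 (by omega) (by omega) σ ρ x y hne c hc hσ d hd hρ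
  obtain ⟨i, j, k, hl, hi, hj, hk, hyx, s1, s2⟩ := base32 h σ' ρ' x1 y1 h3 h4 h5
  obtain ⟨x', i', j', hT, hx', hI⟩ := three_of_lad h hl
  obtain ⟨hij, hik, hjk, F1, F2, r3⟩ := hl
  obtain ⟨t1, u1, u2, -⟩ := F1.keep h
  obtain ⟨t2, -, u3, -⟩ := F2.keep h
  have u4 : b (AntiPath.flip x1 k) = b (AntiPath.flip (AntiPath.flip x1 i) k) := by
    have := (F1.keep h).2.2.2
    rwa [flip_comm' x1 (Ne.symm hik)] at this
  have u5 : b (AntiPath.flip (AntiPath.flip x1 i) k) =
      b (AntiPath.flip (AntiPath.flip (AntiPath.flip x1 i) j) k) := by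
    have := (F2.keep h).2.2.2
    rwa [flip_comm' _ (Ne.symm hjk)] at this
  refine ⟨x', i', j', k, hT, ?_, ?_⟩
  · rw [hI]
    have h6 := In_mono (In_three hi hj hk hij hik hjk) hx (hyx ▸ hy)
    intro l
    refine ⟨fun hl => ?_, fun hl => ?_⟩
    · obtain ⟨h7, h8⟩ := (h6 l).1 hl
      exact ⟨h7, (hx' l h7).trans h8⟩
    · obtain ⟨h7, h8⟩ := (h6 l).2 hl
      exact ⟨h7, (hx' l h7).trans h8⟩
  · intro p hpc hpd
    rw [hI]
    have key : ∃ v : V n, (∀ l, l ∉ ({i, j, k} : Finset (Fin n)) → v l = x1 l) ∧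
        r v = c ∧ b v = d := by
      have n1 : ∀ l, l ∉ ({i, j, k} : Finset (Fin n)) → l ≠ i ∧ l ≠ j ∧ l ≠ k := by
        intro l hl
        simpa only [mem_insert, mem_singleton, not_or] using hl
      rw [s1] at h1
      rw [s2] at h2
      simp only [mem_insert, mem_singleton] at h1 h2
      rcases h1 with h1 | h1 | h1
      · rcases h2 with h2 | h2
        · exact ⟨x1, fun l hl => rfl, h1.symm, h2.symm⟩
        · refine ⟨AntiPath.flip x1 k, fun l hl => AntiPath.flip_ne _ (n1 l hl).2.2, ?_, h2.symm⟩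
          rw [h1, u1]
      · rcases h2 with h2 | h2
        · refine ⟨AntiPath.flip x1 i, fun l hl => AntiPath.flip_ne _ (n1 l hl).1, h1.symm, ?_⟩
          rw [h2, t1]
        · refine ⟨AntiPath.flip (AntiPath.flip x1 i) k, fun l hl => ?_, ?_, ?_⟩
          · rw [AntiPath.flip_ne _ (n1 l hl).2.2, AntiPath.flip_ne _ (n1 l hl).1]
          · rw [h1, u2]
          · rw [h2, u4]
      · rcases h2 with h2 | h2
        · refine ⟨AntiPath.flip (AntiPath.flip x1 i) j, fun l hl => ?_, h1.symm, ?_⟩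
          · rw [AntiPath.flip_ne _ (n1 l hl).2.1, AntiPath.flip_ne _ (n1 l hl).1]
          · rw [h2, t1, t2]
        · refine ⟨AntiPath.flip (AntiPath.flip (AntiPath.flip x1 i) j) k, fun l hl => ?_, ?_, ?_⟩
          · rw [AntiPath.flip_ne _ (n1 l hl).2.2, AntiPath.flip_ne _ (n1 l hl).2.1,
              AntiPath.flip_ne _ (n1 l hl).1]
          · rw [h1, u3]
          · rw [h2, u4, u5]
    obtain ⟨v, hv, hvc, hvd⟩ := key
    exact ⟨v, fun l hl => by rw [hv l hl, hx' l hl], hvc.trans hpc.symm, hvd.trans hpd.symm⟩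

/-- one side, two labels of each kind -/
theorem side22 (h : Edg r b) (σ : Finset (Fin N)) (ρ : Finset (Fin M)) (x y : V n)
    (hne : WW r b σ ρ x y ≠ 0) (c : Fin N) (hc : c ∈ σ) (hσ : 2 ≤ σ.card) (d : Fin M)
    (hd : d ∈ ρ) (hρ : 2 ≤ ρ.card) :
    ∃ x' i k, FaceL r b x' i k ∧ In x y x' {i, k} ∧
      ∀ p, r p = c → b p = d → MeetL r b p x' {i, k} := by
  obtain ⟨σ', ρ', h1, h2, h3, h4, x1, y1, hx, hy, h5⟩ :=
    red_two h 2 2 (by omega) (by omega) σ ρ x y hne c hc hσ d hd hρ
  obtain ⟨i, k, F, hi, hk, hyx, s1, s2⟩ := base22 h σ' ρ' x1 y1 h3 h4 h5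
  have hik := F.1
  obtain ⟨t1, u1, u2, t2⟩ := F.keep h
  refine ⟨x1, i, k, F, In_mono (In_two hi hk hik) hx (hyx ▸ hy), ?_⟩
  intro p hpc hpd
  have n1 : ∀ l, l ∉ ({i, k} : Finset (Fin n)) → l ≠ i ∧ l ≠ k := by
    intro l hl
    simpa only [mem_insert, mem_singleton, not_or] using hl
  rw [s1] at h1
  rw [s2] at h2
  simp only [mem_insert, mem_singleton] at h1 h2
  rcases h1 with h1 | h1
  · rcases h2 with h2 | h2
    · exact ⟨x1, fun l hl => rfl, by rw [hpc, h1], by rw [hpd, h2]⟩
    · exact ⟨AntiPath.flip x1 k, fun l hl => AntiPath.flip_ne _ (n1 l hl).2,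
        by rw [hpc, h1, u1], by rw [hpd, h2]⟩
  · rcases h2 with h2 | h2
    · exact ⟨AntiPath.flip x1 i, fun l hl => AntiPath.flip_ne _ (n1 l hl).1,
        by rw [hpc, h1], by rw [hpd, h2, t1]⟩
    · refine ⟨AntiPath.flip (AntiPath.flip x1 k) i, fun l hl => ?_, ?_, ?_⟩
      · rw [AntiPath.flip_ne _ (n1 l hl).1, AntiPath.flip_ne _ (n1 l hl).2]
      · rw [hpc, h1, u2, flip_comm' x1 (Ne.symm hik)]
      · rw [hpd, h2, t2]

/-- one side, all directions -/
theorem side_dir (h : Edg r b) (σ : Finset (Fin N)) (ρ : Finset (Fin M)) (x y : V n)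
    (hne : WW r b σ ρ x y ≠ 0) (hσ : 2 ≤ σ.card) (hρ : 2 ≤ ρ.card) (m : Fin n)
    (hx : x m = false) (hy : y m = true) :
    ∃ x' k, (FaceL r b x' m k ∨ FaceL r b x' k m) ∧ In x y x' {m, k} := by
  by_contra hn
  push Not at hn
  refine hne (dir_zero x y m _ h ?_ σ ρ rfl hσ hρ x y (Le.rfl' x) (Le.rfl' y) hx hy)
  intro x' k hI
  exact ⟨fun hF => hn x' k (Or.inl hF) hI, fun hF => hn x' k (Or.inr hF) hI⟩

/-- the vertex with all coordinates `false` -/
def bot : V n := fun _ => false

/-- the set of the coordinates with the value `true` -/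
def sp (z : V n) : Finset (Fin n) := univ.filter fun l => z l = true

theorem mem_sp {z : V n} {l : Fin n} : l ∈ sp z ↔ z l = true := by simp [sp]

theorem not_true' {u : Bool} (h : ¬ u = true) : u = false := by
  revert h; cases u <;> simp

theorem sub_of_In {u z x : V n} {I : Finset (Fin n)} (h : In u z x I) :
    Sub z (sp z \ sp u) x I := by
  intro l hl
  rw [mem_sdiff, mem_sp, mem_sp] at hl
  by_cases h1 : z l = true
  · have h2 : u l = true := by
      by_contra hn
      exact hl ⟨h1, hn⟩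
    obtain ⟨h3, h4⟩ := (h l).2 h2
    exact ⟨h3, h4.trans h1.symm⟩
  · have h1' := not_true' h1
    obtain ⟨h3, h4⟩ := (h l).1 h1'
    exact ⟨h3, h4.trans h1'.symm⟩

theorem sub_of_In' {z w x : V n} {I : Finset (Fin n)} (_hzw : Le z w) (h : In z w x I) :
    Sub (an z) (sp w \ sp z) (an x) I := by
  intro l hl
  rw [mem_sdiff, mem_sp, mem_sp] at hl
  by_cases h1 : z l = true
  · obtain ⟨h3, h4⟩ := (h l).2 h1
    refine ⟨h3, ?_⟩
    simp only [an]
    rw [h4, h1]
  · have h2 : w l = false := by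
      by_contra hn
      have h5 : w l = true := by
        revert hn; cases w l <;> simp
      exact hl ⟨h5, h1⟩
    obtain ⟨h3, h4⟩ := (h l).1 h2
    refine ⟨h3, ?_⟩
    simp only [an]
    rw [h4, not_true' h1]

/-- both sides -/
theorem ob_of (h : Edg r b) (σ σ' : Finset (Fin N)) (ρ ρ' : Finset (Fin M)) (u z w : V n)
    (lzw : Le z w) (h1 : WW r b σ ρ u z ≠ 0)
    (h2 : WW (fun x => r (an x)) (fun x => b (an x)) σ' ρ' z w ≠ 0)
    (c : Fin N) (hc : c ∈ σ) (hc' : c ∈ σ') (d : Fin M) (hd : d ∈ ρ) (hd' : d ∈ ρ')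
    (k1 : 2 ≤ σ.card) (k2 : 2 ≤ σ'.card) (k3 : 2 ≤ ρ.card) (k4 : 2 ≤ ρ'.card)
    (k5 : 3 ≤ σ.card ∨ 3 ≤ σ'.card) (p : V n) (hp : r p = c) (hp' : b p = d) :
    LinkL r b p z (sp z \ sp u) (an z) (sp w \ sp z) ∨
      LinkL r b p (an z) (sp w \ sp z) z (sp z \ sp u) := by
  have q1 : (fun x => r (an x)) (an p) = c := by simp only [an_an]; exact hp
  have q2 : (fun x => b (an x)) (an p) = d := by simp only [an_an]; exact hp'
  rcases k5 with k5 | k5
  · obtain ⟨x, i, j, k, hT, hD, hM⟩ := side32 h σ ρ u z h1 c hc k5 d hd k3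
    obtain ⟨y, l, m, hF, hE, hM'⟩ := side22 h.an σ' ρ' z w h2 c hc' k2 d hd' k4
    exact Or.inl ⟨⟨x, i, j, k, hT, sub_of_In hD, hM p hp hp'⟩, an y, l, m, hF.an,
      sub_of_In' lzw hE, (hM' (an p) q1 q2).an⟩
  · obtain ⟨x, i, j, k, hT, hD, hM⟩ := side32 h.an σ' ρ' z w h2 c hc' k5 d hd' k4
    obtain ⟨y, l, m, hF, hE, hM'⟩ := side22 h σ ρ u z h1 c hc k1 d hd k3
    exact Or.inr ⟨⟨an x, i, j, k, hT.an, sub_of_In' lzw hD, (hM (an p) q1 q2).an⟩, y, l, m, hF,
      sub_of_In hE, hM' p hp hp'⟩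

theorem free_iff {F : Face n} {z : V n} (luz : Le (lo F) z) (lzw : Le z (hi F)) (l : Fin n) :
    F l ≠ none ↔ (l ∉ sp z \ sp (lo F) ∧ l ∉ sp (hi F) \ sp z) := by
  simp only [mem_sdiff, mem_sp]
  have h1 : lo F l = (F l).getD false := rfl
  have h2 : hi F l = (F l).getD true := rfl
  rcases hF : F l with _ | b
  · rw [hF] at h1 h2
    simp only [Option.getD_none] at h1 h2
    rw [h1, h2]
    simp only [ne_eq, not_true_eq_false, false_iff]
    cases z l <;> simp
  · rw [hF] at h1 h2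
    simp only [Option.getD_some] at h1 h2
    rw [h1, h2]
    simp only [ne_eq, reduceCtorEq, not_false_eq_true, true_iff]
    have h3 := luz l
    have h4 := lzw l
    rw [h1] at h3
    rw [h2] at h4
    cases b <;> cases hz : z l <;> simp_all

theorem val_of {F : Face n} {z : V n} (luz : Le (lo F) z) (lzw : Le z (hi F)) (l : Fin n)
    (b : Bool) (hF : F l = some b) : z l = b := by
  have h1 : lo F l = b := by
    change (F l).getD false = b
    rw [hF]; rfl
  have h2 : hi F l = b := by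
    change (F l).getD true = b
    rw [hF]; rfl
  have h3 := luz l
  have h4 := lzw l
  rw [h1] at h3
  rw [h2] at h4
  cases b
  · by_contra hn
    have h5 : z l = true := by
      revert hn; cases z l <;> simp
    exact absurd (h4 h5) (by simp)
  · exact h3 rfl

theorem pos_of {F : Face n} (hA : AltF F) {z : V n} (luz : Le (lo F) z) (lzw : Le z (hi F)) :
    PosL bot (Equiv.refl _) z (sp z \ sp (lo F)) (sp (hi F) \ sp z) := by
  refine ⟨?_, ?_, ?_, ?_⟩
  · rw [Finset.disjoint_left]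
    intro l h1 h2
    rw [mem_sdiff] at h1 h2
    exact h2.2 h1.1
  · intro l hl
    rw [mem_sdiff, mem_sp] at hl
    rw [hl.1]
    simp [bot]
  · intro l hl
    rw [mem_sdiff, mem_sp, mem_sp] at hl
    rw [not_true' hl.2]
    rfl
  · intro l h1 h2
    have h3 := (free_iff luz lzw l).2 ⟨h1, h2⟩
    obtain ⟨b, hb⟩ := Option.ne_none_iff_exists'.1 h3
    rw [val_of luz lzw l b hb, hA l b hb]
    have h4 : fx F l = (univ.filter fun l' => (Equiv.refl (Fin n)) l' < (Equiv.refl (Fin n)) l ∧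
        l' ∉ sp z \ sp (lo F) ∧ l' ∉ sp (hi F) \ sp z).card := by
      unfold fx
      congr 1
      ext m
      rw [Finset.mem_filter, Finset.mem_filter, free_iff luz lzw m]
      simp only [mem_univ, true_and, Equiv.refl_apply]
    rw [← h4]
    simp [bot]

/-- the labelling theorem for the vertex `bot` and the natural order -/
theorem label_bot (h : Edg r b) (hK : ∀ z X Y, ¬ CritL r b bot (Equiv.refl _) z X Y) :
    ∃ x y, r x = r y ∧ b y = b (an x) := by
  by_contra hcon
  push Not at hcon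
  have Q := quad h.upd hcon
  refine label_core h.upd hcon fun k C c d hc hd => Phi_zero_alt k _ fun F hA => ?_
  by_contra huw
  have hn : wd (dd n) (ed r) (ed fun x => r (an x)) (ed b) (ed fun x => b (an x)) C ≠ 0 := by
    intro h0
    rw [h0] at huw
    exact huw rfl
  obtain ⟨h1, h2, h3, h4, h5⟩ := bad_sizes Q C c d hc hd hn
  have hdeg := Dg_mul (Dg_mul (Dg_om r (pA C false)) (Dg_om b (pB C false)))
    (Dg_mul (Dg_om (fun x => b (an x)) (pB C true)) (Dg_om (fun x => r (an x)) (pA C true)))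
    (lo F) (hi F) huw
  unfold wd at huw
  rw [Matrix.mul_apply] at huw
  obtain ⟨z, -, hz⟩ := Finset.exists_ne_zero_of_sum_ne_zero huw
  have g1 : WW r b (pA C false) (pB C false) (lo F) z ≠ 0 := left_ne_zero_of_mul hz
  have g2 : WW (fun x => r (an x)) (fun x => b (an x)) (pA C true) (pB C true) z (hi F) ≠ 0 := by
    rw [WW_comm h.an]
    exact right_ne_zero_of_mul hz
  have luz : Le (lo F) z := WW_inc _ _ _ z g1
  have lzw : Le z (hi F) := WW_inc _ _ z _ g2
  obtain ⟨p, hp, hp'⟩ := h5 false c (hc _) d (hd _)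
  refine hK z (sp z \ sp (lo F)) (sp (hi F) \ sp z) ⟨pos_of hA luz lzw, ?_, ?_, ?_, p, ?_, ?_⟩
  · have e1 : sp (lo F) ⊆ sp z := by
      intro l hl
      rw [mem_sp] at hl ⊢
      exact luz l hl
    have e2 : sp z ⊆ sp (hi F) := by
      intro l hl
      rw [mem_sp] at hl ⊢
      exact lzw l hl
    rw [Finset.card_sdiff_of_subset e1, Finset.card_sdiff_of_subset e2]
    have e3 := Finset.card_le_card e1
    have e4 := Finset.card_le_card e2
    obtain ⟨s, h3⟩ := h3
    obtain ⟨t, h4⟩ := h4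
    have a1 := h1 false
    have a2 := h1 true
    have a3 := h2 false
    have a4 := h2 true
    have a5 : 5 ≤ (pA C false).card + (pA C true).card := by
      cases s <;> omega
    have a6 : 5 ≤ (pB C false).card + (pB C true).card := by
      cases t <;> omega
    have e5 : cnt (hi F) = (sp (hi F)).card := rfl
    have e6 : cnt (lo F) = (sp (lo F)).card := rfl
    omega
  · intro m hm
    rw [mem_sdiff, mem_sp, mem_sp] at hm
    obtain ⟨x', k, hF, hI⟩ := side_dir h _ _ _ z g1 (h1 _) (h2 _) m (not_true' hm.2) hm.1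
    exact ⟨x', k, hF, sub_of_In hI⟩
  · intro m hm
    rw [mem_sdiff, mem_sp, mem_sp] at hm
    obtain ⟨x', k, hF, hI⟩ := side_dir h.an _ _ z _ g2 (h1 _) (h2 _) m (not_true' hm.2) hm.1
    exact ⟨an x', k, hF.imp FaceL.an FaceL.an, sub_of_In' lzw hI⟩
  · refine ob_of h _ _ _ _ _ z _ lzw g1 g2 c (hc _) (hc _) d (hd _) (hd _) (h1 _) (h1 _) (h2 _)
      (h2 _) ?_ p hp hp'
    obtain ⟨s, h3⟩ := h3
    cases s
    · exact Or.inl h3
    · exact Or.inr h3
  · rw [WW_comm h] at g1
    rw [WW_comm h.an] at g2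
    refine ob_of h.swap _ _ _ _ _ z _ lzw g1 g2 d (hd _) (hd _) c (hc _) (hc _) (h2 _) (h2 _)
      (h1 _) (h1 _) ?_ p hp' hp
    obtain ⟨t, h4⟩ := h4
    cases t
    · exact Or.inl h4
    · exact Or.inr h4

/-! ### permutations of the directions and translations -/

/-- permutation of the directions and translation by `e` -/
def ph (e : V n) (π : Equiv.Perm (Fin n)) (x : V n) : V n := fun l => xor (x (π l)) (e l)

theorem ph_flip (e : V n) (π : Equiv.Perm (Fin n)) (x : V n) (i : Fin n) :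
    ph e π (AntiPath.flip x i) = AntiPath.flip (ph e π x) (π.symm i) := by
  funext l
  by_cases h : l = π.symm i
  · subst h
    simp only [ph, AntiPath.flip_same, Equiv.apply_symm_apply]
    cases x i <;> cases e (π.symm i) <;> rfl
  · have h1 : π l ≠ i := fun h' => h (by rw [← h', Equiv.symm_apply_apply])
    rw [AntiPath.flip_ne _ h]
    simp only [ph]
    rw [AntiPath.flip_ne _ h1]

theorem ph_an (e : V n) (π : Equiv.Perm (Fin n)) (x : V n) : ph e π (an x) = an (ph e π x) := by
  funext l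
  simp only [ph, an]
  cases x (π l) <;> cases e l <;> rfl

/-- the image of a set of directions -/
def mp (π : Equiv.Perm (Fin n)) (I : Finset (Fin n)) : Finset (Fin n) :=
  I.map π.symm.toEmbedding

theorem mem_mp {π : Equiv.Perm (Fin n)} {I : Finset (Fin n)} {l : Fin n} :
    l ∈ mp π I ↔ π l ∈ I := by
  unfold mp
  rw [Finset.mem_map_equiv, Equiv.symm_symm]

theorem mp_two {π : Equiv.Perm (Fin n)} {i k : Fin n} :
    mp π {i, k} = {π.symm i, π.symm k} := by
  simp [mp]

theorem mp_three {π : Equiv.Perm (Fin n)} {i j k : Fin n} :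
    mp π {i, j, k} = {π.symm i, π.symm j, π.symm k} := by
  simp [mp]

section

variable {A B : Type*} {r : V n → A} {b : V n → B} {e : V n} {π : Equiv.Perm (Fin n)}

theorem FaceL.ph {x : V n} {i k : Fin n}
    (h : FaceL (fun x => r (ph e π x)) (fun x => b (ph e π x)) x i k) :
    FaceL r b (ph e π x) (π.symm i) (π.symm k) := by
  unfold FaceL at h ⊢
  simp only [ph_flip] at h
  exact ⟨fun h' => h.1 (π.symm.injective h'), h.2⟩

theorem ThreeL.ph {x : V n} {i j k : Fin n}
    (hF : ThreeL (fun x => r (ph e π x)) (fun x => b (ph e π x)) x i j k) :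
    ThreeL r b (ph e π x) (π.symm i) (π.symm j) (π.symm k) := by
  obtain ⟨h1, h2, h3, h4, h5, h6, h7⟩ := hF
  simp only [ph_flip] at h7
  refine ⟨fun h' => h1 (π.symm.injective h'), fun h' => h2 (π.symm.injective h'),
    fun h' => h3 (π.symm.injective h'), h4.ph, h5.ph, ?_, h7⟩
  rw [← ph_flip]
  exact h6.ph

theorem MeetL.ph {p x : V n} {I : Finset (Fin n)}
    (h : MeetL (fun x => r (ph e π x)) (fun x => b (ph e π x)) p x I) :
    MeetL r b (ph e π p) (ph e π x) (mp π I) := by
  obtain ⟨v, h1, h2, h3⟩ := h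
  refine ⟨NorK.ph e π v, fun l hl => ?_, h2, h3⟩
  rw [mem_mp] at hl
  simp only [NorK.ph]
  rw [h1 _ hl]

theorem Sub.ph {e' : V n} {Z I : Finset (Fin n)} {x : V n} (h : Sub e' Z x I) :
    Sub (ph e π e') (mp π Z) (ph e π x) (mp π I) := by
  intro l hl
  rw [mem_mp] at hl
  obtain ⟨h1, h2⟩ := h _ hl
  rw [mem_mp]
  refine ⟨h1, ?_⟩
  simp only [NorK.ph]
  rw [h2]

theorem LinkL.ph {p e' e'' : V n} {Z Z' : Finset (Fin n)}
    (h : LinkL (fun x => r (ph e π x)) (fun x => b (ph e π x)) p e' Z e'' Z') :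
    LinkL r b (ph e π p) (ph e π e') (mp π Z) (ph e π e'') (mp π Z') := by
  obtain ⟨⟨x, i, j, k, h1, h2, h3⟩, y, l, m, h4, h5, h6⟩ := h
  refine ⟨⟨_, _, _, _, h1.ph, ?_, ?_⟩, _, _, _, h4.ph, ?_, ?_⟩
  · rw [← mp_three]; exact h2.ph
  · rw [← mp_three]; exact h3.ph
  · rw [← mp_two]; exact h5.ph
  · rw [← mp_two]; exact h6.ph

theorem DirL.ph {e' : V n} {Z : Finset (Fin n)}
    (h : DirL (fun x => r (ph e π x)) (fun x => b (ph e π x)) e' Z) :
    DirL r b (ph e π e') (mp π Z) := by
  intro i hi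
  rw [mem_mp] at hi
  obtain ⟨x, k, h1, h2⟩ := h _ hi
  refine ⟨NorK.ph e π x, π.symm k, ?_, ?_⟩
  · rcases h1 with h1 | h1
    · left
      have := h1.ph
      rwa [Equiv.symm_apply_apply] at this
    · right
      have := h1.ph
      rwa [Equiv.symm_apply_apply] at this
  · have h3 := h2.ph (e := e) (π := π)
    rwa [mp_two, Equiv.symm_apply_apply] at h3

theorem PosL.ph {z : V n} {X Y : Finset (Fin n)} (h : PosL bot (Equiv.refl _) z X Y) :
    PosL e π (ph e π z) (mp π X) (mp π Y) := by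
  obtain ⟨h1, h2, h3, h4⟩ := h
  refine ⟨?_, ?_, ?_, ?_⟩
  · rw [Finset.disjoint_left] at h1 ⊢
    intro l hl hl'
    rw [mem_mp] at hl hl'
    exact h1 hl hl'
  · intro l hl
    rw [mem_mp] at hl
    have h5 := h2 _ hl
    simp only [NorK.ph]
    have h6 : z (π l) = true := by
      revert h5; unfold bot; cases z (π l) <;> simp
    rw [h6]
    cases e l <;> simp
  · intro l hl
    rw [mem_mp] at hl
    have h5 : z (π l) = false := h3 _ hl
    simp only [NorK.ph]
    rw [h5]
    cases e l <;> simp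
  · intro l hl hl'
    rw [mem_mp] at hl hl'
    have h5 := h4 _ hl hl'
    have h6 : NorK.ph e π z l ≠ e l ↔ z (π l) ≠ bot (π l) := by
      simp only [NorK.ph, bot]
      cases z (π l) <;> cases e l <;> simp
    rw [h6, h5]
    have h7 : (univ.filter fun l' => π l' < π l ∧ l' ∉ mp π X ∧ l' ∉ mp π Y).card =
        (univ.filter fun m => (Equiv.refl (Fin n)) m < (Equiv.refl (Fin n)) (π l) ∧ m ∉ X ∧
          m ∉ Y).card := by
      refine Finset.card_bij (fun l' _ => π l') ?_ ?_ ?_
      · intro l' hl'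
        have h8 := (Finset.mem_filter.1 hl').2
        rw [mem_mp, mem_mp] at h8
        exact Finset.mem_filter.2 ⟨mem_univ _, h8⟩
      · intro l1 _ l2 _ h
        exact π.injective h
      · intro m hm
        refine ⟨π.symm m, ?_, Equiv.apply_symm_apply _ _⟩
        have h8 := (Finset.mem_filter.1 hm).2
        refine Finset.mem_filter.2 ⟨mem_univ _, ?_⟩
        rw [mem_mp, mem_mp, Equiv.apply_symm_apply]
        exact h8
    rw [h7]

end

theorem card_mp (π : Equiv.Perm (Fin n)) (I : Finset (Fin n)) : (mp π I).card = I.card :=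
  Finset.card_map _

/-- **The labelling theorem.**  Every edge is constant for one of the two labellings. -/
theorem label_final (h : Edg r b) (hK : ∃ e π, ∀ z X Y, ¬ CritL r b e π z X Y) :
    ∃ x y, r x = r y ∧ b y = b (an x) := by
  obtain ⟨e, π, hK⟩ := hK
  obtain ⟨x, y, hx, hy⟩ := label_bot (r := fun x => r (ph e π x)) (b := fun x => b (ph e π x))
    (fun x i => by
      simp only [ph_flip]
      exact h _ _) fun z X Y hZ => by
      obtain ⟨h1, h2, h3, h4, p, h5, h6⟩ := hZ
      refine hK (ph e π z) (mp π X) (mp π Y) ⟨h1.ph, ?_, h3.ph, ?_, ph e π p, ?_, ?_⟩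
      · rw [card_mp, card_mp]; exact h2
      · rw [← ph_an]; exact h4.ph
      · rw [← ph_an]; exact h5.imp LinkL.ph LinkL.ph
      · rw [← ph_an]; exact h6.imp LinkL.ph LinkL.ph
  refine ⟨ph e π x, ph e π y, hx, ?_⟩
  rw [← ph_an]
  exact hy

end Pool.Agent.NorK
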