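import Pool.Agent.Nor.Words

set_option autoImplicit false

/-!
# MP_615643_co: cells with four sets of labels and a free involution

A cell is a finite set `C` of labels.  `dl` is the coboundary modulo two.  `no_free` is the
Borsuk-Ulam type lemma: there is no family of elements `w C` which is compatible with
the boundary on the proper cells, with an involution `T` of the cells and with the
antiautomorphism `tau`, when `T` has no fixed cell in a closed family of proper cells which
contains the support of `w`.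
-/

namespace Pool.Agent.NorK

open Finset

section

variable {Λ : Type*} [DecidableEq Λ]

/-- the coboundary modulo two -/
def dl (θ : Finset Λ → ZMod 2) (C : Finset Λ) : ZMod 2 := ∑ a ∈ C, θ (C.erase a)

theorem sum_pairs_zero {α : Type*} [DecidableEq α] (s : Finset α) (f : α → α → ZMod 2)
    (h1 : ∀ i j, f i j = f j i) : ∑ i ∈ s, ∑ j ∈ s.erase i, f i j = 0 := by
  have h : ∀ i ∈ s, ∑ j ∈ s.erase i, f i j = ∑ j ∈ s, if i ≠ j then f i j else 0 := by
    intro i hi
    rw [← Finset.sum_filter]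
    refine Finset.sum_congr ?_ fun _ _ => rfl
    ext j
    simp only [mem_erase, mem_filter]
    constructor
    · rintro ⟨a, b⟩; exact ⟨b, Ne.symm a⟩
    · rintro ⟨a, b⟩; exact ⟨Ne.symm b, a⟩
  rw [Finset.sum_congr rfl h, ← Finset.sum_product']
  refine Finset.sum_involution (fun p _ => (p.2, p.1)) ?_ ?_ ?_ ?_
  · rintro ⟨i, j⟩ _
    simp only [ne_eq]
    by_cases hij : i = j
    · simp [hij]
    · rw [if_pos hij, if_pos (Ne.symm hij), h1 j i]
      exact CharTwo.add_self_eq_zero _
  · rintro ⟨i, j⟩ _ hij h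
    simp only [Prod.mk.injEq] at h
    apply hij
    simp [h.1]
  · rintro ⟨i, j⟩ hij
    simp only [mem_product] at hij ⊢
    exact ⟨hij.2, hij.1⟩
  · rintro ⟨i, j⟩ _
    rfl

theorem dl_dl (θ : Finset Λ → ZMod 2) (C : Finset Λ) : dl (dl θ) C = 0 :=
  sum_pairs_zero C (fun a b => θ ((C.erase a).erase b)) fun a b => by
    rw [Finset.erase_right_comm]

theorem dl_add (θ θ' : Finset Λ → ZMod 2) (C : Finset Λ) :
    dl (fun C => θ C + θ' C) C = dl θ C + dl θ' C := by
  unfold dl
  rw [Finset.sum_add_distrib]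

end

section

variable {R : Type*} [Ring R] [Algebra (ZMod 2) R] {Λ : Type*} [Fintype Λ] [DecidableEq Λ]

omit [Algebra (ZMod 2) R] in
theorem sum_erase_insert (f : Finset Λ → Finset Λ → R) :
    ∑ σ : Finset Λ, ∑ a ∈ σ, f (σ.erase a) σ =
      ∑ σ : Finset Λ, ∑ a ∈ σᶜ, f σ (insert a σ) := by
  have h1 : ∀ σ : Finset Λ, ∑ a ∈ σ, f (σ.erase a) σ =
      ∑ a, if a ∈ σ then f (σ.erase a) σ else 0 := by
    intro σ
    rw [← Finset.sum_filter]
    refine Finset.sum_congr ?_ fun _ _ => rfl
    ext a; simp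
  have h2 : ∀ σ : Finset Λ, ∑ a ∈ σᶜ, f σ (insert a σ) =
      ∑ a, if a ∈ σ then 0 else f σ (insert a σ) := by
    intro σ
    rw [← Finset.sum_filter_add_sum_filter_not univ (fun a => a ∈ σ)
      (fun a => if a ∈ σ then 0 else f σ (insert a σ))]
    rw [Finset.sum_eq_zero (s := univ.filter fun a => a ∈ σ) (fun a ha => by
      rw [if_pos (by simpa using ha)]), zero_add]
    refine Finset.sum_congr ?_ fun a ha => ?_
    · ext a; simp
    · rw [if_neg (by simpa using ha)]
  simp only [h1, h2]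
  rw [Finset.sum_comm, Finset.sum_comm (s := (univ : Finset (Finset Λ)))]
  refine Finset.sum_congr rfl fun a _ => ?_
  rw [← Finset.sum_filter]
  have h3 : ∑ σ : Finset Λ, (if a ∈ σ then 0 else f σ (insert a σ)) =
      ∑ σ ∈ univ.filter (fun σ : Finset Λ => a ∉ σ), f σ (insert a σ) := by
    rw [Finset.sum_filter]
    refine Finset.sum_congr rfl fun σ _ => ?_
    by_cases h : a ∈ σ <;> simp [h]
  rw [h3]
  refine Finset.sum_nbij' (fun σ => σ.erase a) (fun σ => insert a σ) ?_ ?_ ?_ ?_ ?_
  · intro σ hσ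
    simp
  · intro σ hσ
    simp
  · intro σ hσ
    simp only [mem_filter, mem_univ, true_and] at hσ
    exact Finset.insert_erase hσ
  · intro σ hσ
    simp only [mem_filter, mem_univ, true_and] at hσ
    exact Finset.erase_insert hσ
  · intro σ hσ
    simp only [mem_filter, mem_univ, true_and] at hσ
    rw [Finset.insert_erase hσ]

theorem adj (θ : Finset Λ → ZMod 2) (w : Finset Λ → R) :
    ∑ C, dl θ C • w C = ∑ C : Finset Λ, θ C • ∑ a ∈ Cᶜ, w (insert a C) := by
  unfold dl
  simp only [Finset.sum_smul, Finset.smul_sum]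
  exact sum_erase_insert fun σ σ' => θ σ • w σ'

end

section free

variable {Λ : Type*} [Fintype Λ] [DecidableEq Λ]

/-- a linear order of the cells -/
def lts (C C' : Finset Λ) : Prop :=
  Fintype.equivFin (Finset Λ) C < Fintype.equivFin (Finset Λ) C'

omit [DecidableEq Λ] in
theorem lts_iff {C C' : Finset Λ} (h : C ≠ C') : lts C C' ↔ ¬ lts C' C := by
  unfold lts
  rw [not_lt]
  constructor
  · exact le_of_lt
  · intro h1
    exact lt_of_le_of_ne h1 fun h2 => h ((Fintype.equivFin (Finset Λ)).injective h2)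

open Classical in
/-- the cochains -/
noncomputable def th (T : Finset Λ → Finset Λ) (L : Finset Λ → Prop) (ε : Finset Λ → ZMod 2) :
    ℕ → Finset Λ → ZMod 2
  | 0 => fun C => if L C ∧ lts C (T C) then ε C else 0
  | k + 1 => fun C => if L C ∧ lts C (T C) then dl (th T L ε k) C else 0

/-- `T` is an involution of the cells, `P` the family of the proper cells, `L` a closed family of
proper cells without fixed cells of `T`, and `ε` an invariant cocycle on the proper cells -/
structure Cx (T : Finset Λ → Finset Λ) (P L : Finset Λ → Prop) (ε : Finset Λ → ZMod 2) :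
    Prop where
  hT : ∀ C, T (T C) = C
  hTdl : ∀ θ C, dl θ (T C) = dl (fun C => θ (T C)) C
  hε : ∀ C, ε (T C) = ε C
  hεP : ∀ C, ¬ P C → ε C = 0
  hεd : ∀ C, dl ε C = 0
  hP : ∀ C, ¬ P C → ∀ a ∈ C, ¬ P (C.erase a)
  hTL : ∀ C, L C → L (T C)
  hLP : ∀ C, L C → P C
  hL : ∀ C, L C → ∀ a ∈ C, P (C.erase a) → L (C.erase a)
  hfree : ∀ C, L C → T C ≠ C

variable {T : Finset Λ → Finset Λ} {P L : Finset Λ → Prop} {ε : Finset Λ → ZMod 2}

theorem th_not (k : ℕ) (C : Finset Λ) (h : ¬ L C) : th T L ε k C = 0 := by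
  cases k with
  | zero => exact if_neg fun h' => h h'.1
  | succ k => exact if_neg fun h' => h h'.1

theorem th_zero (X : Cx T P L ε) (C : Finset Λ) (hC : L C) :
    th T L ε 0 C + th T L ε 0 (T C) = ε C := by
  have h1 : L (T C) := X.hTL C hC
  have h2 := lts_iff (X.hfree C hC)
  by_cases h : lts (T C) C
  · have e1 : th T L ε 0 C = 0 := if_neg fun h' => h2.1 h h'.2
    have e2 : th T L ε 0 (T C) = ε (T C) := if_pos ⟨h1, by rw [X.hT]; exact h⟩
    rw [e1, e2, X.hε, zero_add]
  · have e1 : th T L ε 0 C = ε C := if_pos ⟨hC, by by_contra h3; exact h (h2.2 h3)⟩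
    have e2 : th T L ε 0 (T C) = 0 := if_neg fun h' => h (by have := h'.2; rwa [X.hT] at this)
    rw [e1, e2, add_zero]

theorem th_succ (X : Cx T P L ε) (k : ℕ)
    (hinv : ∀ C, L C → dl (th T L ε k) (T C) = dl (th T L ε k) C)
    (C : Finset Λ) (hC : L C) :
    th T L ε (k + 1) C + th T L ε (k + 1) (T C) = dl (th T L ε k) C := by
  have h1 : L (T C) := X.hTL C hC
  have h2 := lts_iff (X.hfree C hC)
  by_cases h : lts (T C) C
  · have e1 : th T L ε (k + 1) C = 0 := if_neg fun h' => h2.1 h h'.2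
    have e2 : th T L ε (k + 1) (T C) = dl (th T L ε k) (T C) :=
      if_pos ⟨h1, by rw [X.hT]; exact h⟩
    rw [e1, e2, hinv C hC, zero_add]
  · have e1 : th T L ε (k + 1) C = dl (th T L ε k) C :=
      if_pos ⟨hC, by by_contra h3; exact h (h2.2 h3)⟩
    have e2 : th T L ε (k + 1) (T C) = 0 :=
      if_neg fun h' => h (by have := h'.2; rwa [X.hT] at this)
    rw [e1, e2, add_zero]

omit [Fintype Λ] in
theorem dl_faces (X : Cx T P L ε) {θ θ' : Finset Λ → ZMod 2} (C : Finset Λ) (hC : L C)
    (h1 : ∀ C, L C → θ C = θ' C) (h2 : ∀ C, ¬ P C → θ C = θ' C) : dl θ C = dl θ' C := by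
  unfold dl
  refine Finset.sum_congr rfl fun a ha => ?_
  by_cases h : P (C.erase a)
  · exact h1 _ (X.hL C hC a ha h)
  · exact h2 _ h

omit [Fintype Λ] in
theorem dl_np (X : Cx T P L ε) (θ : Finset Λ → ZMod 2) (h : ∀ C, ¬ P C → θ C = 0)
    (C : Finset Λ) (hC : ¬ P C) : dl θ C = 0 :=
  sum_eq_zero fun a ha => h _ (X.hP C hC a ha)

theorem th_inv (X : Cx T P L ε) (k : ℕ) (C : Finset Λ) (hC : L C) :
    dl (th T L ε k) (T C) = dl (th T L ε k) C := by
  have hE : ∀ k (C : Finset Λ), ¬ P C → th T L ε k C = 0 := fun k C h =>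
    th_not k C fun h' => h (X.hLP C h')
  have hE' : ∀ k (C : Finset Λ), ¬ P C → th T L ε k (T C) = 0 := fun k C h =>
    th_not k _ fun h' => h (X.hLP C (by rw [← X.hT C]; exact X.hTL _ h'))
  have key : ∀ k, (∀ C, L C → dl (fun C => th T L ε k C + th T L ε k (T C)) C = 0) →
      ∀ C, L C → dl (th T L ε k) (T C) = dl (th T L ε k) C := by
    intro k hk C hC
    have h1 := hk C hC
    rw [dl_add, ← X.hTdl] at h1
    have h3 : dl (th T L ε k) (T C) + (dl (th T L ε k) C + dl (th T L ε k) (T C)) =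
        dl (th T L ε k) C := by
      rw [add_comm (dl (th T L ε k) C), ← add_assoc, CharTwo.add_self_eq_zero, zero_add]
    rw [h1, add_zero] at h3
    exact h3
  induction k generalizing C with
  | zero =>
    refine key 0 (fun C hC => ?_) C hC
    rw [← X.hεd C]
    refine dl_faces X C hC (fun C hC => th_zero X C hC) ?_
    intro C hC
    rw [hE 0 C hC, hE' 0 C hC, X.hεP C hC, add_zero]
  | succ k ih =>
    refine key (k + 1) (fun C hC => ?_) C hC
    rw [← dl_dl (th T L ε k) C]
    refine dl_faces X C hC (fun C hC => th_succ X k ih C hC) ?_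
    intro C hC
    rw [hE _ C hC, hE' _ C hC, dl_np X _ (hE k) C hC, add_zero]

/-- The lemma of Borsuk-Ulam type. -/
theorem no_free {R : Type*} [Ring R] [Algebra (ZMod 2) R] (X : Cx T P L ε) (D : R)
    (tau : R →+ R) (w : Finset Λ → R) (n : ℕ) (Phi : ℕ → R →+ ZMod 2)
    (hw : ∀ k C, ¬ L C → Phi k (w C) = 0)
    (hbd : ∀ C : Finset Λ, P C → ∑ a ∈ Cᶜ, w (insert a C) = D * w C + w C * D)
    (htau : ∀ C, tau (w C) = w (T C)) (hone : ∑ C, ε C • w C = 1)
    (S : AddSubgroup R) (hS : ∀ C, w C ∈ S) (h1 : Phi 0 1 = 1)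
    (hstep : ∀ k, ∀ r ∈ S, Phi (k + 1) (D * r + r * D) = Phi k (r + tau r))
    (hlast : ∀ r, Phi (n + 1) r = 0) : False := by
  have hE : ∀ k (C : Finset Λ), ¬ P C → th T L ε k C = 0 := fun k C h =>
    th_not k C fun h' => h (X.hLP C h')
  have hz : ∀ z : ZMod 2, z = 0 ∨ z = 1 := by decide
  let B : ℕ → R := fun k => ∑ C, th T L ε k C • w C
  have hBS : ∀ k, B k ∈ S := by
    intro k
    refine AddSubgroup.sum_mem _ fun C _ => ?_
    rcases hz (th T L ε k C) with h | h
    · rw [h, zero_smul]; exact S.zero_mem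
    · rw [h, one_smul]; exact hS C
  have hsmul : ∀ (z : ZMod 2) (r : R), tau (z • r) = z • tau r := by
    intro z r
    rcases hz z with h | h
    · rw [h, zero_smul, zero_smul, map_zero]
    · rw [h, one_smul, one_smul]
  have hPs : ∀ (k : ℕ) (z : ZMod 2) (r : R), Phi k (z • r) = z * Phi k r := by
    intro k z r
    rcases hz z with h | h
    · rw [h, zero_smul, zero_mul, map_zero]
    · rw [h, one_smul, one_mul]
  have htB : ∀ k, tau (B k) = ∑ C, th T L ε k (T C) • w C := by
    intro k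
    have : ∑ C, th T L ε k (T C) • w C = ∑ C, th T L ε k C • w (T C) := by
      refine Fintype.sum_bijective T ⟨?_, ?_⟩ _ _ fun C => by rw [X.hT]
      · intro a b hab
        rw [← X.hT a, ← X.hT b, hab]
      · intro b
        exact ⟨T b, X.hT b⟩
    rw [this, map_sum]
    refine Finset.sum_congr rfl fun C _ => ?_
    rw [hsmul, htau]
  have hstep' : ∀ k, Phi (k + 1) (D * B k + B k * D) =
      Phi (k + 1) (B (k + 1) + tau (B (k + 1))) := by
    intro k
    have e1 : D * B k + B k * D = ∑ C, dl (th T L ε k) C • w C := by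
      rw [adj, Finset.mul_sum, Finset.sum_mul, ← Finset.sum_add_distrib]
      refine Finset.sum_congr rfl fun C _ => ?_
      by_cases hC : P C
      · rw [hbd C hC, smul_add, mul_smul_comm, smul_mul_assoc]
      · rw [hE k C hC]; simp
    rw [e1, htB, ← Finset.sum_add_distrib, map_sum, map_sum]
    refine Finset.sum_congr rfl fun C _ => ?_
    by_cases hC : L C
    · rw [← add_smul, th_succ X k (fun C hC => th_inv X k C hC) C hC]
    · rw [← add_smul, hPs, hPs, hw _ C hC, mul_zero, mul_zero]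
  have hB0 : Phi 0 (B 0 + tau (B 0)) = Phi 0 1 := by
    rw [htB, ← Finset.sum_add_distrib, ← hone, map_sum, map_sum]
    refine Finset.sum_congr rfl fun C _ => ?_
    by_cases hL : L C
    · rw [← add_smul, th_zero X C hL]
    · rw [← add_smul, hPs, hPs, hw _ C hL, mul_zero, mul_zero]
  have h3 : ∀ k, Phi k (B k + tau (B k)) = 1 := by
    intro k
    induction k with
    | zero => rw [hB0, h1]
    | succ k ih => rw [← hstep' k, hstep k _ (hBS k), ih]
  have h4 := h3 (n + 1)
  rw [hlast] at h4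
  exact zero_ne_one h4

end free

end Pool.Agent.NorK
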