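import Pool.Agent.NorK.Bad

set_option autoImplicit false

/-!
# MP_615643_co: the labelling theorem

`r` and `b` are two labellings of the vertices of the cube such that every edge is constant for
one of them.  If the words with repeated labels of both kinds vanish then there are vertices `x`,
`y` with `r x = r y` and `b y = b (an x)`.
-/

namespace Pool.Agent.NorK

open Finset Pool.Agent.TwoCh Pool.Agent.Nor

variable {n N M : ℕ}

/-- number of the coordinates with the value `true` -/
def cnt (x : V n) : ℕ := (univ.filter fun i => x i = true).card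

/-- all nonzero entries join levels of the cube whose difference is `k` -/
def Dg (k : ℕ) (X : Mx n) : Prop := ∀ x y, X x y ≠ 0 → cnt y = cnt x + k

theorem Dg_mul {k l : ℕ} {X Y : Mx n} (hX : Dg k X) (hY : Dg l Y) : Dg (k + l) (X * Y) := by
  intro x y h
  rw [Matrix.mul_apply] at h
  obtain ⟨z, -, hz⟩ := Finset.exists_ne_zero_of_sum_ne_zero h
  rw [hY z y (right_ne_zero_of_mul hz), hX x z (left_ne_zero_of_mul hz), add_assoc]

theorem Dg_sum {ι : Type*} {k : ℕ} (s : Finset ι) {X : ι → Mx n} (hX : ∀ i ∈ s, Dg k (X i)) :
    Dg k (∑ i ∈ s, X i) := by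
  intro x y h
  rw [Matrix.sum_apply] at h
  obtain ⟨i, hi, hz⟩ := Finset.exists_ne_zero_of_sum_ne_zero h
  exact hX i hi x y hz

theorem Dg_dd : Dg 1 (dd n) := by
  intro x y h
  obtain ⟨i, hi, rfl⟩ := dd_ne_zero h
  unfold cnt
  have h1 : (univ.filter fun j => Function.update x i true j = true) =
      insert i (univ.filter fun j => x j = true) := by
    ext j
    simp only [mem_filter, mem_univ, true_and, mem_insert]
    by_cases hj : j = i
    · subst hj; simp
    · simp [hj]
  rw [h1, Finset.card_insert_of_notMem (by simp [hi])]

theorem Dg_ed {K : ℕ} (r : V n → Fin K) (a : Fin K) : Dg 0 (ed r a) := by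
  intro x y h
  unfold ed at h
  by_cases hxy : x = y
  · rw [hxy, add_zero]
  · exact absurd (Matrix.diagonal_apply_ne _ hxy) h

theorem Dg_om {K : ℕ} (r : V n → Fin K) (σ : Finset (Fin K)) :
    Dg (σ.card - 1) (om (dd n) (ed r) σ) := by
  induction hc : σ.card using Nat.strong_induction_on generalizing σ with
  | _ c ih =>
    rw [om_eq]
    refine Dg_sum _ fun a ha => ?_
    have h1 := Finset.card_erase_of_mem ha
    have h2 := Finset.card_pos.2 ⟨a, ha⟩
    unfold gg
    by_cases h : σ.erase a = ∅
    · rw [if_pos h, h, om_empty, mul_zero, add_zero, mul_one]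
      have h3 : c - 1 = 0 := by rw [← hc, ← h1, h, Finset.card_empty]
      rw [h3]
      exact Dg_ed r a
    · rw [if_neg h, zero_add]
      have h3 := Finset.card_pos.2 (Finset.nonempty_iff_ne_empty.2 h)
      have h4 := ih (σ.erase a).card (by omega) (σ.erase a) rfl
      have h5 : c - 1 = 0 + (1 + ((σ.erase a).card - 1)) := by omega
      rw [h5]
      exact Dg_mul (Dg_ed r a) (Dg_mul Dg_dd h4)

theorem Dg_zero {k : ℕ} {X : Mx n} (h : Dg k X) (hk : n < k) : X = 0 := by
  ext x y
  by_contra hn
  have h1 := h x y hn
  have h2 : cnt y ≤ n := by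
    unfold cnt
    exact (Finset.card_le_univ _).trans (by simp)
  omega

section

variable (r : V n → Fin N) (b : V n → Fin M)

/-- the graph of the pairs of labels -/
def HH (a : Fin N) (d : Fin M) : Prop := ∃ x, r x = a ∧ b x = d

variable {r b}

theorem edge_an (h : ∀ x i, x i = false → r x = r (Function.update x i true) ∨
      b x = b (Function.update x i true)) (x : V n) (i : Fin n) (hi : x i = false) :
    r (an x) = r (an (Function.update x i true)) ∨ b (an x) = b (an (Function.update x i true)) := by
  have h1 : an (Function.update x i true) i = false := by simp [an]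
  have h2 : Function.update (an (Function.update x i true)) i true = an x := by
    funext j
    by_cases hj : j = i
    · subst hj; simp [an, hi]
    · simp [an, Function.update_of_ne hj]
  have h3 := h _ i h1
  rw [h2] at h3
  exact h3.imp Eq.symm Eq.symm

theorem ed_comm {K K' : ℕ} (g : V n → Fin K) (g' : V n → Fin K') (a : Fin K) (a' : Fin K') :
    ed g a * ed g' a' = ed g' a' * ed g a := by
  unfold ed
  rw [Matrix.diagonal_mul_diagonal, Matrix.diagonal_mul_diagonal]
  congr 1
  funext x
  exact mul_comm _ _

/-- The relations between the labels and the antipodal labels of one kind. -/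
theorem anti (h : ∀ x i, x i = false → r x = r (Function.update x i true) ∨
      b x = b (Function.update x i true)) (hcon : ∀ x y, r x = r y → b y ≠ b (an x)) :
    Anti (dd n) (ed r) (ed fun x => r (an x)) := by
  have z0 : ∀ x, r x ≠ r (an x) := fun x hx => hcon x (an x) hx rfl
  have z1 : ∀ x i, x i = false → r x ≠ r (an (Function.update x i true)) := by
    intro x i hi hx
    rcases h x i hi with h1 | h1
    · exact z0 _ (h1.symm.trans hx)
    · refine hcon _ _ hx.symm ?_
      rw [an_an]
      exact h1
  refine ⟨fun a a' => ed_comm _ _ _ _, ?_, ?_, ?_⟩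
  · intro c
    exact ed_mul_zero _ _ c c fun x hx hx' => z0 x (hx.trans hx'.symm)
  · intro c
    ext x y
    rw [mul_ed_apply, ed_mul_apply, Matrix.zero_apply]
    split_ifs with h1 h2
    · by_contra hn
      obtain ⟨i, hi, rfl⟩ := dd_ne_zero hn
      exact z1 x i hi (h2.trans h1.symm)
    · rfl
    · rfl
  · intro c p q
    ext x y
    rw [mul_ed_apply, Matrix.zero_apply]
    split_ifs with hy
    · rw [mul_assoc, mul_assoc, ed_mul_apply]
      split_ifs with hx
      · rw [mul_assoc (ed r p), Matrix.mul_apply]
        have h2 : ∀ z, dd n x z * (ed r p * (ed (fun x => r (an x)) q * dd n)) z y =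
            (if r y = p then if r (an x) = q then 1 else 0 else 0) * (dd n x z * dd n z y) := by
          intro z
          rw [ed_mul_apply, ed_mul_apply]
          by_cases h3 : dd n x z = 0
          · rw [h3]; simp
          by_cases h4 : dd n z y = 0
          · rw [h4]; simp
          obtain ⟨i, hi, hz⟩ := dd_ne_zero h3
          obtain ⟨j, hj, hyz⟩ := dd_ne_zero h4
          have e1 : r z ≠ c := by
            intro h5
            have := z1 z j hj
            rw [← hyz] at this
            exact this (h5.trans hy.symm)
          have e2 : r (an z) ≠ c := by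
            intro h5
            have := z1 x i hi
            rw [← hz] at this
            exact this (hx.trans h5.symm)
          have e3 : b x ≠ b y := by
            have := hcon (an y) x (hy.trans hx.symm)
            rwa [an_an] at this
          have e4 : b (an x) ≠ b (an y) := (hcon x (an y) (hx.trans hy.symm)).symm
          have f1 : r z = r y := by
            rcases h x i hi with h5 | h5
            · rw [← hz, hx] at h5
              exact absurd h5.symm e1
            · rw [← hz] at h5
              rcases h z j hj with h6 | h6
              · rw [← hyz] at h6; exact h6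
              · rw [← hyz] at h6
                exact absurd (h5.trans h6) e3
          have f2 : r (an z) = r (an x) := by
            rcases edge_an h z j hj with h5 | h5
            · rw [← hyz, hy] at h5
              exact absurd h5 e2
            · rw [← hyz] at h5
              rcases edge_an h x i hi with h6 | h6
              · rw [← hz] at h6; exact h6.symm
              · rw [← hz] at h6
                exact absurd (h6.trans h5) e4
          rw [f1, f2]
          split_ifs <;> simp
        rw [Finset.sum_congr rfl fun z _ => h2 z, ← Finset.mul_sum, ← Matrix.mul_apply, dd_dd]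
        simp
      · rfl
    · rfl

theorem quad (h : ∀ x i, x i = false → r x = r (Function.update x i true) ∨
      b x = b (Function.update x i true)) (hcon : ∀ x y, r x = r y → b y ≠ b (an x)) :
    Quad (dd n) (ed r) (ed fun x => r (an x)) (ed b) (ed fun x => b (an x)) (HH r b) where
  S := sys r b h
  S' := sys _ _ (edge_an h)
  AA := anti h hcon
  AB := anti (fun x i hi => (h x i hi).symm) fun x y hb hr => by
    refine hcon (an x) y hr.symm ?_
    rw [an_an]
    exact hb.symm
  nH a d hn := ed_mul_zero _ _ a d fun x hx hx' => hn ⟨x, hx, hx'⟩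
  nH' a d hn := ed_mul_zero _ _ a d fun x hx hx' => hn ⟨an x, hx, hx'⟩
  c1 a d hH := ed_mul_zero _ _ a d fun x hx hx' => by
    obtain ⟨y, rfl, rfl⟩ := hH
    exact hcon x y hx hx'.symm
  c2 a d hH := ed_mul_zero _ _ d a fun x hx hx' => by
    obtain ⟨y, rfl, rfl⟩ := hH
    refine hcon (an x) y hx' ?_
    rw [an_an]
    exact hx.symm

theorem sum_bool_fun {K : ℕ} {R : Type*} [AddCommMonoid R] (g : Fin K → Fin K → R) :
    ∑ a : Bool → Fin K, g (a false) (a true) = ∑ x, ∑ y, g x y := by
  rw [← Fintype.sum_prod_type']
  exact Fintype.sum_equiv (Equiv.boolArrowEquivProd _) _ _ fun a => rfl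

theorem tau_wd (C : Finset (Lb N M)) :
    tau n (wd (dd n) (ed r) (ed fun x => r (an x)) (ed b) (ed fun x => b (an x)) C) =
      wd (dd n) (ed r) (ed fun x => r (an x)) (ed b) (ed fun x => b (an x)) (T C) := by
  have e1 : ∀ {K : ℕ} (g : V n → Fin K) (σ : Finset (Fin K)),
      tau n (om (dd n) (ed g) σ) = om (dd n) (ed fun x => g (an x)) σ := by
    intro K g σ
    rw [tau_om (dd n) (ed g) (tau n) tau_mul (tau_one n) (tau_dd n)]
    congr 1
    funext a
    exact tau_ed g a
  unfold wd
  rw [tau_mul, tau_mul, tau_mul, e1, e1, e1, e1, pA_T, pA_T, pB_T, pB_T]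
  simp only [an_an, Bool.not_false, Bool.not_true]

/-- The labelling theorem, abstract form: the functionals vanish on the words with repeated
labels of both kinds. -/
theorem label_core (h : ∀ x i, x i = false → r x = r (Function.update x i true) ∨
      b x = b (Function.update x i true)) (hcon : ∀ x y, r x = r y → b y ≠ b (an x))
    (hK : ∀ (k : ℕ) (C : Finset (Lb N M)) (c : Fin N) (d : Fin M), (∀ s, c ∈ pA C s) →
      (∀ s, d ∈ pB C s) →
      Phi n k (wd (dd n) (ed r) (ed fun x => r (an x)) (ed b) (ed fun x => b (an x)) C) = 0) :
    False := by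
  have Q := quad h hcon
  refine no_free (cx (N := N) (M := M)) (dd n) (tau n)
    (wd (dd n) (ed r) (ed fun x => r (an x)) (ed b) (ed fun x => b (an x))) n
    (fun k => Phi n k) ?_ (fun C hC => wd_bd Q C hC) tau_wd ?_ (inc n).toAddSubgroup
    ?_ (Phi_one n) (fun k M hM => Phi_step k hM) (fun M => Phi_last n M)
  · intro k C hC
    by_cases hP : P C
    · have hB : Bad C := by
        by_contra hB
        exact hC ⟨hP, hB⟩
      obtain ⟨⟨c, hc⟩, d, hd⟩ := hB
      exact hK k C c d hc hd
    · have h0 : wd (dd n) (ed r) (ed fun x => r (an x)) (ed b) (ed fun x => b (an x)) C = 0 := by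
        unfold P at hP
        rw [not_and_or] at hP
        unfold wd
        rcases hP with hP | hP
        · push Not at hP
          obtain ⟨s, hs⟩ := hP
          cases s
          · rw [hs, om_empty, zero_mul, zero_mul]
          · rw [hs, om_empty, mul_zero, mul_zero]
        · push Not at hP
          obtain ⟨s, hs⟩ := hP
          cases s
          · rw [hs, om_empty, mul_zero, zero_mul]
          · rw [hs, om_empty, zero_mul, mul_zero]
      rw [h0, map_zero]
  · rw [sum_Si]
    unfold wd
    simp only [pA_mk, pB_mk, om_singleton]
    rw [Fintype.sum_prod_type]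
    have e1 : ∀ a : Bool → Fin N, ∑ d : Bool → Fin M, ed r (a false) * ed b (d false) *
        (ed (fun x => b (an x)) (d true) * ed (fun x => r (an x)) (a true)) =
        ed r (a false) * ed (fun x => r (an x)) (a true) := by
      intro a
      rw [sum_bool_fun fun x y => ed r (a false) * ed b x *
        (ed (fun x => b (an x)) y * ed (fun x => r (an x)) (a true))]
      simp only [← Finset.mul_sum, ← Finset.sum_mul, ed_sum, one_mul, mul_one]
    simp only [e1]
    rw [sum_bool_fun fun x y => ed r x * ed (fun x => r (an x)) y]
    simp only [← Finset.mul_sum, ed_sum, mul_one]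
  · intro C
    exact Subring.mul_mem _ (Subring.mul_mem _ (om_mem _ _) (om_mem _ _))
      (Subring.mul_mem _ (om_mem _ _) (om_mem _ _))

end

end Pool.Agent.NorK
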