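import Pool.Agent.NorK.Final
import Pool.Agent.NorK.Defs

set_option autoImplicit false

/-!
# MP_615643_co: paths with at most one change for colourings with few alternating faces
-/

namespace Pool.Agent.NorK

open Finset Pool.Agent.AntiPath Pool.Agent.TwoCh Pool.Agent.Nor

variable {n : ℕ} (c : (Fin n → Bool) → (Fin n → Bool) → Bool)

theorem joined_iff (hc : ∀ u v, c u v = c v u) (a : Bool) (x y : V n) :
    Joined c a x y ↔ lab c hc a x = lab c hc a y := by
  rw [lab_eq]
  constructor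
  · rintro ⟨k, p, rfl, rfl, h⟩
    induction k with
    | zero => exact SimpleGraph.Reachable.refl _
    | succ k ih =>
      refine (ih fun t ht => h t (by omega)).trans (SimpleGraph.Adj.reachable ?_)
      exact ⟨(h k (by omega)).1, (h k (by omega)).2⟩
  · rintro ⟨w⟩
    refine ⟨w.length, w.getVert, w.getVert_zero, w.getVert_length, fun t ht => ?_⟩
    exact w.adj_getVert_succ ht

theorem joined_edge (a : Bool) (x : V n) (i : Fin n) (h : c x (AntiPath.flip x i) = a) :
    Joined c a x (AntiPath.flip x i) := by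
  refine ⟨1, fun t => if t = 0 then x else AntiPath.flip x i, by simp, by simp, ?_⟩
  intro t ht
  have h0 : t = 0 := by omega
  subst h0
  exact ⟨⟨i, by simp⟩, by simpa using h⟩

theorem edg (hc : ∀ u v, c u v = c v u) (a : Bool) : Edg (lab c hc a) (lab c hc (!a)) := by
  intro x i
  by_cases h : c x (AntiPath.flip x i) = a
  · exact Or.inl ((joined_iff c hc a _ _).1 (joined_edge c a x i h))
  · exact Or.inr ((joined_iff c hc (!a) _ _).1 (joined_edge c (!a) x i (bool_ne h)))

theorem bool_ne' {u a : Bool} (h : u ≠ !a) : u = a := by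
  revert h
  cases u <;> cases a <;> simp

theorem Face.alt {c : (Fin n → Bool) → (Fin n → Bool) → Bool} {a : Bool} {x : V n}
    {i k : Fin n} (h : Face c a x i k) : Alt c a x i k := by
  obtain ⟨-, h1, h2, h3, h4⟩ := h
  refine ⟨?_, ?_, ?_, ?_⟩
  · exact bool_ne' fun h5 => h3 (joined_edge c _ _ _ h5)
  · exact bool_ne' fun h5 => h4 (joined_edge c _ _ _ h5)
  · exact bool_ne fun h5 => h1 (joined_edge c _ _ _ h5)
  · exact bool_ne fun h5 => h2 (joined_edge c _ _ _ h5)

theorem face_iff (hc : ∀ u v, c u v = c v u) (a : Bool) (x : V n) (i k : Fin n) :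
    Face c a x i k ↔ FaceL (lab c hc a) (lab c hc (!a)) x i k := by
  unfold Face FaceL
  simp only [joined_iff c hc, ne_eq]

theorem three_iff (hc : ∀ u v, c u v = c v u) (a : Bool) (x : V n) (i j k : Fin n) :
    Three c a x i j k ↔ ThreeL (lab c hc a) (lab c hc (!a)) x i j k := by
  unfold Three ThreeL
  simp only [joined_iff c hc, face_iff c hc, ne_eq]

theorem meets_iff (hc : ∀ u v, c u v = c v u) (a : Bool) (p x : V n) (I : Finset (Fin n)) :
    Meets c p x I ↔ MeetL (lab c hc a) (lab c hc (!a)) p x I := by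
  unfold Meets MeetL
  refine exists_congr fun v => and_congr Iff.rfl ?_
  simp only [joined_iff c hc]
  constructor
  · intro h
    exact ⟨h a, h (!a)⟩
  · rintro ⟨h1, h2⟩ a'
    by_cases h : a' = a
    · subst h; exact h1
    · rw [bool_ne h]; exact h2

theorem link_iff (hc : ∀ u v, c u v = c v u) (a : Bool) (p z : V n) (Z : Finset (Fin n))
    (z' : V n) (Z' : Finset (Fin n)) :
    Link c a p z Z z' Z' ↔ LinkL (lab c hc a) (lab c hc (!a)) p z Z z' Z' := by
  unfold Link LinkL
  simp only [face_iff c hc, three_iff c hc, meets_iff c hc a]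
  exact Iff.rfl

theorem dirs_of (hc : ∀ u v, c u v = c v u) (z : V n) (Z : Finset (Fin n))
    (h : DirL (lab c hc true) (lab c hc false) z Z) : Dirs c z Z := by
  intro i hi
  obtain ⟨x, k, h1, h2⟩ := h i hi
  rcases h1 with h1 | h1
  · exact ⟨true, x, k, (face_iff c hc true x i k).2 h1, h2⟩
  · exact ⟨false, x, k, (face_iff c hc false x i k).2 h1.swap, h2⟩

theorem critical_of (hc : ∀ u v, c u v = c v u) (e : V n) (π : Equiv.Perm (Fin n)) (z : V n)
    (X Y : Finset (Fin n)) (h : CritL (lab c hc true) (lab c hc false) e π z X Y) :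
    Critical c e π z X Y := by
  obtain ⟨h0, h1, h2, h3, p, h4, h5⟩ := h
  refine ⟨h0, h1, dirs_of c hc _ _ h2, dirs_of c hc _ _ h3, p, fun a => ?_⟩
  rw [link_iff c hc, link_iff c hc]
  cases a
  · exact h5
  · exact h4

/-- the general criterion -/
theorem main (hc : ∀ u v, c u v = c v u)
    (h : ∃ e π, ∀ z X Y, ¬ Critical c e π z X Y) : OneChange c := by
  obtain ⟨e, π, h⟩ := h
  obtain ⟨x, y, hx, hy⟩ := label_final (n := n) (r := lab c hc true) (b := lab c hc false)
    (edg c hc true) ⟨e, π, fun z X Y hZ => h z X Y (critical_of c hc e π z X Y hZ)⟩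
  intro b
  have hb : ∃ x y, lab c hc b x = lab c hc b y ∧ lab c hc (!b) y = lab c hc (!b) (antipode x) := by
    cases b
    · refine ⟨antipode x, y, hy.symm, ?_⟩
      have hxx : antipode (antipode x) = x := by
        funext i; simp [antipode]
      rw [hxx]
      exact hx.symm
    · exact ⟨x, y, hx, hy⟩
  obtain ⟨x, y, hx, hy⟩ := hb
  obtain ⟨w1⟩ := (lab_eq c hc b).1 hx
  obtain ⟨w2⟩ := (lab_eq c hc (!b)).1 hy
  obtain ⟨w1', k1, h1⟩ := mono_walk c hc w1
  obtain ⟨w2', k2, h2⟩ := mono_walk c hc w2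
  obtain ⟨k, p, j, hp, hk, hj, -, hcol⟩ := path_two c (w1'.append w2') b (!b) k1 k2 (by
    rw [colors_append, h1, h2])
  exact ⟨k, p, j, hp, hk, changes_two c hcol, hj, hcol⟩

/-! ### conditions on the colours of the 4-cycles -/

/-- an order of the directions in which the directions outside `D` come first -/
theorem exists_order (D : Finset (Fin n)) :
    ∃ π : Equiv.Perm (Fin n), ∀ l l', l ∉ D → π l' < π l → l' ∉ D := by
  let f : Fin n → ℕ := fun l => if l ∈ D then 1 else 0
  refine ⟨(Tuple.sort f).symm, fun l l' hl h hl' => ?_⟩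
  have h1 := Tuple.monotone_sort f h.le
  simp only [Function.comp, Equiv.apply_symm_apply] at h1
  simp [f, hl, hl'] at h1

/-- in a critical triple for a suitable vertex and a suitable order, `z` agrees with `v` outside
the set `D` of directions, and `X` and `Y` are subsets of `D` -/
theorem parallel (D : Finset (Fin n)) (hD : ∀ a x i k, Alt c a x i k → i ∈ D) (v : V n) :
    ∃ e π, (∀ t ∈ D, e t = v t) ∧ ∀ z X Y, Critical c e π z X Y → X ⊆ D ∧ Y ⊆ D ∧
      ∀ t, t ∉ D → z t = v t := by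
  obtain ⟨π, hπ⟩ := exists_order D
  refine ⟨fun l => if l ∈ D then v l else xor (v l) (decide (Odd (π l : ℕ))), π,
    fun t ht => by simp [ht], fun z X Y hZ => ?_⟩
  obtain ⟨⟨-, -, -, h1⟩, -, h2, h3, -⟩ := hZ
  have hX : X ⊆ D := by
    intro i hi
    obtain ⟨a, x, k, h4, -⟩ := h2 i hi
    exact hD _ _ _ _ h4.alt
  have hY : Y ⊆ D := by
    intro i hi
    obtain ⟨a, x, k, h4, -⟩ := h3 i hi
    exact hD _ _ _ _ h4.alt
  refine ⟨hX, hY, fun t ht => ?_⟩
  have h4 := h1 t (fun h => ht (hX h)) (fun h => ht (hY h))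
  have h5 : (Finset.univ.filter fun l' => π l' < π t ∧ l' ∉ X ∧ l' ∉ Y).card = (π t : ℕ) := by
    have h6 : (Finset.univ.filter fun l' => π l' < π t ∧ l' ∉ X ∧ l' ∉ Y) =
        (Finset.Iio (π t)).map π.symm.toEmbedding := by
      ext m
      rw [Finset.mem_map_equiv, Equiv.symm_symm, Finset.mem_Iio, Finset.mem_filter]
      constructor
      · exact fun h => h.2.1
      · exact fun h => ⟨mem_univ _, h, fun h' => hπ t m ht h (hX h'), fun h' => hπ t m ht h (hY h')⟩
    rw [h6, Finset.card_map, Fin.card_Iio]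
  rw [h5] at h4
  simp only [if_neg ht] at h4
  by_cases h6 : Odd (π t : ℕ)
  · rw [decide_eq_true h6] at h4
    have h7 := h4.2 h6
    revert h7
    cases z t <;> cases v t <;> simp
  · rw [decide_eq_false h6] at h4
    have h7 : ¬ (z t ≠ xor (v t) false) := fun h8 => h6 (h4.1 h8)
    revert h7
    cases z t <;> cases v t <;> simp

/-- both subcubes of a critical pair contain alternating 4-cycles -/
theorem critical_alt {e : V n} {π : Equiv.Perm (Fin n)} {z : V n} {X Y : Finset (Fin n)}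
    (h : Critical c e π z X Y) :
    (∃ a x i k, Alt c a x i k ∧ Inside z X x {i, k}) ∧
      ∃ a x i k, Alt c a x i k ∧ Inside (antipode z) Y x {i, k} := by
  obtain ⟨-, -, -, -, p, h1⟩ := h
  have key : ∀ z X z' Y, Link c true p z X z' Y →
      (∃ a x i k, Alt c a x i k ∧ Inside z X x {i, k}) ∧
      ∃ a x i k, Alt c a x i k ∧ Inside z' Y x {i, k} := by
    rintro z X z' Y ⟨⟨x, i, j, k, ⟨-, -, -, h2, -⟩, h3, -⟩, y, l, m, h4, h5, -⟩
    refine ⟨⟨true, x, i, k, h2.alt, fun l hl => ?_⟩, true, y, l, m, h4.alt, h5⟩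
    obtain ⟨h6, h7⟩ := h3 l hl
    refine ⟨fun h8 => h6 ?_, h7⟩
    simp only [mem_insert, mem_singleton] at h8 ⊢
    tauto
  rcases h1 true with h1 | h1
  · exact key _ _ _ _ h1
  · exact (key _ _ _ _ h1).symm

/-- **The criterion.**  `D` contains all directions of alternating 4-cycles, and `e'` agrees with
`e` exactly in the directions in `D`.  For every subset `Z` of `D` one of four conditions holds for
the subcube at `e` with the set `Z` of directions and the subcube at `e'` with the set `D \ Z` of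
directions. -/
theorem crit (hc : ∀ u v, c u v = c v u) (D : Finset (Fin n))
    (hD : ∀ a x i k, Alt c a x i k → i ∈ D) (e e' : V n) (he : ∀ l, e' l = e l ↔ l ∈ D)
    (h : ∀ Z : Finset (Fin n), Z ⊆ D →
      (∀ a x i k, Alt c a x i k → ¬ Inside e Z x {i, k}) ∨
      (∀ a x i k, Alt c a x i k → ¬ Inside e' (D \ Z) x {i, k}) ∨
      (∃ S : Finset (Fin n), S.card ≤ 5 ∧ ∀ a x i k, Alt c a x i k →
        Inside e Z x {i, k} ∨ Inside e' (D \ Z) x {i, k} → i ∈ S) ∨
      ∃ a, ∀ x i j k, i ≠ j → Alt c a x i k → Alt c a x j k → Alt c a (AntiPath.flip x i) j k →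
        ¬ Inside e Z x {i, j, k} ∧ ¬ Inside e' (D \ Z) x {i, j, k}) :
    OneChange c := by
  obtain ⟨e0, π, he0, hp⟩ := parallel c D hD e
  refine main c hc ⟨e0, π, fun z X Y hZ => ?_⟩
  obtain ⟨hX, hY, hz⟩ := hp z X Y hZ
  have hA := critical_alt c hZ
  obtain ⟨⟨hXY, q1, q2, -⟩, h1, h2, h3, p, h4⟩ := hZ
  have i1 : ∀ x I, Inside z X x I → Inside e (D.filter fun l => z l ≠ e l) x I := by
    intro x I hI l hl
    have h5 : l ∉ X := fun h5 => hl (mem_filter.2 ⟨hX h5, by
      rw [← he0 l (hX h5)]; exact q1 l h5⟩)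
    obtain ⟨h6, h7⟩ := hI l h5
    refine ⟨h6, h7.trans ?_⟩
    by_cases h8 : l ∈ D
    · by_contra h9
      exact hl (mem_filter.2 ⟨h8, h9⟩)
    · exact hz l h8
  have i2 : ∀ x I, Inside (antipode z) Y x I →
      Inside e' (D \ D.filter fun l => z l ≠ e l) x I := by
    intro x I hI l hl
    have h5 : l ∉ Y := fun h5 => hl (mem_sdiff.2 ⟨hY h5, fun h6 => (mem_filter.1 h6).2 (by
      rw [← he0 l (hY h5)]; exact q2 l h5)⟩)
    obtain ⟨h6, h7⟩ := hI l h5
    refine ⟨h6, h7.trans ?_⟩
    by_cases h8 : l ∈ D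
    · have h9 : z l ≠ e l := by
        by_contra h9
        exact hl (mem_sdiff.2 ⟨h8, fun h10 => (mem_filter.1 h10).2 h9⟩)
      rw [(he l).2 h8]
      unfold antipode
      revert h9
      cases z l <;> cases e l <;> simp
    · have h9 : e' l ≠ e l := fun h9 => h8 ((he l).1 h9)
      unfold antipode
      rw [hz l h8]
      revert h9
      cases e' l <;> cases e l <;> simp
  rcases h (D.filter fun l => z l ≠ e l) (Finset.filter_subset _ _) with h5 | h5 | h5 | h5
  · obtain ⟨⟨a, x, i, k, h6, h7⟩, -⟩ := hA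
    exact h5 a x i k h6 (i1 _ _ h7)
  · obtain ⟨-, a, x, i, k, h6, h7⟩ := hA
    exact h5 a x i k h6 (i2 _ _ h7)
  · obtain ⟨S, hS, h5⟩ := h5
    have hXS : X ⊆ S := by
      intro i hi
      obtain ⟨a, x, k, h6, h7⟩ := h2 i hi
      exact h5 a x i k h6.alt (Or.inl (i1 _ _ h7))
    have hYS : Y ⊆ S := by
      intro i hi
      obtain ⟨a, x, k, h6, h7⟩ := h3 i hi
      exact h5 a x i k h6.alt (Or.inr (i2 _ _ h7))
    have h6 := Finset.card_le_card (Finset.union_subset hXS hYS)
    rw [Finset.card_union_of_disjoint hXY] at h6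
    omega
  · obtain ⟨a, h5⟩ := h5
    rcases h4 a with h4 | h4
    · obtain ⟨⟨x, i, j, k, ⟨hij, -, -, h6, h7, h8, -⟩, h9, -⟩, -⟩ := h4
      exact (h5 x i j k hij h6.alt h7.alt h8.alt).1 (i1 _ _ h9)
    · obtain ⟨⟨x, i, j, k, ⟨hij, -, -, h6, h7, h8, -⟩, h9, -⟩, -⟩ := h4
      exact (h5 x i j k hij h6.alt h7.alt h8.alt).2 (i2 _ _ h9)

end Pool.Agent.NorK
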