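import Pool.Agent.NorK.Main

set_option autoImplicit false

/-!
# MP_615643_co: an antipodal pair joined by both kinds of paths with two colour changes

For every 2-colouring there are a vertex `z` and a vertex `p` such that for each colour the
component of `p` for this colour meets the components of `z` and of the antipode of `z` for the
other colour.  So `z` and its antipode are joined by a walk of the pattern `0,1,0` through `p` and
by a walk of the pattern `1,0,1` through `p`.
-/

namespace Pool.Agent.NorK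

open Finset Pool.Agent.AntiPath Pool.Agent.TwoCh Pool.Agent.Nor

variable {n N M : ℕ}

/-- for each of the two labellings the label of `p` occurs together with the other label of `z`
and with the other label of the antipode of `z` -/
def MidL {A B : Type*} (r : V n → A) (b : V n → B) (p z : V n) : Prop :=
  ((∃ x, r x = r p ∧ b x = b z) ∧ ∃ x, r x = r p ∧ b x = b (an z)) ∧
    (∃ x, b x = b p ∧ r x = r z) ∧ ∃ x, b x = b p ∧ r x = r (an z)

section

variable {r : V n → Fin N} {b : V n → Fin M}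

theorem ends_of (h : Edg r b) {σ : Finset (Fin N)} {ρ : Finset (Fin M)} {x y : V n}
    (hne : WW r b σ ρ x y ≠ 0) (hσ : 2 ≤ σ.card) (hρ : 2 ≤ ρ.card) :
    (r x ∈ σ ∧ b x ∈ ρ) ∧ r y ∈ σ ∧ b y ∈ ρ := by
  refine ⟨⟨?_, ?_⟩, ?_, ?_⟩
  · by_contra hn
    rw [WW_left _ _ _ _ hσ, if_neg hn] at hne
    exact hne rfl
  · by_contra hn
    rw [WW_comm h, WW_left _ _ _ _ hρ, if_neg hn] at hne
    exact hne rfl
  · by_contra hn
    rw [WW_right' h _ _ _ _ hσ, if_neg hn] at hne
    exact hne rfl
  · by_contra hn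
    rw [WW_right _ _ _ _ hρ, if_neg hn] at hne
    exact hne rfl

/-- the labelling theorem -/
theorem mid_label (h : Edg r b) : ∃ p z, MidL r b p z := by
  by_cases hc : ∃ x y, r x = r y ∧ b y = b (an x)
  · obtain ⟨x, y, h1, h2⟩ := hc
    exact ⟨y, x, ⟨⟨x, h1, rfl⟩, y, rfl, h2⟩, ⟨y, rfl, h1.symm⟩, an x, h2.symm, rfl⟩
  push Not at hc
  by_contra hK
  push Not at hK
  have Q := quad h.upd hc
  refine label_core h.upd hc fun k C c d hc' hd => Phi_zero_alt k _ fun F _ => ?_
  by_contra huw
  have hn : wd (dd n) (ed r) (ed fun x => r (an x)) (ed b) (ed fun x => b (an x)) C ≠ 0 := by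
    intro h0
    rw [h0] at huw
    exact huw rfl
  obtain ⟨h1, h2, -, -, h5⟩ := bad_sizes Q C c d hc' hd hn
  unfold wd at huw
  rw [Matrix.mul_apply] at huw
  obtain ⟨z, -, hz⟩ := Finset.exists_ne_zero_of_sum_ne_zero huw
  have g1 : WW r b (pA C false) (pB C false) (lo F) z ≠ 0 := left_ne_zero_of_mul hz
  have g2 : WW (fun x => r (an x)) (fun x => b (an x)) (pA C true) (pB C true) z (hi F) ≠ 0 := by
    rw [WW_comm h.an]
    exact right_ne_zero_of_mul hz
  have z12 := (ends_of h g1 (h1 _) (h2 _)).2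
  have z34 := (ends_of h.an g2 (h1 _) (h2 _)).1
  obtain ⟨p, hp, hp'⟩ := h5 false c (hc' _) d (hd _)
  refine hK p z ⟨⟨?_, ?_⟩, ?_, ?_⟩
  · rw [hp]; exact h5 false c (hc' _) _ z12.2
  · rw [hp]; exact h5 true c (hc' _) _ z34.2
  · rw [hp']
    obtain ⟨x, hx, hx'⟩ := h5 false _ z12.1 d (hd _)
    exact ⟨x, hx', hx⟩
  · rw [hp']
    obtain ⟨x, hx, hx'⟩ := h5 true _ z34.1 d (hd _)
    exact ⟨x, hx', hx⟩

end

variable (c : (Fin n → Bool) → (Fin n → Bool) → Bool)

/-- a walk with three monochromatic segments contains a path with this property -/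
theorem path_three {x y : V n} (w : (cube n).Walk x y) (a : Bool) (k1 k2 k3 : ℕ)
    (hw : colors c w = List.replicate k1 a ++ List.replicate k2 (!a) ++ List.replicate k3 a) :
    ∃ (k : ℕ) (p : ℕ → (Fin n → Bool)), IsPath p k ∧ p 0 = x ∧ p k = y ∧ changes c p k ≤ 2 ∧
      ∃ i j : ℕ, i ≤ j ∧ j ≤ k ∧ (k3 = 0 → j = k) ∧
        ∀ t, t < k → (c (p t) (p (t + 1)) = a ↔ t < i ∨ j ≤ t) := by
  classical
  have hb : (colors c w.bypass).Sublist (colors c w) := (bypass_darts w).map _
  rw [hw] at hb
  obtain ⟨i, j, l, hl, hl3⟩ : ∃ i j l, colors c w.bypass =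
      List.replicate i a ++ List.replicate j (!a) ++ List.replicate l a ∧ l ≤ k3 := by
    rw [List.sublist_append_iff] at hb
    obtain ⟨l1, l2, h0, h1, h2⟩ := hb
    rw [List.sublist_append_iff] at h1
    obtain ⟨l3, l4, rfl, h3, h4⟩ := h1
    rw [List.sublist_replicate_iff] at h2 h3 h4
    obtain ⟨k', hk', rfl⟩ := h2
    obtain ⟨i', -, rfl⟩ := h3
    obtain ⟨j', -, rfl⟩ := h4
    exact ⟨i', j', k', h0, hk'⟩
  have hlen : w.bypass.length = i + j + l := by
    have := congrArg List.length hl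
    rw [colors_eq] at this
    simp only [List.length_map, List.length_range, List.length_append,
      List.length_replicate] at this
    exact this
  refine ⟨w.bypass.length, w.bypass.getVert, ⟨?_, ?_⟩, w.bypass.getVert_zero,
    w.bypass.getVert_length, ?_, i, i + j, by omega, by omega, fun h => by omega, ?_⟩
  · intro s t hs ht h
    exact w.bypass_isPath.getVert_injOn hs ht h
  · intro s hs
    obtain ⟨d, hd⟩ := w.bypass.adj_getVert_succ hs
    exact ⟨d, fun e => by rw [hd]; exact flip_diff _ d e⟩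
  · rw [changes_eq, hl]
    exact chg_three _ _ _ _ _
  · intro t ht
    have h4 : (colors c w.bypass)[t]? = some (c (w.bypass.getVert t) (w.bypass.getVert (t + 1))) := by
      rw [colors_eq, List.getElem?_map, List.getElem?_range ht]
      rfl
    rw [hl, List.append_assoc] at h4
    rw [hlen] at ht
    by_cases h5 : t < i
    · rw [List.getElem?_append_left (by simpa using h5), List.getElem?_replicate, if_pos h5] at h4
      simp only [Option.some.injEq] at h4
      rw [← h4]
      simp [h5]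
    · rw [List.getElem?_append_right (by simpa using h5)] at h4
      simp only [List.length_replicate] at h4
      by_cases h6 : t - i < j
      · rw [List.getElem?_append_left (by simpa using h6), List.getElem?_replicate,
          if_pos h6] at h4
        simp only [Option.some.injEq] at h4
        rw [← h4]
        have : ¬ (i + j ≤ t) := by omega
        simp [h5, this]
      · rw [List.getElem?_append_right (by simpa using h6)] at h4
        simp only [List.length_replicate] at h4
        have h7 : t - i - j < l := by omega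
        rw [List.getElem?_replicate, if_pos h7] at h4
        simp only [Option.some.injEq] at h4
        rw [← h4]
        have : i + j ≤ t := by omega
        simp [this]

/-- a path from `x` to `y` whose first edges have the colour `a` and whose other edges have the
other colour -/
theorem path_two' (hc : ∀ u v, c u v = c v u) {a : Bool} {x y z : V n}
    (h1 : lab c hc a x = lab c hc a z) (h2 : lab c hc (!a) z = lab c hc (!a) y) :
    ∃ (k : ℕ) (p : ℕ → (Fin n → Bool)) (j : ℕ), IsPath p k ∧ p 0 = x ∧ p k = y ∧ j ≤ k ∧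
      ∀ t, t < k → (c (p t) (p (t + 1)) = a ↔ t < j) := by
  obtain ⟨w1⟩ := (lab_eq c hc a).1 h1
  obtain ⟨w2⟩ := (lab_eq c hc (!a)).1 h2
  obtain ⟨w1', k1, h1'⟩ := mono_walk c hc w1
  obtain ⟨w2', k2, h2'⟩ := mono_walk c hc w2
  obtain ⟨k, p, hp, hp0, hpk, -, i, j, hij, hjk, hj, ht⟩ := path_three c (w1'.append w2') a k1 k2 0
    (by rw [colors_append, h1', h2', List.replicate_zero, List.append_nil])
  have hj' := hj rfl
  subst hj'
  refine ⟨j, p, i, hp, hp0, hpk, hij, fun t h => (ht t h).trans ?_⟩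
  constructor
  · rintro (h' | h')
    · exact h'
    · omega
  · exact Or.inl

/-- the middle part of the path has the other colour -/
theorem path_three' (hc : ∀ u v, c u v = c v u) {a : Bool} {x y u v : V n}
    (h1 : lab c hc a x = lab c hc a u) (h2 : lab c hc (!a) u = lab c hc (!a) v)
    (h3 : lab c hc a v = lab c hc a y) :
    ∃ (k : ℕ) (p : ℕ → (Fin n → Bool)), IsPath p k ∧ p 0 = x ∧ p k = y ∧ changes c p k ≤ 2 ∧
      ∃ i j : ℕ, i ≤ j ∧ j ≤ k ∧
        ∀ t, t < k → (c (p t) (p (t + 1)) = a ↔ t < i ∨ j ≤ t) := by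
  obtain ⟨w1⟩ := (lab_eq c hc a).1 h1
  obtain ⟨w2⟩ := (lab_eq c hc (!a)).1 h2
  obtain ⟨w3⟩ := (lab_eq c hc a).1 h3
  obtain ⟨w1', k1, h1'⟩ := mono_walk c hc w1
  obtain ⟨w2', k2, h2'⟩ := mono_walk c hc w2
  obtain ⟨w3', k3, h3'⟩ := mono_walk c hc w3
  obtain ⟨k, p, hp, hp0, hpk, hch, i, j, hij, hjk, -, ht⟩ :=
    path_three c ((w1'.append w2').append w3') a k1 k2 k3
      (by rw [colors_append, colors_append, h1', h2', h3'])
  exact ⟨k, p, hp, hp0, hpk, hch, i, j, hij, hjk, ht⟩

/-- **Both kinds of paths with two colour changes for the same antipodal pair.** -/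
theorem mid (hc : ∀ u v, c u v = c v u) : ∃ x v : Fin n → Bool, ∀ a : Bool,
    (∃ (k : ℕ) (p : ℕ → (Fin n → Bool)), IsPath p k ∧ p 0 = x ∧ p k = antipode x ∧
      changes c p k ≤ 2 ∧ ∃ i j : ℕ, i ≤ j ∧ j ≤ k ∧
        ∀ t, t < k → (c (p t) (p (t + 1)) = a ↔ t < i ∨ j ≤ t)) ∧
    (∃ (k : ℕ) (p : ℕ → (Fin n → Bool)) (j : ℕ), IsPath p k ∧ p 0 = x ∧ p k = v ∧ j ≤ k ∧
      ∀ t, t < k → (c (p t) (p (t + 1)) = a ↔ t < j)) ∧
    ∃ (k : ℕ) (p : ℕ → (Fin n → Bool)) (j : ℕ), IsPath p k ∧ p 0 = v ∧ p k = antipode x ∧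
      j ≤ k ∧ ∀ t, t < k → (c (p t) (p (t + 1)) = a ↔ t < j) := by
  obtain ⟨v, x, ⟨⟨y1, h1, h1'⟩, y2, h2, h2'⟩, ⟨y3, h3, h3'⟩, y4, h4, h4'⟩ :=
    mid_label (r := lab c hc true) (b := lab c hc false) (edg c hc true)
  refine ⟨x, v, fun a => ?_⟩
  cases a
  · exact ⟨path_three' c hc (a := false) h1'.symm (h1.trans h2.symm) h2',
      path_two' c hc (a := false) h1'.symm h1, path_two' c hc (a := false) h4.symm h4'⟩
  · exact ⟨path_three' c hc (a := true) h3'.symm (h3.trans h4.symm) h4',
      path_two' c hc (a := true) h3'.symm h3, path_two' c hc (a := true) h2.symm h2'⟩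

end Pool.Agent.NorK
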