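import Pool.Agent.NorK.Label
import Pool.Agent.Nor.Main

set_option autoImplicit false

/-!
# MP_615643_co: the structure of a nonzero product of words

`r` and `b` are labellings such that every edge of the cube is constant for one of them.  A
nonzero entry of the product of the word of a set of labels `r` and the word of a set of labels
`b`, both with at least two elements, forces alternating faces: every direction of the interval
lies in an alternating face, and when the first set has at least three elements there is a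
three-dimensional subcube with three alternating faces.  Prescribed labels can be kept.
-/

namespace Pool.Agent.NorK

open Finset Pool.Agent.TwoCh Pool.Agent.Nor Pool.Agent.AntiPath

variable {n N M : ℕ}

/-! ### flips -/

theorem upd_flip (x : V n) (i : Fin n) (hi : x i = false) :
    Function.update x i true = AntiPath.flip x i := by
  unfold AntiPath.flip
  rw [hi]; rfl

theorem upd_flip' (x : V n) (i : Fin n) (hi : x i = true) :
    Function.update x i false = AntiPath.flip x i := by
  unfold AntiPath.flip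
  rw [hi]; rfl

theorem an_flip' (x : V n) (i : Fin n) : an (AntiPath.flip x i) = AntiPath.flip (an x) i := by
  funext j
  by_cases h : j = i
  · subst h
    simp [an, AntiPath.flip_same]
  · simp [an, AntiPath.flip_ne _ h]

theorem flip_comm' (x : V n) {i j : Fin n} (h : i ≠ j) :
    AntiPath.flip (AntiPath.flip x i) j = AntiPath.flip (AntiPath.flip x j) i := by
  funext k
  by_cases h1 : k = i
  · subst h1
    rw [AntiPath.flip_ne _ h, AntiPath.flip_same, AntiPath.flip_same, AntiPath.flip_ne _ h]
  · by_cases h2 : k = j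
    · subst h2
      rw [AntiPath.flip_same, AntiPath.flip_ne _ h1, AntiPath.flip_ne _ h1, AntiPath.flip_same]
    · rw [AntiPath.flip_ne _ h2, AntiPath.flip_ne _ h1, AntiPath.flip_ne _ h1,
        AntiPath.flip_ne _ h2]

/-- componentwise order -/
def Le (x y : V n) : Prop := ∀ i, x i = true → y i = true

theorem Le.rfl' (x : V n) : Le x x := fun _ h => h

theorem Le.trans' {x y z : V n} (h : Le x y) (h' : Le y z) : Le x z := fun i hi => h' i (h i hi)

theorem Le_flip (x : V n) (i : Fin n) (hi : x i = false) : Le x (AntiPath.flip x i) := by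
  intro j hj
  by_cases h : j = i
  · subst h; rw [hi] at hj; simp at hj
  · rw [AntiPath.flip_ne _ h]; exact hj

theorem flip_Le (y : V n) (i : Fin n) (hi : y i = true) : Le (AntiPath.flip y i) y := by
  intro j hj
  by_cases h : j = i
  · subst h; exact hi
  · rw [AntiPath.flip_ne _ h] at hj; exact hj

/-- the subcube at `x` with the set `I` of directions lies in the interval from `lo` to `hi` -/
def In (lo hi x : V n) (I : Finset (Fin n)) : Prop :=
  ∀ l, (hi l = false → l ∉ I ∧ x l = false) ∧ (lo l = true → l ∉ I ∧ x l = true)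

theorem In_mono {lo hi lo' hi' x : V n} {I : Finset (Fin n)} (h : In lo' hi' x I)
    (h1 : Le lo lo') (h2 : Le hi' hi) : In lo hi x I := by
  intro l
  refine ⟨fun hl => (h l).1 ?_, fun hl => (h l).2 (h1 l hl)⟩
  by_contra hn
  have h3 : hi' l = true := by
    revert hn; cases hi' l <;> simp
  have := h2 l h3
  rw [hl] at this
  simp at this

theorem inc_Le {X : Mx n} (hX : X ∈ inc n) {x y : V n} (h : X x y ≠ 0) : Le x y := hX x y h

/-! ### removal of the first or the last letter -/

section rem

variable {K : ℕ} (r : V n → Fin K)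

theorem left_rem (σ : Finset (Fin K)) (Y : Mx n) (x y : V n) (hσ : 2 ≤ σ.card) :
    (om (dd n) (ed r) σ * Y) x y = if r x ∈ σ then ∑ i, (if x i = false then
      (om (dd n) (ed r) (σ.erase (r x)) * Y) (AntiPath.flip x i) y else 0) else 0 := by
  rw [om_eq, Finset.sum_mul, Matrix.sum_apply]
  have h1 : ∀ a ∈ σ, (ed r a * gg (dd n) (ed r) (σ.erase a) * Y) x y =
      if r x = a then ∑ i, (if x i = false then
        (om (dd n) (ed r) (σ.erase a) * Y) (AntiPath.flip x i) y else 0) else 0 := by
    intro a ha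
    have h3 := Finset.card_erase_of_mem ha
    have h4 : σ.erase a ≠ ∅ := by
      intro h5
      rw [h5, Finset.card_empty] at h3
      omega
    unfold gg
    rw [if_neg h4, zero_add, mul_assoc, ed_mul_apply, mul_assoc, dd_mul]
    split_ifs with h5
    · refine Finset.sum_congr rfl fun i _ => ?_
      split_ifs with h6
      · rw [upd_flip x i h6]
      · rfl
    · rfl
  rw [Finset.sum_congr rfl h1, Finset.sum_ite_eq]

theorem right_rem (σ : Finset (Fin K)) (Y : Mx n) (x y : V n) (hσ : 2 ≤ σ.card) :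
    (Y * om (dd n) (ed r) σ) x y = if r y ∈ σ then ∑ i, (if y i = true then
      (Y * om (dd n) (ed r) (σ.erase (r y))) x (AntiPath.flip y i) else 0) else 0 := by
  rw [Nor.om_right, Finset.mul_sum, Matrix.sum_apply]
  have h1 : ∀ a ∈ σ, (Y * (gl (dd n) (ed r) (σ.erase a) * ed r a)) x y =
      if r y = a then ∑ i, (if y i = true then
        (Y * om (dd n) (ed r) (σ.erase a)) x (AntiPath.flip y i) else 0) else 0 := by
    intro a ha
    have h3 := Finset.card_erase_of_mem ha
    have h4 : σ.erase a ≠ ∅ := by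
      intro h5
      rw [h5, Finset.card_empty] at h3
      omega
    unfold gl
    rw [if_neg h4, zero_add, ← mul_assoc, mul_ed_apply, ← mul_assoc, mul_dd]
    split_ifs with h5
    · refine Finset.sum_congr rfl fun i _ => ?_
      split_ifs with h6
      · rw [upd_flip' y i h6]
      · rfl
    · rfl
  rw [Finset.sum_congr rfl h1, Finset.sum_ite_eq]

theorem right_zero (σ : Finset (Fin K)) (Y : Mx n) (x y : V n) (h : r y ∉ σ) :
    (Y * om (dd n) (ed r) σ) x y = 0 := by
  rw [Nor.om_right, Finset.mul_sum, Matrix.sum_apply]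
  refine Finset.sum_eq_zero fun a ha => ?_
  rw [← mul_assoc, mul_ed_apply, if_neg]
  rintro rfl
  exact h ha

end rem

/-! ### the product of two words -/

variable {r : V n → Fin N} {b : V n → Fin M}

/-- every edge is constant for one of the labellings -/
def Edg {A B : Type*} (r : V n → A) (b : V n → B) : Prop :=
  ∀ x i, r x = r (AntiPath.flip x i) ∨ b x = b (AntiPath.flip x i)

theorem Edg.upd {A B : Type*} {r : V n → A} {b : V n → B} (h : Edg r b) :
    ∀ x i, x i = false → r x = r (Function.update x i true) ∨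
      b x = b (Function.update x i true) := fun x i hi => by
  rw [upd_flip x i hi]
  exact h x i

theorem Edg.swap {A B : Type*} {r : V n → A} {b : V n → B} (h : Edg r b) : Edg b r :=
  fun x i => (h x i).symm

theorem Edg.an {A B : Type*} {r : V n → A} {b : V n → B} (h : Edg r b) :
    Edg (fun x => r (an x)) (fun x => b (an x)) := fun x i => by
  simp only [an_flip']
  exact h _ i

/-- the product of two words -/
noncomputable def WW (r : V n → Fin N) (b : V n → Fin M) (σ : Finset (Fin N))
    (ρ : Finset (Fin M)) : Mx n := om (dd n) (ed r) σ * om (dd n) (ed b) ρ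

theorem WW_comm (h : Edg r b) (σ : Finset (Fin N)) (ρ : Finset (Fin M)) :
    WW r b σ ρ = WW b r ρ σ := Nor.om_comm (sys r b h.upd) σ ρ

theorem WW_inc (σ : Finset (Fin N)) (ρ : Finset (Fin M)) : WW r b σ ρ ∈ inc n :=
  Subring.mul_mem _ (om_mem _ _) (om_mem _ _)

theorem WW_left (σ : Finset (Fin N)) (ρ : Finset (Fin M)) (x y : V n) (hσ : 2 ≤ σ.card) :
    WW r b σ ρ x y = if r x ∈ σ then ∑ i, (if x i = false then
      WW r b (σ.erase (r x)) ρ (AntiPath.flip x i) y else 0) else 0 :=
  left_rem r σ _ x y hσ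

theorem WW_right (σ : Finset (Fin N)) (ρ : Finset (Fin M)) (x y : V n) (hρ : 2 ≤ ρ.card) :
    WW r b σ ρ x y = if b y ∈ ρ then ∑ i, (if y i = true then
      WW r b σ (ρ.erase (b y)) x (AntiPath.flip y i) else 0) else 0 :=
  right_rem b ρ _ x y hρ

theorem WW_right' (h : Edg r b) (σ : Finset (Fin N)) (ρ : Finset (Fin M)) (x y : V n)
    (hσ : 2 ≤ σ.card) :
    WW r b σ ρ x y = if r y ∈ σ then ∑ i, (if y i = true then
      WW r b (σ.erase (r y)) ρ x (AntiPath.flip y i) else 0) else 0 := by
  rw [WW_comm h, WW_right _ _ _ _ hσ]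
  simp only [WW_comm h]

/-- removal of a letter different from `c` -/
theorem rem_one (h : Edg r b) (σ : Finset (Fin N)) (ρ : Finset (Fin M)) (x y : V n)
    (hne : WW r b σ ρ x y ≠ 0) (c : Fin N) (hc : c ∈ σ) (hσ : 2 ≤ σ.card) :
    ∃ a ∈ σ, a ≠ c ∧ ∃ x' y', Le x x' ∧ Le y' y ∧ WW r b (σ.erase a) ρ x' y' ≠ 0 := by
  by_cases hx : r x = c
  · have h1 := hne
    rw [WW_right' h σ ρ x y hσ] at h1
    have h2 : r y ∈ σ := by
      by_contra hn
      rw [if_neg hn] at h1
      exact h1 rfl
    rw [if_pos h2] at h1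
    obtain ⟨i, -, hi⟩ := Finset.exists_ne_zero_of_sum_ne_zero h1
    have h3 : y i = true := by
      by_contra hn
      rw [if_neg hn] at hi
      exact hi rfl
    rw [if_pos h3] at hi
    refine ⟨r y, h2, ?_, x, AntiPath.flip y i, Le.rfl' x, flip_Le y i h3, hi⟩
    intro hy
    apply hne
    rw [WW_left σ ρ x y hσ, if_pos (by rw [hx]; exact hc)]
    refine Finset.sum_eq_zero fun j _ => ?_
    split_ifs with hj
    · rw [WW_comm h]
      refine right_zero r _ _ _ _ ?_
      rw [hx, hy]
      exact Finset.notMem_erase c σ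
    · rfl
  · have h1 := hne
    rw [WW_left σ ρ x y hσ] at h1
    have h2 : r x ∈ σ := by
      by_contra hn
      rw [if_neg hn] at h1
      exact h1 rfl
    rw [if_pos h2] at h1
    obtain ⟨i, -, hi⟩ := Finset.exists_ne_zero_of_sum_ne_zero h1
    have h3 : x i = false := by
      by_contra hn
      rw [if_neg hn] at hi
      exact hi rfl
    rw [if_pos h3] at hi
    exact ⟨r x, h2, hx, AntiPath.flip x i, y, Le_flip x i h3, Le.rfl' y, hi⟩

/-- reduction of the first set to a set with `p` elements -/
theorem red_one (h : Edg r b) (p : ℕ) (hp : 1 ≤ p) (σ : Finset (Fin N)) (ρ : Finset (Fin M))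
    (x y : V n) (hne : WW r b σ ρ x y ≠ 0) (c : Fin N) (hc : c ∈ σ) (hσ : p ≤ σ.card) :
    ∃ σ' : Finset (Fin N), c ∈ σ' ∧ σ'.card = p ∧ ∃ x' y', Le x x' ∧ Le y' y ∧
      WW r b σ' ρ x' y' ≠ 0 := by
  induction hk : σ.card using Nat.strong_induction_on generalizing σ x y with
  | _ k ih =>
    by_cases h1 : σ.card = p
    · exact ⟨σ, hc, h1, x, y, Le.rfl' x, Le.rfl' y, hne⟩
    · obtain ⟨a, ha, hac, x1, y1, hx, hy, h2⟩ := rem_one h σ ρ x y hne c hc (by omega)
      have h3 := Finset.card_erase_of_mem ha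
      obtain ⟨σ', h4, h5, x', y', h6, h7, h8⟩ := ih (σ.erase a).card (by omega) (σ.erase a) x1 y1
        h2 (Finset.mem_erase.2 ⟨Ne.symm hac, hc⟩) (by omega) rfl
      exact ⟨σ', h4, h5, x', y', hx.trans' h6, h7.trans' hy, h8⟩

/-- reduction of both sets -/
theorem red_two (h : Edg r b) (p q : ℕ) (hp : 1 ≤ p) (hq : 1 ≤ q) (σ : Finset (Fin N))
    (ρ : Finset (Fin M)) (x y : V n) (hne : WW r b σ ρ x y ≠ 0) (c : Fin N) (hc : c ∈ σ)
    (hσ : p ≤ σ.card) (d : Fin M) (hd : d ∈ ρ) (hρ : q ≤ ρ.card) :
    ∃ (σ' : Finset (Fin N)) (ρ' : Finset (Fin M)), c ∈ σ' ∧ d ∈ ρ' ∧ σ'.card = p ∧ ρ'.card = q ∧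
      ∃ x' y', Le x x' ∧ Le y' y ∧ WW r b σ' ρ' x' y' ≠ 0 := by
  obtain ⟨σ', h1, h2, x1, y1, hx, hy, h3⟩ := red_one h p hp σ ρ x y hne c hc hσ
  rw [WW_comm h] at h3
  obtain ⟨ρ', h4, h5, x2, y2, hx2, hy2, h6⟩ := red_one h.swap q hq ρ σ' x1 y1 h3 d hd hρ
  rw [WW_comm h.swap] at h6
  exact ⟨σ', ρ', h1, h4, h2, h5, x2, y2, hx.trans' hx2, hy2.trans' hy, h6⟩

/-! ### words with one, two and three letters -/

theorem om_one' {K : ℕ} (r : V n → Fin K) (σ : Finset (Fin K)) (x y : V n)
    (h : om (dd n) (ed r) σ x y ≠ 0) (hσ : σ.card = 1) : r x ∈ σ ∧ x = y := by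
  obtain ⟨a, rfl⟩ := Finset.card_eq_one.1 hσ
  rw [om_singleton] at h
  unfold ed at h
  by_cases hxy : x = y
  · refine ⟨?_, hxy⟩
    subst hxy
    rw [Matrix.diagonal_apply_eq] at h
    rw [Finset.mem_singleton]
    by_contra hn
    rw [if_neg hn] at h
    exact h rfl
  · exact absurd (Matrix.diagonal_apply_ne _ hxy) h

theorem om_step {K : ℕ} (r : V n → Fin K) (σ : Finset (Fin K)) (x y : V n)
    (h : om (dd n) (ed r) σ x y ≠ 0) (hσ : 2 ≤ σ.card) :
    r x ∈ σ ∧ ∃ i, x i = false ∧
      om (dd n) (ed r) (σ.erase (r x)) (AntiPath.flip x i) y ≠ 0 := by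
  have h1 := left_rem r σ 1 x y hσ
  simp only [mul_one] at h1
  rw [h1] at h
  have h2 : r x ∈ σ := by
    by_contra hn
    rw [if_neg hn] at h
    exact h rfl
  rw [if_pos h2] at h
  obtain ⟨i, -, hi⟩ := Finset.exists_ne_zero_of_sum_ne_zero h
  have h3 : x i = false := by
    by_contra hn
    rw [if_neg hn] at hi
    exact hi rfl
  rw [if_pos h3] at hi
  exact ⟨h2, i, h3, hi⟩

theorem om_two {K : ℕ} (r : V n → Fin K) (σ : Finset (Fin K)) (x y : V n)
    (h : om (dd n) (ed r) σ x y ≠ 0) (hσ : σ.card = 2) :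
    ∃ i, x i = false ∧ y = AntiPath.flip x i ∧ σ = {r x, r (AntiPath.flip x i)} ∧
      r x ≠ r (AntiPath.flip x i) := by
  obtain ⟨h1, i, hi, h2⟩ := om_step r σ x y h hσ.ge
  have h5 : (σ.erase (r x)).card = 1 := by rw [Finset.card_erase_of_mem h1, hσ]
  obtain ⟨h3, h4⟩ := om_one' r _ _ y h2 h5
  have h6 : σ.erase (r x) = {r (AntiPath.flip x i)} := by
    obtain ⟨a, ha⟩ := Finset.card_eq_one.1 h5
    rw [ha] at h3 ⊢
    rw [Finset.mem_singleton.1 h3]
  refine ⟨i, hi, h4.symm, ?_, Ne.symm (Finset.mem_erase.1 h3).1⟩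
  rw [← Finset.insert_erase h1, h6]

theorem om_three {K : ℕ} (r : V n → Fin K) (σ : Finset (Fin K)) (x y : V n)
    (h : om (dd n) (ed r) σ x y ≠ 0) (hσ : σ.card = 3) :
    ∃ i j, x i = false ∧ i ≠ j ∧ x j = false ∧ y = AntiPath.flip (AntiPath.flip x i) j ∧
      σ = {r x, r (AntiPath.flip x i), r y} ∧
      r x ≠ r (AntiPath.flip x i) ∧ r (AntiPath.flip x i) ≠ r y ∧ r x ≠ r y := by
  obtain ⟨h1, i, hi, h2⟩ := om_step r σ x y h (by omega)
  obtain ⟨j, hj, hy, h4, h6⟩ := om_two r _ _ y h2 (by rw [Finset.card_erase_of_mem h1, hσ])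
  have hij : i ≠ j := by
    rintro rfl
    rw [AntiPath.flip_same, hi] at hj
    simp at hj
  rw [AntiPath.flip_ne x (Ne.symm hij)] at hj
  have m1 : r (AntiPath.flip x i) ∈ σ.erase (r x) := by rw [h4]; simp
  have m2 : r y ∈ σ.erase (r x) := by rw [h4, hy]; simp
  refine ⟨i, j, hi, hij, hj, hy, ?_, Ne.symm (Finset.mem_erase.1 m1).1, ?_,
    Ne.symm (Finset.mem_erase.1 m2).1⟩
  · rw [← Finset.insert_erase h1, h4, hy]
  · rw [hy]; exact h6

/-! ### alternating faces -/

/-- an alternating face with four different pairs of labels -/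
def FaceL {A B : Type*} (r : V n → A) (b : V n → B) (x : V n) (i k : Fin n) : Prop :=
  i ≠ k ∧ r x ≠ r (AntiPath.flip x i) ∧
    r (AntiPath.flip x k) ≠ r (AntiPath.flip (AntiPath.flip x k) i) ∧
    b x ≠ b (AntiPath.flip x k) ∧
    b (AntiPath.flip x i) ≠ b (AntiPath.flip (AntiPath.flip x i) k)

/-- the labels on an alternating face -/
theorem FaceL.keep {A B : Type*} {r : V n → A} {b : V n → B} (h : Edg r b) {x : V n}
    {i k : Fin n} (hF : FaceL r b x i k) :
    b x = b (AntiPath.flip x i) ∧ r x = r (AntiPath.flip x k) ∧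
      r (AntiPath.flip x i) = r (AntiPath.flip (AntiPath.flip x i) k) ∧
      b (AntiPath.flip x k) = b (AntiPath.flip (AntiPath.flip x k) i) :=
  ⟨(h x i).resolve_left hF.2.1, (h x k).resolve_right hF.2.2.2.1,
    (h _ k).resolve_right hF.2.2.2.2, (h _ i).resolve_left hF.2.2.1⟩

/-- the criterion for alternating faces: two edges -/
theorem FaceL_of {A B : Type*} {r : V n → A} {b : V n → B} (h : Edg r b) {x : V n}
    {i k : Fin n} (hik : i ≠ k) (h1 : r x ≠ r (AntiPath.flip x i))
    (h2 : b (AntiPath.flip x i) ≠ b (AntiPath.flip (AntiPath.flip x i) k))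
    (h3 : b x ≠ b (AntiPath.flip x k)) : FaceL r b x i k := by
  refine ⟨hik, h1, ?_, h3, h2⟩
  rw [flip_comm' x (Ne.symm hik), ← (h x k).resolve_right h3, ← (h _ k).resolve_right h2]
  exact h1

/-- the base case with two and two labels -/
theorem base22 (h : Edg r b) (σ : Finset (Fin N)) (ρ : Finset (Fin M)) (x y : V n)
    (hσ : σ.card = 2) (hρ : ρ.card = 2) (hne : WW r b σ ρ x y ≠ 0) :
    ∃ i k, FaceL r b x i k ∧ x i = false ∧ x k = false ∧
      y = AntiPath.flip (AntiPath.flip x i) k ∧
      σ = {r x, r (AntiPath.flip x i)} ∧ ρ = {b x, b (AntiPath.flip x k)} := by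
  have hne' := hne
  rw [WW_comm h] at hne'
  unfold WW at hne hne'
  rw [Matrix.mul_apply] at hne hne'
  obtain ⟨z, -, hz⟩ := Finset.exists_ne_zero_of_sum_ne_zero hne
  obtain ⟨u, -, hu⟩ := Finset.exists_ne_zero_of_sum_ne_zero hne'
  obtain ⟨i, hi, rfl, s1, h1⟩ := om_two r σ x z (left_ne_zero_of_mul hz) hσ
  obtain ⟨k, hk, rfl, s2, h2⟩ := om_two b ρ _ y (right_ne_zero_of_mul hz) hρ
  obtain ⟨k', hk', rfl, s3, h3⟩ := om_two b ρ x u (left_ne_zero_of_mul hu) hρ
  obtain ⟨i', hi', hy, s4, h4⟩ := om_two r σ _ _ (right_ne_zero_of_mul hu) hσ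
  have hik : i ≠ k := by
    rintro rfl
    rw [AntiPath.flip_same, hi] at hk
    simp at hk
  rw [AntiPath.flip_ne x (Ne.symm hik)] at hk
  have b1 : b x = b (AntiPath.flip x i) := (h x i).resolve_left h1
  have hk2 : k' ≠ i := by
    rintro rfl
    exact h3 b1
  have hkk : k' = k := by
    by_contra hn
    have e1 : AntiPath.flip (AntiPath.flip x i) k k' = x k' := by
      rw [AntiPath.flip_ne _ hn, AntiPath.flip_ne _ hk2]
    have e2 : k' ≠ i' := by
      rintro rfl
      rw [AntiPath.flip_same, hk'] at hi'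
      simp at hi'
    rw [hy, AntiPath.flip_ne _ e2, AntiPath.flip_same, hk'] at e1
    simp at e1
  subst hkk
  exact ⟨i, k', FaceL_of h hik h1 h2 h3, hi, hk', rfl, s1, s3⟩

/-- a ladder: two adjacent alternating faces with three labels of the first kind -/
def LadL {A B : Type*} (r : V n → A) (b : V n → B) (x : V n) (i j k : Fin n) : Prop :=
  i ≠ j ∧ i ≠ k ∧ j ≠ k ∧ FaceL r b x i k ∧ FaceL r b (AntiPath.flip x i) j k ∧
    r x ≠ r (AntiPath.flip (AntiPath.flip x i) j)

/-- the base case with three and two labels -/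
theorem base32 (h : Edg r b) (σ : Finset (Fin N)) (ρ : Finset (Fin M)) (x y : V n)
    (hσ : σ.card = 3) (hρ : ρ.card = 2) (hne : WW r b σ ρ x y ≠ 0) :
    ∃ i j k, LadL r b x i j k ∧ x i = false ∧ x j = false ∧ x k = false ∧
      y = AntiPath.flip (AntiPath.flip (AntiPath.flip x i) j) k ∧
      σ = {r x, r (AntiPath.flip x i), r (AntiPath.flip (AntiPath.flip x i) j)} ∧
      ρ = {b x, b (AntiPath.flip x k)} := by
  have hne' := hne
  rw [WW_comm h] at hne'
  unfold WW at hne hne'
  rw [Matrix.mul_apply] at hne hne'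
  obtain ⟨z, -, hz⟩ := Finset.exists_ne_zero_of_sum_ne_zero hne
  obtain ⟨u, -, hu⟩ := Finset.exists_ne_zero_of_sum_ne_zero hne'
  obtain ⟨i, j, hi, hij, hj, rfl, s1, h1, h2, h3⟩ := om_three r σ x z (left_ne_zero_of_mul hz) hσ
  obtain ⟨k, hk, hy, s2, h4⟩ := om_two b ρ _ y (right_ne_zero_of_mul hz) hρ
  obtain ⟨k', hk', rfl, s3, h5⟩ := om_two b ρ x u (left_ne_zero_of_mul hu) hρ
  obtain ⟨i', j', hi', hij', hj', hy', s4, h6, h7, h8⟩ :=
    om_three r σ _ y (right_ne_zero_of_mul hu) hσ
  have hik : i ≠ k := by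
    rintro rfl
    rw [AntiPath.flip_ne _ hij, AntiPath.flip_same, hi] at hk
    simp at hk
  have hjk : j ≠ k := by
    rintro rfl
    rw [AntiPath.flip_same, AntiPath.flip_ne _ (Ne.symm hij), hj] at hk
    simp at hk
  rw [AntiPath.flip_ne _ (Ne.symm hjk), AntiPath.flip_ne _ (Ne.symm hik)] at hk
  -- labels of the second kind along the first path
  have b1 : b x = b (AntiPath.flip x i) := (h x i).resolve_left h1
  have b2 : b (AntiPath.flip x i) = b (AntiPath.flip (AntiPath.flip x i) j) :=
    (h _ j).resolve_left h2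
  -- the direction of the second path
  have hkk : k' = k := by
    by_contra hkk
    have h9 : k' = i ∨ k' = j := by
      by_contra hn
      push Not at hn
      have e1 : y k' = x k' := by
        rw [hy, AntiPath.flip_ne _ hkk, AntiPath.flip_ne _ hn.2, AntiPath.flip_ne _ hn.1]
      have e2 : y k' = !(x k') := by
        have h10 : k' ≠ j' := by
          rintro rfl
          rw [AntiPath.flip_same, hk'] at hj'
          simp at hj'
        have h11 : k' ≠ i' := by
          rintro rfl
          rw [AntiPath.flip_same, hk'] at hi'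
          simp at hi'
        rw [hy', AntiPath.flip_ne _ h10, AntiPath.flip_ne _ h11, AntiPath.flip_same]
      rw [e2] at e1
      cases hx : x k' <;> rw [hx] at e1 <;> simp at e1
    rcases h9 with rfl | rfl
    · exact h5 b1
    · have r1 : r x = r (AntiPath.flip x k') := (h x k').resolve_right h5
      have h10 := h (AntiPath.flip x k') i
      rw [flip_comm' x (Ne.symm hij)] at h10
      rcases h10 with h10 | h10
      · exact h3 (r1.trans h10)
      · exact h5 (b1.trans (b2.trans h10.symm))
  subst hkk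
  have r1 : r x = r (AntiPath.flip x k') := (h x k').resolve_right h5
  have r3 : r (AntiPath.flip (AntiPath.flip x i) j) = r y := by
    rw [hy]
    exact (h _ k').resolve_right h4
  have b3 : b (AntiPath.flip x i) ≠ b (AntiPath.flip (AntiPath.flip x i) k') := by
    intro hb
    have c1 := h (AntiPath.flip x k') i
    rw [flip_comm' x (Ne.symm hik)] at c1
    have c2 := h (AntiPath.flip (AntiPath.flip x i) k') j
    rw [flip_comm' _ (Ne.symm hjk), ← hy] at c2
    have d1 : b (AntiPath.flip x k') ≠ b (AntiPath.flip (AntiPath.flip x i) k') := by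
      rw [← hb, ← b1]; exact h5.symm
    have d2 : b (AntiPath.flip (AntiPath.flip x i) k') ≠ b y := by
      rw [← hb, b2, hy]; exact h4
    have c3 := c1.resolve_right d1
    have c4 := c2.resolve_right d2
    exact h3 (r1.trans (c3.trans (c4.trans r3.symm)))
  exact ⟨i, j, k', ⟨hij, hik, hjk, FaceL_of h hik h1 b3 h5, FaceL_of h hjk h2 h4 b3, h3⟩,
    hi, hj, hk', hy, s1, s3⟩

/-! ### all directions lie in alternating faces -/

/-- the direction `m` lies in no alternating face in the interval from `lo` to `hi` -/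
def NoF {A B : Type*} (r : V n → A) (b : V n → B) (lo hi : V n) (m : Fin n) : Prop :=
  ∀ x k, In lo hi x {m, k} → ¬ FaceL r b x m k ∧ ¬ FaceL r b x k m

theorem FaceL.swap {A B : Type*} {r : V n → A} {b : V n → B} {x : V n} {i k : Fin n}
    (hF : FaceL r b x i k) : FaceL b r x k i :=
  ⟨hF.1.symm, hF.2.2.2.1, hF.2.2.2.2, hF.2.1, hF.2.2.1⟩

theorem NoF.swap {A B : Type*} {r : V n → A} {b : V n → B} {lo hi : V n} {m : Fin n}
    (h : NoF r b lo hi m) : NoF b r lo hi m := fun x k hI =>
  ⟨fun hF => (h x k hI).2 hF.swap, fun hF => (h x k hI).1 hF.swap⟩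

/-- the faces of a two-dimensional interval -/
theorem In_two {x : V n} {i k : Fin n} (hi : x i = false) (hk : x k = false) (hik : i ≠ k) :
    In x (AntiPath.flip (AntiPath.flip x i) k) x {i, k} := by
  intro l
  simp only [mem_insert, mem_singleton, not_or]
  refine ⟨fun hl => ?_, fun hl => ⟨⟨?_, ?_⟩, hl⟩⟩
  · have h1 : l ≠ k := by
      rintro rfl
      rw [AntiPath.flip_same, AntiPath.flip_ne _ (Ne.symm hik), hk] at hl
      simp at hl
    have h2 : l ≠ i := by
      rintro rfl
      rw [AntiPath.flip_ne _ h1, AntiPath.flip_same, hi] at hl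
      simp at hl
    rw [AntiPath.flip_ne _ h1, AntiPath.flip_ne _ h2] at hl
    exact ⟨⟨h2, h1⟩, hl⟩
  · rintro rfl
    rw [hi] at hl
    simp at hl
  · rintro rfl
    rw [hk] at hl
    simp at hl

/-- the three-dimensional interval -/
theorem In_three {x : V n} {i j k : Fin n} (hi : x i = false) (hj : x j = false)
    (hk : x k = false) (hij : i ≠ j) (hik : i ≠ k) (hjk : j ≠ k) :
    In x (AntiPath.flip (AntiPath.flip (AntiPath.flip x i) j) k) x {i, j, k} := by
  intro l
  simp only [mem_insert, mem_singleton, not_or]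
  refine ⟨fun hl => ?_, fun hl => ⟨⟨?_, ?_, ?_⟩, hl⟩⟩
  · have h1 : l ≠ k := by
      rintro rfl
      rw [AntiPath.flip_same, AntiPath.flip_ne _ (Ne.symm hjk), AntiPath.flip_ne _ (Ne.symm hik),
        hk] at hl
      simp at hl
    have h2 : l ≠ j := by
      rintro rfl
      rw [AntiPath.flip_ne _ h1, AntiPath.flip_same, AntiPath.flip_ne _ (Ne.symm hij), hj] at hl
      simp at hl
    have h3 : l ≠ i := by
      rintro rfl
      rw [AntiPath.flip_ne _ h1, AntiPath.flip_ne _ h2, AntiPath.flip_same, hi] at hl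
      simp at hl
    rw [AntiPath.flip_ne _ h1, AntiPath.flip_ne _ h2, AntiPath.flip_ne _ h3] at hl
    exact ⟨⟨h3, h2, h1⟩, hl⟩
  · rintro rfl
    rw [hi] at hl
    simp at hl
  · rintro rfl
    rw [hj] at hl
    simp at hl
  · rintro rfl
    rw [hk] at hl
    simp at hl

theorem inc_zero {X : Mx n} (hX : X ∈ inc n) {x y : V n} (m : Fin n) (h : x m = true)
    (h' : y m = false) : X x y = 0 := by
  by_contra hn
  have := hX x y hn m h
  rw [h'] at this
  simp at this

/-- entries whose interval contains a direction which lies in no alternating face vanish -/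
theorem dir_zero (lo up : V n) (m : Fin n) (k : ℕ) :
    ∀ {N M : ℕ} {r : V n → Fin N} {b : V n → Fin M},
    Edg r b → NoF r b lo up m → ∀ (σ : Finset (Fin N)) (ρ : Finset (Fin M)),
    σ.card + ρ.card = k → 2 ≤ σ.card → 2 ≤ ρ.card → ∀ x y : V n, Le lo x → Le y up →
    x m = false → y m = true → WW r b σ ρ x y = 0 := by
  induction k using Nat.strong_induction_on with
  | _ k ih =>
    -- the main step, with at least three labels of each kind
    have step33 : ∀ {N M : ℕ} {r : V n → Fin N} {b : V n → Fin M},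
        Edg r b → NoF r b lo up m → ∀ (σ : Finset (Fin N)) (ρ : Finset (Fin M)),
        σ.card + ρ.card = k → 3 ≤ σ.card → 3 ≤ ρ.card → ∀ x y : V n, Le lo x → Le y up →
        x m = false → y m = true → WW r b σ ρ x y = 0 := by
      intro N M r b h hm σ ρ hk hσ hρ x y lx ly hx hy
      rw [WW_left σ ρ x y (by omega)]
      split_ifs with ha
      swap
      · rfl
      have c1 := Finset.card_erase_of_mem ha
      refine Finset.sum_eq_zero fun j _ => ?_
      split_ifs with hj
      swap
      · rfl
      by_cases hjm : j = m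
      swap
      · exact ih _ (by omega) h hm (σ.erase (r x)) ρ rfl (by omega) (by omega) _ y
          (lx.trans' (Le_flip x j hj)) ly
          (by rw [AntiPath.flip_ne _ (Ne.symm hjm)]; exact hx) hy
      subst hjm
      rw [WW_right _ ρ _ y (by omega)]
      split_ifs with hb
      swap
      · rfl
      have c2 := Finset.card_erase_of_mem hb
      refine Finset.sum_eq_zero fun l _ => ?_
      split_ifs with hl
      swap
      · rfl
      by_cases hlm : l = j
      · subst hlm
        refine inc_zero (WW_inc _ _) l ?_ ?_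
        · rw [AntiPath.flip_same, hx]; rfl
        · rw [AntiPath.flip_same, hy]; rfl
      have e1 := ih _ (by omega) h hm σ (ρ.erase (b y)) rfl (by omega) (by omega) x
        (AntiPath.flip y l) lx ((flip_Le y l hl).trans' ly) hx (by rw [AntiPath.flip_ne _ (Ne.symm hlm)]; exact hy)
      rw [WW_left _ _ _ _ (by omega), if_pos ha, Finset.sum_eq_single j, if_pos hx] at e1
      · exact e1
      · intro i _ hij
        split_ifs with hi
        · exact ih _ (by omega) h hm (σ.erase (r x)) (ρ.erase (b y)) rfl (by omega) (by omega)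
            _ _ (lx.trans' (Le_flip x i hi)) ((flip_Le y l hl).trans' ly) (by rw [AntiPath.flip_ne _ (Ne.symm hij)]; exact hx)
            (by rw [AntiPath.flip_ne _ (Ne.symm hlm)]; exact hy)
        · rfl
      · intro h'; exact absurd (mem_univ j) h'
    -- the step with at least four labels of the first kind
    have step4 : ∀ {N M : ℕ} {r : V n → Fin N} {b : V n → Fin M},
        Edg r b → NoF r b lo up m → ∀ (σ : Finset (Fin N)) (ρ : Finset (Fin M)),
        σ.card + ρ.card = k → 4 ≤ σ.card → 2 ≤ ρ.card → ∀ x y : V n, Le lo x → Le y up →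
        x m = false → y m = true → WW r b σ ρ x y = 0 := by
      intro N M r b h hm σ ρ hk hσ hρ x y lx ly hx hy
      rw [WW_left σ ρ x y (by omega)]
      split_ifs with ha
      swap
      · rfl
      have c1 := Finset.card_erase_of_mem ha
      refine Finset.sum_eq_zero fun j _ => ?_
      split_ifs with hj
      swap
      · rfl
      by_cases hjm : j = m
      swap
      · exact ih _ (by omega) h hm (σ.erase (r x)) ρ rfl (by omega) (by omega) _ y
          (lx.trans' (Le_flip x j hj)) ly
          (by rw [AntiPath.flip_ne _ (Ne.symm hjm)]; exact hx) hy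
      subst hjm
      rw [WW_right' h _ ρ _ y (by omega)]
      split_ifs with hb
      swap
      · rfl
      have hbσ : r y ∈ σ := Finset.mem_of_mem_erase hb
      have hne : r x ≠ r y := Ne.symm (Finset.mem_erase.1 hb).1
      have ha' : r x ∈ σ.erase (r y) := Finset.mem_erase.2 ⟨hne, ha⟩
      have c2 := Finset.card_erase_of_mem hb
      have c3 := Finset.card_erase_of_mem hbσ
      have c4 := Finset.card_erase_of_mem ha'
      refine Finset.sum_eq_zero fun l _ => ?_
      split_ifs with hl
      swap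
      · rfl
      by_cases hlm : l = j
      · subst hlm
        refine inc_zero (WW_inc _ _) l ?_ ?_
        · rw [AntiPath.flip_same, hx]; rfl
        · rw [AntiPath.flip_same, hy]; rfl
      have e1 := ih _ (by omega) h hm (σ.erase (r y)) ρ rfl (by omega) (by omega) x
        (AntiPath.flip y l) lx ((flip_Le y l hl).trans' ly) hx (by rw [AntiPath.flip_ne _ (Ne.symm hlm)]; exact hy)
      rw [WW_left _ _ _ _ (by omega), if_pos ha', Finset.sum_eq_single j, if_pos hx,
        Finset.erase_right_comm] at e1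
      · exact e1
      · intro i _ hij
        split_ifs with hi
        · exact ih _ (by omega) h hm ((σ.erase (r y)).erase (r x)) ρ rfl (by omega) (by omega)
            _ _ (lx.trans' (Le_flip x i hi)) ((flip_Le y l hl).trans' ly) (by rw [AntiPath.flip_ne _ (Ne.symm hij)]; exact hx)
            (by rw [AntiPath.flip_ne _ (Ne.symm hlm)]; exact hy)
        · rfl
      · intro h'; exact absurd (mem_univ j) h'
    -- the base case with three and two labels
    have step32 : ∀ {N M : ℕ} {r : V n → Fin N} {b : V n → Fin M},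
        Edg r b → NoF r b lo up m → ∀ (σ : Finset (Fin N)) (ρ : Finset (Fin M)),
        σ.card = 3 → ρ.card = 2 → ∀ x y : V n, Le lo x → Le y up → x m = false →
        y m = true → WW r b σ ρ x y = 0 := by
      intro N M r b h hm σ ρ hσ hρ x y lx ly hx hy
      by_contra hn
      obtain ⟨i, j, k, ⟨hij, hik, hjk, F1, F2, -⟩, hi, hj, hk, hyx, -⟩ :=
        base32 h σ ρ x y hσ hρ hn
      have I3 : In lo up x {i, j, k} := In_mono (In_three hi hj hk hij hik hjk) lx (hyx ▸ ly)
      have I1 : In lo up x {i, k} := fun l => ⟨fun hl => ⟨fun h' => ((I3 l).1 hl).1 (by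
          simp only [mem_insert, mem_singleton] at h' ⊢; tauto), ((I3 l).1 hl).2⟩,
        fun hl => ⟨fun h' => ((I3 l).2 hl).1 (by
          simp only [mem_insert, mem_singleton] at h' ⊢; tauto), ((I3 l).2 hl).2⟩⟩
      have I2 : In lo up (AntiPath.flip x i) {j, k} := by
        intro l
        have e1 : ∀ l, l ∉ ({i, j, k} : Finset (Fin n)) →
            l ∉ ({j, k} : Finset (Fin n)) ∧ AntiPath.flip x i l = x l := by
          intro l hl
          simp only [mem_insert, mem_singleton, not_or] at hl ⊢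
          exact ⟨hl.2, AntiPath.flip_ne x hl.1⟩
        refine ⟨fun hl => ?_, fun hl => ?_⟩
        · obtain ⟨h1, h2⟩ := (I3 l).1 hl
          exact ⟨(e1 l h1).1, (e1 l h1).2.trans h2⟩
        · obtain ⟨h1, h2⟩ := (I3 l).2 hl
          exact ⟨(e1 l h1).1, (e1 l h1).2.trans h2⟩
      by_cases h1 : m = k
      · subst h1
        exact (hm x i (by rw [Finset.pair_comm]; exact I1)).2 F1
      by_cases h2 : m = j
      · subst h2
        exact (hm _ k I2).1 F2
      by_cases h3 : m = i
      · subst h3
        exact (hm x k I1).1 F1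
      rw [hyx, AntiPath.flip_ne _ h1, AntiPath.flip_ne _ h2, AntiPath.flip_ne _ h3, hx] at hy
      simp at hy
    intro N M r b h hm σ ρ hk hσ hρ x y lx ly hx hy
    by_cases h4 : 4 ≤ σ.card
    · exact step4 h hm σ ρ hk h4 hρ x y lx ly hx hy
    by_cases h5 : 4 ≤ ρ.card
    · rw [WW_comm h]
      exact step4 h.swap hm.swap ρ σ (by omega) h5 hσ x y lx ly hx hy
    by_cases h6 : σ.card = 3
    · by_cases h7 : ρ.card = 3
      · exact step33 h hm σ ρ hk (by omega) (by omega) x y lx ly hx hy
      · exact step32 h hm σ ρ h6 (by omega) x y lx ly hx hy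
    · by_cases h7 : ρ.card = 3
      · rw [WW_comm h]
        exact step32 h.swap hm.swap ρ σ h7 (by omega) x y lx ly hx hy
      · by_contra hn
        obtain ⟨i, k, F, hi, hk, hyx, -⟩ := base22 h σ ρ x y (by omega) (by omega) hn
        have I1 : In lo up x {i, k} := In_mono (In_two hi hk F.1) lx (hyx ▸ ly)
        by_cases h1 : m = k
        · subst h1
          exact (hm x i (by rw [Finset.pair_comm]; exact I1)).2 F
        by_cases h3 : m = i
        · subst h3
          exact (hm x k I1).1 F
        rw [hyx, AntiPath.flip_ne _ h1, AntiPath.flip_ne _ h3, hx] at hy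
        simp at hy

end Pool.Agent.NorK
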